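import Pool.Agent.Lib.MP_af0b91_an.LiftAtlas

set_option autoImplicit false

namespace Pool.Agent.Lib.MP_af0b91_an

open Filter Topology Set

/-! ### The stretch map -/

/-- The stretch as a real linear map. -/
noncomputable def stretchLin (μ : ℝ) : ℂ →ₗ[ℝ] ℂ where
  toFun := stretch μ
  map_add' := by
    intro x y
    unfold stretch
    apply Complex.ext <;> simp <;> ring
  map_smul' := by
    intro r x
    unfold stretch
    apply Complex.ext <;> simp <;> ring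

lemma stretch_sub (μ : ℝ) (x y : ℂ) : stretch μ (x - y) = stretch μ x - stretch μ y :=
  (stretchLin μ).map_sub x y

lemma stretch_add (μ : ℝ) (x y : ℂ) : stretch μ (x + y) = stretch μ x + stretch μ y :=
  (stretchLin μ).map_add x y

lemma signs_add (s t : ℝ) (x y : ℂ) : signs s t (x + y) = signs s t x + signs s t y := by
  unfold signs
  apply Complex.ext <;> simp <;> ring

lemma signs_sub (s t : ℝ) (x y : ℂ) : signs s t (x - y) = signs s t x - signs s t y := by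
  unfold signs
  apply Complex.ext <;> simp <;> ring

lemma stretch_signs (μ s t : ℝ) (x : ℂ) :
    stretch μ (signs s t x) = signs s t (stretch μ x) := by
  unfold stretch signs
  apply Complex.ext <;> simp <;> ring

lemma signs_signs (s t s' t' : ℝ) (x : ℂ) :
    signs s t (signs s' t' x) = signs (s * s') (t * t') x := by
  unfold signs
  apply Complex.ext <;> simp <;> ring

lemma signs_same {s : ℂ} (hs : s = 1 ∨ s = -1) :
    ∃ r : ℝ, (r = 1 ∨ r = -1) ∧ ∀ x, s * x = signs r r x := by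
  rcases hs with h | h
  · refine ⟨1, Or.inl rfl, fun x => ?_⟩
    rw [h]; unfold signs; apply Complex.ext <;> simp
  · refine ⟨-1, Or.inr rfl, fun x => ?_⟩
    rw [h]; unfold signs; apply Complex.ext <;> simp

lemma sq_sign {s : ℝ} (hs : s = 1 ∨ s = -1) : s * s = 1 := by
  rcases hs with h | h <;> rw [h] <;> norm_num

lemma signs_self {s t : ℝ} (hs : s = 1 ∨ s = -1) (ht : t = 1 ∨ t = -1) (x : ℂ) :
    signs s t (signs s t x) = x := by
  rw [signs_signs, sq_sign hs, sq_sign ht]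
  unfold signs
  apply Complex.ext <;> simp

lemma norm_signs {s t : ℝ} (hs : s = 1 ∨ s = -1) (ht : t = 1 ∨ t = -1) (x : ℂ) :
    ‖signs s t x‖ = ‖x‖ := by
  have h1 : ‖signs s t x‖ ^ 2 = ‖x‖ ^ 2 := by
    rw [← Complex.normSq_eq_norm_sq, ← Complex.normSq_eq_norm_sq, Complex.normSq_apply,
      Complex.normSq_apply]
    unfold signs
    simp only
    have a1 := sq_sign hs
    have a2 := sq_sign ht
    linear_combination (x.re * x.re) * a1 + (x.im * x.im) * a2
  exact (pow_left_inj₀ (norm_nonneg _) (norm_nonneg _) two_ne_zero).mp h1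

lemma sign_mul {s s' : ℝ} (hs : s = 1 ∨ s = -1) (hs' : s' = 1 ∨ s' = -1) :
    s * s' = 1 ∨ s * s' = -1 := by
  rcases hs with h | h <;> rcases hs' with h' | h' <;> rw [h, h'] <;> norm_num

lemma stretch_stretch (μ ν : ℝ) (x : ℂ) : stretch μ (stretch ν x) = stretch (μ * ν) x := by
  unfold stretch
  apply Complex.ext
  · simp; ring
  · simp only [mul_inv]; ring

lemma stretch_one (x : ℂ) : stretch 1 x = x := by
  unfold stretch
  apply Complex.ext <;> simp

lemma stretch_expand {μ : ℝ} (hμ : 0 < μ) (v : ℂ) :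
    μ * ‖v‖ ≤ ‖stretch μ v‖ + ‖stretch μ⁻¹ v‖ := by
  have h1 : μ * |v.re| ≤ ‖stretch μ v‖ := by
    have := Complex.abs_re_le_norm (stretch μ v)
    unfold stretch at this ⊢
    simp only [abs_mul, abs_of_pos hμ] at this
    exact this
  have h2 : μ * |v.im| ≤ ‖stretch μ⁻¹ v‖ := by
    have := Complex.abs_im_le_norm (stretch μ⁻¹ v)
    have h3 : (stretch μ⁻¹ v).im = μ * v.im := by unfold stretch; simp
    rw [h3, abs_mul, abs_of_pos hμ] at this
    exact this
  have h3 := Complex.norm_le_abs_re_add_abs_im v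
  nlinarith

lemma stretch_lip {μ : ℝ} (hμ : 0 < μ) (v : ℂ) : ‖stretch μ v‖ ≤ max μ μ⁻¹ * ‖v‖ := by
  have hm : 0 < max μ μ⁻¹ := lt_max_of_lt_left hμ
  have h1 : ‖stretch μ v‖ ^ 2 ≤ (max μ μ⁻¹ * ‖v‖) ^ 2 := by
    rw [mul_pow, ← Complex.normSq_eq_norm_sq, ← Complex.normSq_eq_norm_sq, Complex.normSq_apply,
      Complex.normSq_apply]
    unfold stretch
    simp only
    have a1 : μ ^ 2 ≤ max μ μ⁻¹ ^ 2 := pow_le_pow_left₀ hμ.le (le_max_left _ _) 2
    have a2 : μ⁻¹ ^ 2 ≤ max μ μ⁻¹ ^ 2 := pow_le_pow_left₀ (by positivity) (le_max_right _ _) 2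
    nlinarith [mul_nonneg (sub_nonneg.mpr a1) (sq_nonneg v.re),
      mul_nonneg (sub_nonneg.mpr a2) (sq_nonneg v.im)]
  exact le_of_sq_le_sq h1 (by positivity)

section

variable {S : Type*} [TopologicalSpace S] {F : MeasuredFoliationPair S}
variable {X : Type*} [TopologicalSpace X] {π : X → S}

/-- `ψ` covers an affine map with stretch `μ`. -/
def AffLift (F : MeasuredFoliationPair S) (π : X → S) (ψ : X ≃ₜ X) (μ : ℝ) : Prop :=
  (∀ x, π (ψ x) ∈ F.sing ↔ π x ∈ F.sing) ∧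
    ∀ e ∈ F.charts, ∀ e' ∈ F.charts, ∀ x, π x ∈ e.source → π (ψ x) ∈ e'.source →
      ∃ (s t : ℝ) (c : ℂ), (s = 1 ∨ s = -1) ∧ (t = 1 ∨ t = -1) ∧
        ∀ᶠ y in 𝓝 x, e' (π (ψ y)) = signs s t (stretch μ (e (π y))) + c

lemma AffLift.one (hπ : Continuous π) : AffLift F π (1 : X ≃ₜ X) 1 := by
  refine ⟨fun x => Iff.rfl, fun e he e' he' x hx hx' => ?_⟩
  obtain ⟨s, c, hs, hev⟩ := F.compat e he e' he' (π x) ⟨hx, hx'⟩
  obtain ⟨r, hr, hrs⟩ := signs_same hs
  refine ⟨r, r, c, hr, hr, ?_⟩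
  filter_upwards [hπ.continuousAt.eventually hev] with y hy
  rw [stretch_one, ← hrs]
  exact hy

lemma AffLift.mul {ψ₁ ψ₂ : X ≃ₜ X} {μ₁ μ₂ : ℝ} (h1 : AffLift F π ψ₁ μ₁)
    (h2 : AffLift F π ψ₂ μ₂) : AffLift F π (ψ₂ * ψ₁) (μ₂ * μ₁) := by
  refine ⟨fun x => (h2.1 (ψ₁ x)).trans (h1.1 x), fun e he e' he' x hx hx' => ?_⟩
  have hns : π x ∉ F.sing := not_sing_of_reg he hx
  have hns1 : π (ψ₁ x) ∉ F.sing := fun h => hns ((h1.1 x).mp h)
  obtain ⟨e1, he1, hxe1⟩ := F.cover _ hns1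
  obtain ⟨s1, t1, c1, hs1, ht1, hev1⟩ := h1.2 e he e1 he1 x hx hxe1
  obtain ⟨s2, t2, c2, hs2, ht2, hev2⟩ := h2.2 e1 he1 e' he' (ψ₁ x) hxe1 hx'
  refine ⟨s2 * s1, t2 * t1, signs s2 t2 (stretch μ₂ c1) + c2, sign_mul hs2 hs1, sign_mul ht2 ht1, ?_⟩
  filter_upwards [hev1, ψ₁.continuous.continuousAt.eventually hev2] with y hy1 hy2
  show e' (π (ψ₂ (ψ₁ y))) = _
  rw [hy2, hy1, stretch_add, stretch_signs, stretch_stretch, signs_add, signs_signs, add_assoc]

lemma AffLift.pow (hπ : Continuous π) {ψ : X ≃ₜ X} {μ : ℝ} (h : AffLift F π ψ μ) (n : ℕ) :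
    AffLift F π (ψ ^ n) (μ ^ n) := by
  induction n with
  | zero => rw [pow_zero, pow_zero]; exact AffLift.one hπ
  | succ n ih =>
    rw [pow_succ, pow_succ]
    exact h.mul ih

lemma AffLift.symm {ψ : X ≃ₜ X} {μ : ℝ} (hμ : μ ≠ 0) (h : AffLift F π ψ μ) :
    AffLift F π ψ.symm μ⁻¹ := by
  refine ⟨fun x => ?_, fun e he e' he' x hx hx' => ?_⟩
  · have := h.1 (ψ.symm x)
    rw [ψ.apply_symm_apply] at this
    exact this.symm
  · obtain ⟨s, t, c, hs, ht, hev⟩ := h.2 e' he' e he (ψ.symm x) hx' (by rwa [ψ.apply_symm_apply])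
    refine ⟨s, t, - signs s t (stretch μ⁻¹ c), hs, ht, ?_⟩
    filter_upwards [ψ.symm.continuous.continuousAt.eventually hev] with y hy
    rw [ψ.apply_symm_apply] at hy
    rw [hy, stretch_add, stretch_signs, stretch_stretch, inv_mul_cancel₀ hμ, stretch_one,
      signs_add, signs_self hs ht]
    ring

variable [T2Space X] [PreconnectedSpace X]

/-- Near a regular point the chain distance is the Euclidean distance in natural charts. -/
lemma reg_dist (hπ : Continuous π)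
    (hcov : ∀ x : X, ∃ c : CChart X, IsUpChart F π c ∧ x ∈ c.z.source) {x : X}
    {e : OpenPartialHomeomorph S ℂ} (he : e ∈ F.charts) (hxe : π x ∈ e.source) :
    ∀ᶠ p : X × X in 𝓝 (x, x),
      fdist (upAtlas F π hπ hcov) p.1 p.2 = ‖e (π p.1) - e (π p.2)‖ := by
  set A := upAtlas F π hπ hcov with hA
  obtain ⟨c, hc, hx⟩ := A.cover x
  obtain ⟨R, hR, hloc⟩ := fdist_local hc hx
  have h1 := up_reg hπ (show IsUpChart F π c from hc) hx he hxe
  have h2 : ∀ᶠ y in 𝓝 x, fdist A x y < R / 2 := fdist_ball_mem_nhds A x (by positivity)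
  have h3 : ∀ᶠ p : X × X in 𝓝 (x, x), fdist A x p.1 < R / 2 ∧ fdist A x p.2 < R / 2 := by
    rw [nhds_prod_eq]
    exact h2.prod_mk h2
  filter_upwards [h1, h3] with p hp1 hp3
  rw [← hp1]
  obtain ⟨-, -, h4⟩ := hloc p.1 (by linarith [hp3.1])
  apply (h4 p.2 _).2
  have := fdist_triangle A p.1 x p.2
  rw [fdist_comm A p.1 x] at this
  linarith [hp3.1, hp3.2]

/-- Two point version for an affine map. -/
lemma aff_dist (hπ : Continuous π)
    (hcov : ∀ x : X, ∃ c : CChart X, IsUpChart F π c ∧ x ∈ c.z.source) {ψ : X ≃ₜ X} {μ : ℝ}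
    (hψ : AffLift F π ψ μ) {x : X} {e : OpenPartialHomeomorph S ℂ} (he : e ∈ F.charts)
    (hxe : π x ∈ e.source) :
    ∀ᶠ p : X × X in 𝓝 (x, x),
      fdist (upAtlas F π hπ hcov) p.1 p.2 = ‖e (π p.1) - e (π p.2)‖ ∧
      fdist (upAtlas F π hπ hcov) (ψ p.1) (ψ p.2) = ‖stretch μ (e (π p.1) - e (π p.2))‖ := by
  have hx : π x ∉ F.sing := not_sing_of_reg he hxe
  have hx' : π (ψ x) ∉ F.sing := fun h => hx ((hψ.1 x).mp h)
  obtain ⟨e', he', hxe'⟩ := F.cover _ hx'
  have h1 := reg_dist hπ hcov he hxe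
  have h2 := reg_dist hπ hcov he' hxe'
  have hc : Continuous (fun p : X × X => (ψ p.1, ψ p.2)) := by
    have := ψ.continuous
    fun_prop
  have h3 := (hc.tendsto (x, x)).eventually h2
  obtain ⟨s, t, c, hs, ht, hev⟩ := hψ.2 e he e' he' x hxe hxe'
  have h4 : ∀ᶠ p : X × X in 𝓝 (x, x), e' (π (ψ p.1)) = signs s t (stretch μ (e (π p.1))) + c ∧
      e' (π (ψ p.2)) = signs s t (stretch μ (e (π p.2))) + c := by
    rw [nhds_prod_eq]
    exact hev.prod_mk hev
  filter_upwards [h1, h3, h4] with p hp1 hp3 hp4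
  refine ⟨hp1, ?_⟩
  rw [hp3, hp4.1, hp4.2, add_sub_add_right_eq_sub, ← signs_sub, norm_signs hs ht, ← stretch_sub]

lemma exists_ball_of_eventually (A : ConeAtlas X) {x : X} {P : X → X → Prop}
    (h : ∀ᶠ p : X × X in 𝓝 (x, x), P p.1 p.2) :
    ∃ ε > 0, ∀ a b, fdist A a x < ε → fdist A b x < ε → P a b := by
  rw [nhds_prod_eq, Filter.eventually_prod_self_iff] at h
  obtain ⟨U, hU, hP⟩ := h
  obtain ⟨ε, hε, hsub⟩ := exists_fdist_ball_subset A x hU
  refine ⟨ε, hε, fun a b ha hb => hP a (hsub a ?_) b (hsub b ?_)⟩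
  · rwa [fdist_comm]
  · rwa [fdist_comm]

lemma aff_btw (hπ : Continuous π)
    (hcov : ∀ x : X, ∃ c : CChart X, IsUpChart F π c ∧ x ∈ c.z.source) {ψ : X ≃ₜ X} {μ : ℝ}
    (hψ : AffLift F π ψ μ) {x : X} (hx : π x ∉ F.sing) :
    ∃ ε > 0, ∀ a b c, fdist (upAtlas F π hπ hcov) a x < ε → fdist (upAtlas F π hπ hcov) b x < ε →
      fdist (upAtlas F π hπ hcov) c x < ε →
      fdist (upAtlas F π hπ hcov) a b + fdist (upAtlas F π hπ hcov) b c
        = fdist (upAtlas F π hπ hcov) a c →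
      fdist (upAtlas F π hπ hcov) (ψ a) (ψ b) + fdist (upAtlas F π hπ hcov) (ψ b) (ψ c)
        = fdist (upAtlas F π hπ hcov) (ψ a) (ψ c) := by
  set A := upAtlas F π hπ hcov with hA
  obtain ⟨e, he, hxe⟩ := F.cover _ hx
  have hev := aff_dist hπ hcov hψ he hxe
  obtain ⟨ε, hε, hP⟩ := exists_ball_of_eventually A (P := fun a b =>
    fdist A a b = ‖e (π a) - e (π b)‖ ∧ fdist A (ψ a) (ψ b) = ‖stretch μ (e (π a) - e (π b))‖) hev
  refine ⟨ε, hε, fun a b c ha hb hc habc => ?_⟩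
  rw [(hP a b ha hb).1, (hP b c hb hc).1, (hP a c ha hc).1] at habc
  rw [(hP a b ha hb).2, (hP b c hb hc).2, (hP a c ha hc).2]
  set u := e (π a) - e (π b)
  set v := e (π b) - e (π c)
  have huv : e (π a) - e (π c) = u + v := by simp only [u, v]; ring
  rw [huv] at habc ⊢
  have hray : SameRay ℝ u v := sameRay_iff_norm_add.mpr habc.symm
  have hray' := hray.map (stretchLin μ)
  have := sameRay_iff_norm_add.mp hray'
  rw [← map_add] at this
  exact this.symm

end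

end Pool.Agent.Lib.MP_af0b91_an
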