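import Pool.Agent.Lib.MP_af0b91_an.Geo

set_option autoImplicit false

namespace Pool.Agent.Lib.MP_af0b91_an

open Filter Topology Set

/-- `ψ` is a homeomorphism preserving a discrete set `sing` and preserving betweenness near every
point outside `sing`. -/
structure LocAff (X : Type*) [MetricSpace X] (sing : Set X) (ψ : X ≃ₜ X) : Prop where
  maps : ∀ x, ψ x ∈ sing ↔ x ∈ sing
  btw : ∀ x, x ∉ sing → ∃ ε > 0, ∀ a b c, dist a x < ε → dist b x < ε → dist c x < ε →
    Btw a b c → Btw (ψ a) (ψ b) (ψ c)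

/-- Discreteness of the singular set. -/
def Discr {X : Type*} [MetricSpace X] (sing : Set X) : Prop :=
  ∀ x, ∃ ε > 0, ∀ y ∈ sing, dist y x < ε → y = x

section

variable {X : Type*} [MetricSpace X] [ProperSpace X]

/-- Regular geodesic paths are mapped to geodesic paths. -/
lemma NPC.reg_path (H : NPC X) {sing : Set X} {ψ : X ≃ₜ X} (hψ : LocAff X sing ψ) {γ : ℝ → X}
    {a b : ℝ} (hγc : Continuous γ) (hinj : ∀ s ∈ Icc a b, ∀ t ∈ Icc a b, γ s = γ t → s = t)
    (hreg : ∀ t ∈ Icc a b, γ t ∉ sing)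
    (hbtw : ∀ s ∈ Icc a b, ∀ w ∈ Icc a b, ∀ u, s ≤ u → u ≤ w → Btw (γ s) (γ u) (γ w)) :
    ∀ s ∈ Icc a b, ∀ w ∈ Icc a b, ∀ u, s ≤ u → u ≤ w → Btw (ψ (γ s)) (ψ (γ u)) (ψ (γ w)) := by
  apply H.l2g (γ := fun t => ψ (γ t))
  · intro s hs t ht hst
    exact hinj s hs t ht (ψ.injective hst)
  · intro t ht
    obtain ⟨ε, hε, h⟩ := hψ.btw (γ t) (hreg t ht)
    obtain ⟨η, hη, hη'⟩ := Metric.continuous_iff.mp hγc t ε hε
    refine ⟨η, hη, ?_⟩
    intro s hs w hw hst hwt u hsu huw
    have hut : |u - t| < η := by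
      rw [abs_lt] at hst hwt ⊢
      constructor <;> linarith
    exact h _ _ _ (hη' s (by rwa [Real.dist_eq])) (hη' u (by rwa [Real.dist_eq]))
      (hη' w (by rwa [Real.dist_eq])) (hbtw s hs w hw u hsu huw)

/-- Straightness at a singular vertex is preserved. -/
lemma NPC.sing_vertex (H : NPC X) {sing : Set X} (hd : Discr sing) {ψ : X ≃ₜ X}
    (hψ : LocAff X sing ψ) (hψ' : LocAff X sing ψ.symm) {p : X} :
    ∃ ε > 0, ∀ a b, dist a p < ε → dist b p < ε → Btw a p b → Btw (ψ a) (ψ p) (ψ b) := by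
  obtain ⟨ε', hε', hdisc⟩ := hd (ψ p)
  obtain ⟨ε, hε, hc⟩ := Metric.continuous_iff.mp ψ.continuous p (ε' / 3) (by positivity)
  refine ⟨ε, hε, fun a b ha hb hab => ?_⟩
  have ha' := hc a ha
  have hb' := hc b hb
  by_cases hne : ψ a = ψ b
  · have : a = b := ψ.injective hne
    subst this
    have h1 : dist a p = 0 := by
      unfold Btw at hab
      rw [dist_self, dist_comm p a] at hab
      linarith [dist_nonneg (x := a) (y := p)]
    rw [dist_eq_zero.mp h1]
    exact btw_left _ _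
  set σ := H.geo (ψ a) (ψ b)
  have hσ : IsGeod σ (ψ a) (ψ b) := H.geo_isGeod _ _
  by_cases hmem : ∃ t ∈ Icc (0 : ℝ) 1, σ t = ψ p
  · obtain ⟨t, ht, htp⟩ := hmem
    have := hσ.btw zero_mem_I one_mem_I ht.1 ht.2
    rw [hσ.1, hσ.2.1, htp] at this
    exact this
  · exfalso
    push Not at hmem
    have hreg : ∀ t ∈ Icc (0 : ℝ) 1, σ t ∉ sing := by
      intro t ht hs
      apply hmem t ht
      apply hdisc _ hs
      have h1 : dist (ψ a) (σ t) ≤ dist (ψ a) (ψ b) := by
        rw [hσ.dist_left ht]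
        have : 0 ≤ dist (ψ a) (ψ b) := dist_nonneg
        nlinarith [ht.2]
      have h2 : dist (ψ a) (ψ b) ≤ dist (ψ a) (ψ p) + dist (ψ b) (ψ p) := by
        rw [dist_comm (ψ b)]; exact dist_triangle _ _ _
      have h3 : dist (σ t) (ψ p) ≤ dist (ψ a) (σ t) + dist (ψ a) (ψ p) := by
        rw [dist_comm (ψ a) (σ t)]; exact dist_triangle _ _ _
      linarith
    have himg := H.reg_path hψ' hσ.continuous
      (fun s hs t ht hst => hσ.injOn hne hs ht hst) hreg
      (fun s hs w hw u hsu huw => hσ.btw hs hw hsu huw)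
    have hcont : ContinuousOn (fun t => dist a (ψ.symm (σ t))) (Icc 0 1) :=
      (continuous_const.dist (ψ.symm.continuous.comp hσ.continuous)).continuousOn
    have hivt := intermediate_value_Icc (zero_le_one' ℝ) hcont
    have h0 : dist a (ψ.symm (σ 0)) = 0 := by rw [hσ.1]; simp
    have h1 : dist a (ψ.symm (σ 1)) = dist a b := by rw [hσ.2.1]; simp
    have hval : dist a p ∈ Icc (dist a (ψ.symm (σ 0))) (dist a (ψ.symm (σ 1))) := by
      rw [h0, h1]
      refine ⟨dist_nonneg, ?_⟩
      unfold Btw at hab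
      linarith [dist_nonneg (x := p) (y := b)]
    obtain ⟨t, ht, htd⟩ := hivt hval
    have hb2 := himg 0 zero_mem_I 1 one_mem_I t ht.1 ht.2
    rw [hσ.1, hσ.2.1, ψ.symm_apply_apply, ψ.symm_apply_apply] at hb2
    have heq := H.btw_unique hab hb2 htd.symm
    apply hmem t ht
    rw [heq, ψ.apply_symm_apply]

/-- The image of a geodesic is a geodesic. -/
theorem NPC.geod_image (H : NPC X) {sing : Set X} (hd : Discr sing) {ψ : X ≃ₜ X}
    (hψ : LocAff X sing ψ) (hψ' : LocAff X sing ψ.symm) {γ : ℝ → X} {x y : X}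
    (hγ : IsGeod γ x y) (hxy : x ≠ y) :
    ∀ s ∈ Icc (0 : ℝ) 1, ∀ w ∈ Icc (0 : ℝ) 1, ∀ u, s ≤ u → u ≤ w →
      Btw (ψ (γ s)) (ψ (γ u)) (ψ (γ w)) := by
  have hγc := hγ.continuous
  apply H.l2g (γ := fun t => ψ (γ t))
  · intro s hs t ht hst
    exact hγ.injOn hxy hs ht (ψ.injective hst)
  · intro t ht
    by_cases hts : γ t ∈ sing
    · obtain ⟨ε1, hε1, h1⟩ := hd (γ t)
      obtain ⟨ε2, hε2, h2⟩ := H.sing_vertex hd hψ hψ' (p := γ t)
      obtain ⟨η, hη, hη'⟩ := Metric.continuous_iff.mp hγc t (min ε1 ε2) (lt_min hε1 hε2)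
      have hregu : ∀ s ∈ Icc (0 : ℝ) 1, |s - t| < η → s ≠ t → γ s ∉ sing := by
        intro s hs hst hne hss
        have h3 := hη' s (by rwa [Real.dist_eq])
        have h4 := h1 _ hss (lt_of_lt_of_le h3 (min_le_left _ _))
        exact hne (hγ.injOn hxy hs ht h4)
      have hψγ : Continuous (fun s => ψ (γ s)) := ψ.continuous.comp hγc
      -- right side
      have hright : ∀ w ∈ Icc (0 : ℝ) 1, |w - t| < η → ∀ u, t ≤ u → u ≤ w →
          Btw (ψ (γ t)) (ψ (γ u)) (ψ (γ w)) := by
        intro w hw hwt u htu huw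
        rcases htu.eq_or_lt with h | htu'
        · rw [← h]; exact btw_left _ _
        have hclosed : IsClosed {s : ℝ | Btw (ψ (γ s)) (ψ (γ u)) (ψ (γ w))} := by
          unfold Btw
          apply isClosed_eq
          · exact (hψγ.dist continuous_const).add continuous_const
          · exact hψγ.dist continuous_const
        have hsub : Ioc t u ⊆ {s : ℝ | Btw (ψ (γ s)) (ψ (γ u)) (ψ (γ w))} := by
          intro s hs
          have hsub2 : Icc s w ⊆ Icc 0 1 := Icc_subset_Icc (by linarith [ht.1, hs.1]) hw.2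
          have hreg2 : ∀ v ∈ Icc s w, γ v ∉ sing := by
            intro v hv
            apply hregu v (hsub2 hv)
            · rw [abs_lt] at hwt ⊢
              constructor <;> linarith [hv.1, hv.2, hs.1]
            · linarith [hv.1, hs.1]
          exact H.reg_path hψ hγc
            (fun a ha b hb hab => hγ.injOn hxy (hsub2 ha) (hsub2 hb) hab) hreg2
            (fun a ha b hb v hav hvb => hγ.btw (hsub2 ha) (hsub2 hb) hav hvb)
            s ⟨le_rfl, hs.2.trans huw⟩ w ⟨hs.2.trans huw, le_rfl⟩ u hs.2 huw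
        have : t ∈ closure (Ioc t u) := by
          rw [closure_Ioc (by linarith)]
          exact ⟨le_rfl, htu⟩
        exact hclosed.closure_subset_iff.mpr hsub this
      have hleft : ∀ s ∈ Icc (0 : ℝ) 1, |s - t| < η → ∀ u, s ≤ u → u ≤ t →
          Btw (ψ (γ s)) (ψ (γ u)) (ψ (γ t)) := by
        intro s hs hst u hsu hut
        rcases hut.eq_or_lt with h | hut'
        · rw [← h]; exact btw_right _ _
        have hclosed : IsClosed {w : ℝ | Btw (ψ (γ s)) (ψ (γ u)) (ψ (γ w))} := by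
          unfold Btw
          apply isClosed_eq
          · exact continuous_const.add (continuous_const.dist hψγ)
          · exact continuous_const.dist hψγ
        have hsub : Ico u t ⊆ {w : ℝ | Btw (ψ (γ s)) (ψ (γ u)) (ψ (γ w))} := by
          intro w hw
          have hsub2 : Icc s w ⊆ Icc 0 1 := Icc_subset_Icc hs.1 (by linarith [ht.2, hw.2])
          have hreg2 : ∀ v ∈ Icc s w, γ v ∉ sing := by
            intro v hv
            apply hregu v (hsub2 hv)
            · rw [abs_lt] at hst ⊢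
              constructor <;> linarith [hv.1, hv.2, hw.2]
            · linarith [hv.2, hw.2]
          exact H.reg_path hψ hγc
            (fun a ha b hb hab => hγ.injOn hxy (hsub2 ha) (hsub2 hb) hab) hreg2
            (fun a ha b hb v hav hvb => hγ.btw (hsub2 ha) (hsub2 hb) hav hvb)
            s ⟨le_rfl, hsu.trans hw.1⟩ w ⟨hsu.trans hw.1, le_rfl⟩ u hsu hw.1
        have : t ∈ closure (Ico u t) := by
          rw [closure_Ico (by linarith)]
          exact ⟨hut, le_rfl⟩
        exact hclosed.closure_subset_iff.mpr hsub this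
      refine ⟨η, hη, ?_⟩
      intro s hs w hw hst hwt u hsu huw
      rcases le_total t s with hts' | hst'
      · -- all on the right: t ≤ s
        rcases hts'.eq_or_lt with h | h
        · subst h
          exact hright w hw hwt u hsu huw
        · have hsub2 : Icc s w ⊆ Icc 0 1 := Icc_subset_Icc hs.1 hw.2
          have hreg2 : ∀ v ∈ Icc s w, γ v ∉ sing := by
            intro v hv
            apply hregu v (hsub2 hv)
            · rw [abs_lt] at hwt ⊢
              constructor <;> linarith [hv.1, hv.2]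
            · linarith [hv.1]
          exact H.reg_path hψ hγc
            (fun a ha b hb hab => hγ.injOn hxy (hsub2 ha) (hsub2 hb) hab) hreg2
            (fun a ha b hb v hav hvb => hγ.btw (hsub2 ha) (hsub2 hb) hav hvb)
            s ⟨le_rfl, hsu.trans huw⟩ w ⟨hsu.trans huw, le_rfl⟩ u hsu huw
      · rcases le_total w t with hwt' | htw
        · rcases hwt'.eq_or_lt with h | h
          · subst h
            exact hleft s hs hst u hsu huw
          · have hsub2 : Icc s w ⊆ Icc 0 1 := Icc_subset_Icc hs.1 hw.2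
            have hreg2 : ∀ v ∈ Icc s w, γ v ∉ sing := by
              intro v hv
              apply hregu v (hsub2 hv)
              · rw [abs_lt] at hst ⊢
                constructor <;> linarith [hv.1, hv.2]
              · linarith [hv.2]
            exact H.reg_path hψ hγc
              (fun a ha b hb hab => hγ.injOn hxy (hsub2 ha) (hsub2 hb) hab) hreg2
              (fun a ha b hb v hav hvb => hγ.btw (hsub2 ha) (hsub2 hb) hav hvb)
              s ⟨le_rfl, hsu.trans huw⟩ w ⟨hsu.trans huw, le_rfl⟩ u hsu huw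
        · have hv := h2 (γ s) (γ w)
            (lt_of_lt_of_le (hη' s (by rwa [Real.dist_eq])) (min_le_right _ _))
            (lt_of_lt_of_le (hη' w (by rwa [Real.dist_eq])) (min_le_right _ _))
            (hγ.btw hs hw hst' htw)
          rcases le_total u t with hut | htu
          · exact btw_trans1 (hleft s hs hst u hsu hut) hv
          · exact btw_trans2 (hright w hw hwt u htu huw) hv
    · obtain ⟨ε, hε, h⟩ := hψ.btw (γ t) hts
      obtain ⟨η, hη, hη'⟩ := Metric.continuous_iff.mp hγc t ε hε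
      refine ⟨η, hη, ?_⟩
      intro s hs w hw hst hwt u hsu huw
      have hut : |u - t| < η := by
        rw [abs_lt] at hst hwt ⊢
        constructor <;> linarith
      exact h _ _ _ (hη' s (by rwa [Real.dist_eq])) (hη' u (by rwa [Real.dist_eq]))
        (hη' w (by rwa [Real.dist_eq])) (hγ.btw hs hw hsu huw)

/-- A continuous function which is locally right monotone outside a discrete set of times is
monotone. -/
lemma mono_lemma {F : ℝ → ℝ} (hF : Continuous F) (T : Set ℝ)
    (hT : ∀ t ∈ Icc (0 : ℝ) 1, ∃ η > 0, ∀ s ∈ Ioo t (t + η), s ∈ Icc (0 : ℝ) 1 → s ∉ T)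
    (hreg : ∀ t ∈ Icc (0 : ℝ) 1, t ∉ T → ∃ η > 0, ∀ w ∈ Ioo t (t + η), w ∈ Icc (0 : ℝ) 1 → F t ≤ F w) :
    F 0 ≤ F 1 := by
  have step1 : ∀ a b : ℝ, 0 ≤ a → a ≤ b → b ≤ 1 → (∀ t ∈ Ico a b, t ∉ T) → F a ≤ F b := by
    intro a b ha hab hb hab'
    have hcl : IsClosed ({t | F a ≤ F t} ∩ Icc a b) :=
      (isClosed_le continuous_const hF).inter isClosed_Icc
    refine hcl.mem_of_ge_of_forall_exists_gt (s := {t | F a ≤ F t}) (le_refl (F a)) hab ?_
    rintro t ⟨ht1, ht2⟩
    obtain ⟨η, hη, h⟩ := hreg t ⟨ha.trans ht2.1, ht2.2.le.trans hb⟩ (hab' t ht2)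
    refine ⟨min b (t + η / 2), ?_, ?_, min_le_left _ _⟩
    · refine le_trans (show F a ≤ F t from ht1) ?_
      apply h
      · refine ⟨lt_min ht2.2 (by linarith), lt_of_le_of_lt (min_le_right _ _) (by linarith)⟩
      · exact ⟨le_min (by linarith [ht2.1, ht2.2]) (by linarith [ht2.1]),
          (min_le_left _ _).trans hb⟩
    · exact lt_min ht2.2 (by linarith)
  have hcl : IsClosed ({t | F 0 ≤ F t} ∩ Icc 0 1) :=
    (isClosed_le continuous_const hF).inter isClosed_Icc
  refine hcl.mem_of_ge_of_forall_exists_gt (s := {t | F 0 ≤ F t}) (le_refl (F 0)) zero_le_one ?_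
  rintro t ⟨ht1, ht2⟩
  obtain ⟨η, hη, h⟩ := hT t ⟨ht2.1, ht2.2.le⟩
  set w := min 1 (t + η / 2) with hw
  have htw : t < w := lt_min ht2.2 (by linarith)
  have hw1 : w ≤ 1 := min_le_left _ _
  have hwη : w < t + η := lt_of_le_of_lt (min_le_right _ _) (by linarith)
  refine ⟨w, ?_, htw, hw1⟩
  refine le_trans (show F 0 ≤ F t from ht1) ?_
  have hclosed : IsClosed {u : ℝ | F u ≤ F w} := isClosed_le hF continuous_const
  have hsub : Ioc t w ⊆ {u : ℝ | F u ≤ F w} := by
    intro u hu
    apply step1 u w (by linarith [ht2.1, hu.1]) hu.2 hw1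
    intro v hv
    apply h v ⟨by linarith [hv.1, hu.1], by linarith [hv.2]⟩
    exact ⟨by linarith [ht2.1, hu.1, hv.1], by linarith [hv.2]⟩
  have : t ∈ closure (Ioc t w) := by
    rw [closure_Ioc htw.ne]
    exact ⟨le_rfl, htw.le⟩
  exact hclosed.closure_subset_iff.mpr hsub this

/-- Global expansion from local expansion. -/
theorem NPC.expansion (H : NPC X) {sing : Set X} (hd : Discr sing) {ψ : X ≃ₜ X}
    (hψ : LocAff X sing ψ) (hψ' : LocAff X sing ψ.symm) {μ : ℝ}
    (hexp : ∀ x, x ∉ sing → ∃ ε > 0, ∀ a, dist a x < ε →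
      μ * dist x a ≤ dist (ψ x) (ψ a) + dist (ψ.symm x) (ψ.symm a)) (x y : X) :
    μ * dist x y ≤ dist (ψ x) (ψ y) + dist (ψ.symm x) (ψ.symm y) := by
  by_cases hxy : x = y
  · subst hxy; simp
  set γ := H.geo x y
  have hγ : IsGeod γ x y := H.geo_isGeod x y
  have hγc := hγ.continuous
  have b1 := H.geod_image hd hψ hψ' hγ hxy
  have b2 := H.geod_image hd hψ' (by rwa [Homeomorph.symm_symm]) hγ hxy
  have key := mono_lemma (F := fun t => dist (ψ (γ 0)) (ψ (γ t))
    + dist (ψ.symm (γ 0)) (ψ.symm (γ t)) - μ * (t * dist x y))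
    (by
      have c1 : Continuous (fun t => ψ (γ t)) := ψ.continuous.comp hγc
      have c2 : Continuous (fun t => ψ.symm (γ t)) := ψ.symm.continuous.comp hγc
      fun_prop)
    {t | γ t ∈ sing} ?_ ?_
  · simp only [dist_self, hγ.1, hγ.2.1] at key
    linarith
  · intro t ht
    obtain ⟨ε1, hε1, h1⟩ := hd (γ t)
    obtain ⟨η, hη, hη'⟩ := Metric.continuous_iff.mp hγc t ε1 hε1
    refine ⟨η, hη, fun s hs hs1 hss => ?_⟩
    have h3 := hη' s (by rw [Real.dist_eq, abs_lt]; constructor <;> linarith [hs.1, hs.2])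
    have h4 := h1 _ hss h3
    have := hγ.injOn hxy hs1 ht h4
    linarith [hs.1]
  · intro t ht hts
    obtain ⟨ε, hε, h⟩ := hexp (γ t) hts
    obtain ⟨η, hη, hη'⟩ := Metric.continuous_iff.mp hγc t ε hε
    refine ⟨η, hη, fun w hw hw1 => ?_⟩
    have h3 := h (γ w) (hη' w (by rw [Real.dist_eq, abs_lt]; constructor <;> linarith [hw.1, hw.2]))
    have e1 := b1 0 zero_mem_I w hw1 t ht.1 hw.1.le
    have e2 := b2 0 zero_mem_I w hw1 t ht.1 hw.1.le
    have e3 := hγ.dist_eq ht hw1
    rw [abs_sub_comm, abs_of_pos (by linarith [hw.1] : 0 < w - t)] at e3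
    rw [e3] at h3
    unfold Btw at e1 e2
    linarith

/-- Global Lipschitz bound from local Lipschitz bound. -/
theorem NPC.lipschitz (H : NPC X) {sing : Set X} (hd : Discr sing) {ψ : X ≃ₜ X}
    (hψ : LocAff X sing ψ) (hψ' : LocAff X sing ψ.symm) {ν : ℝ}
    (hexp : ∀ x, x ∉ sing → ∃ ε > 0, ∀ a, dist a x < ε → dist (ψ x) (ψ a) ≤ ν * dist x a)
    (x y : X) : dist (ψ x) (ψ y) ≤ ν * dist x y := by
  by_cases hxy : x = y
  · subst hxy; simp
  set γ := H.geo x y
  have hγ : IsGeod γ x y := H.geo_isGeod x y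
  have hγc := hγ.continuous
  have b1 := H.geod_image hd hψ hψ' hγ hxy
  have key := mono_lemma (F := fun t => ν * (t * dist x y) - dist (ψ (γ 0)) (ψ (γ t)))
    (by
      have c1 : Continuous (fun t => ψ (γ t)) := ψ.continuous.comp hγc
      fun_prop)
    {t | γ t ∈ sing} ?_ ?_
  · simp only [dist_self, hγ.1, hγ.2.1] at key
    linarith
  · intro t ht
    obtain ⟨ε1, hε1, h1⟩ := hd (γ t)
    obtain ⟨η, hη, hη'⟩ := Metric.continuous_iff.mp hγc t ε1 hε1
    refine ⟨η, hη, fun s hs hs1 hss => ?_⟩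
    have h3 := hη' s (by rw [Real.dist_eq, abs_lt]; constructor <;> linarith [hs.1, hs.2])
    have h4 := h1 _ hss h3
    have := hγ.injOn hxy hs1 ht h4
    linarith [hs.1]
  · intro t ht hts
    obtain ⟨ε, hε, h⟩ := hexp (γ t) hts
    obtain ⟨η, hη, hη'⟩ := Metric.continuous_iff.mp hγc t ε hε
    refine ⟨η, hη, fun w hw hw1 => ?_⟩
    have h3 := h (γ w) (hη' w (by rw [Real.dist_eq, abs_lt]; constructor <;> linarith [hw.1, hw.2]))
    have e1 := b1 0 zero_mem_I w hw1 t ht.1 hw.1.le
    have e3 := hγ.dist_eq ht hw1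
    rw [abs_sub_comm, abs_of_pos (by linarith [hw.1] : 0 < w - t)] at e3
    rw [e3] at h3
    unfold Btw at e1
    linarith

end

end Pool.Agent.Lib.MP_af0b91_an
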