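import Pool.Agent.Lib.MP_af0b91_an.ConeCN

set_option autoImplicit false

namespace Pool.Agent.Lib.MP_af0b91_an

open Filter Topology Set

/-- A cone chart. -/
structure CChart (X : Type*) [TopologicalSpace X] where
  κ : ℝ
  one_le : 1 ≤ κ
  z : OpenPartialHomeomorph X ℂ
  ρ : ℝ
  target_eq : z.target = Metric.ball 0 ρ

/-- Distance read in a chart. -/
noncomputable def CChart.cd {X : Type*} [TopologicalSpace X] (c : CChart X) (a b : X) : ℝ :=
  cdist c.κ (c.z a) (c.z b)

/-- An atlas of cone charts. -/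
structure ConeAtlas (X : Type*) [TopologicalSpace X] where
  charts : Set (CChart X)
  cover : ∀ x, ∃ c ∈ charts, x ∈ c.z.source
  compat : ∀ c ∈ charts, ∀ c' ∈ charts, ∀ x, x ∈ c.z.source → x ∈ c'.z.source →
    ∀ᶠ p : X × X in 𝓝 (x, x), c.cd p.1 p.2 = c'.cd p.1 p.2

/-- Chains of links in charts. -/
inductive Reach {X : Type*} [TopologicalSpace X] (A : ConeAtlas X) (x : X) : ℝ → X → Prop
  | refl : Reach A x 0 x
  | step {s : ℝ} {y z : X} (c : CChart X) (hc : c ∈ A.charts) (hy : y ∈ c.z.source)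
      (hz : z ∈ c.z.source) (h : Reach A x s y) : Reach A x (s + c.cd y z) z

/-- The chain distance. -/
noncomputable def fdist {X : Type*} [TopologicalSpace X] (A : ConeAtlas X) (x y : X) : ℝ :=
  sInf {s | Reach A x s y}

section

variable {X : Type*} [TopologicalSpace X]

lemma CChart.cd_nonneg (c : CChart X) (a b : X) : 0 ≤ c.cd a b := cdist_nonneg _ _ _

lemma CChart.cd_comm (c : CChart X) (a b : X) : c.cd a b = c.cd b a := cdist_comm _ _ _

lemma CChart.cd_self (c : CChart X) (a : X) : c.cd a a = 0 := cdist_self c.one_le _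

lemma CChart.cd_triangle (c : CChart X) (a b d : X) : c.cd a d ≤ c.cd a b + c.cd b d :=
  cdist_triangle c.one_le _ _ _

variable {A : ConeAtlas X}

lemma Reach.nonneg {x y : X} {s : ℝ} (h : Reach A x s y) : 0 ≤ s := by
  induction h with
  | refl => exact le_rfl
  | step c hc hy hz h ih => exact add_nonneg ih (c.cd_nonneg _ _)

lemma Reach.trans {x y z : X} {s t : ℝ} (h1 : Reach A x s y) (h2 : Reach A y t z) :
    Reach A x (s + t) z := by
  induction h2 with
  | refl => rw [add_zero]; exact h1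
  | step c hc hy hz h ih =>
    rw [← add_assoc]
    exact Reach.step c hc hy hz ih

lemma Reach.link (c : CChart X) (hc : c ∈ A.charts) {y z : X} (hy : y ∈ c.z.source)
    (hz : z ∈ c.z.source) : Reach A y (c.cd y z) z := by
  have := Reach.step c hc hy hz (Reach.refl (A := A) (x := y))
  rwa [zero_add] at this

lemma Reach.symm {x y : X} {s : ℝ} (h : Reach A x s y) : Reach A y s x := by
  induction h with
  | refl => exact Reach.refl
  | @step s y z c hc hy hz h ih =>
    have := (Reach.link (A := A) c hc hz hy).trans ih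
    rwa [c.cd_comm, add_comm] at this

lemma exists_reach [PreconnectedSpace X] (A : ConeAtlas X) (x y : X) : ∃ s, Reach A x s y := by
  have hclopen : IsClopen {y | ∃ s, Reach A x s y} := by
    constructor
    · rw [← isOpen_compl_iff, isOpen_iff_mem_nhds]
      intro y hy
      obtain ⟨c, hc, hyc⟩ := A.cover y
      filter_upwards [c.z.open_source.mem_nhds hyc] with w hw
      rintro ⟨s, hs⟩
      exact hy ⟨_, hs.trans (Reach.link c hc hw hyc)⟩
    · rw [isOpen_iff_mem_nhds]
      rintro y ⟨s, hs⟩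
      obtain ⟨c, hc, hyc⟩ := A.cover y
      filter_upwards [c.z.open_source.mem_nhds hyc] with w hw
      exact ⟨_, hs.trans (Reach.link c hc hyc hw)⟩
  have huniv := hclopen.eq_univ ⟨x, ⟨0, Reach.refl⟩⟩
  have : y ∈ {y | ∃ s, Reach A x s y} := by rw [huniv]; exact mem_univ _
  exact this

lemma bddBelow_reach (A : ConeAtlas X) (x y : X) : BddBelow {s | Reach A x s y} :=
  ⟨0, fun _ hs => hs.nonneg⟩

lemma fdist_le_of_reach {x y : X} {s : ℝ} (h : Reach A x s y) : fdist A x y ≤ s :=
  csInf_le (bddBelow_reach A x y) h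

lemma fdist_le_cd {c : CChart X} (hc : c ∈ A.charts) {x y : X} (hx : x ∈ c.z.source)
    (hy : y ∈ c.z.source) : fdist A x y ≤ c.cd x y :=
  fdist_le_of_reach (Reach.link c hc hx hy)

variable [PreconnectedSpace X]

lemma fdist_nonneg (A : ConeAtlas X) (x y : X) : 0 ≤ fdist A x y :=
  le_csInf (exists_reach A x y) (fun _ hs => hs.nonneg)

lemma fdist_self (A : ConeAtlas X) (x : X) : fdist A x x = 0 :=
  le_antisymm (fdist_le_of_reach Reach.refl) (fdist_nonneg A x x)

omit [PreconnectedSpace X] in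
lemma fdist_comm (A : ConeAtlas X) (x y : X) : fdist A x y = fdist A y x := by
  unfold fdist
  congr 1
  ext s
  exact ⟨fun h => Reach.symm h, fun h => Reach.symm h⟩

lemma fdist_triangle (A : ConeAtlas X) (x y z : X) : fdist A x z ≤ fdist A x y + fdist A y z := by
  apply le_of_forall_pos_le_add
  intro ε hε
  obtain ⟨s, hs, hs'⟩ := exists_lt_of_csInf_lt (exists_reach A x y)
    (show sInf {s | Reach A x s y} < fdist A x y + ε / 2 by
      have : fdist A x y = sInf {s | Reach A x s y} := rfl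
      linarith)
  obtain ⟨t, ht, ht'⟩ := exists_lt_of_csInf_lt (exists_reach A y z)
    (show sInf {s | Reach A y s z} < fdist A y z + ε / 2 by
      have : fdist A y z = sInf {s | Reach A y s z} := rfl
      linarith)
  have := fdist_le_of_reach (Reach.trans hs ht)
  linarith

omit [PreconnectedSpace X] in
/-- A function which is locally `1`-Lipschitz in a chart is `1`-Lipschitz in it. -/
lemma CChart.bisect (c : CChart X) (f : X → ℝ)
    (hloc : ∀ p ∈ c.z.source, ∀ᶠ q : X × X in 𝓝 (p, p), |f q.1 - f q.2| ≤ c.cd q.1 q.2) :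
    ∀ a ∈ c.z.source, ∀ b ∈ c.z.source, |f a - f b| ≤ c.cd a b := by
  intro a ha b hb
  by_contra hcon
  have hcon' := not_le.mp hcon
  set R0 := max ‖c.z a‖ ‖c.z b‖ with hR0
  have hta : c.z a ∈ Metric.ball (0 : ℂ) c.ρ := by rw [← c.target_eq]; exact c.z.map_source ha
  have htb : c.z b ∈ Metric.ball (0 : ℂ) c.ρ := by rw [← c.target_eq]; exact c.z.map_source hb
  rw [mem_ball_zero_iff] at hta htb
  have hR0ρ : R0 < c.ρ := max_lt hta htb
  have htarget : ∀ u : ℂ, ‖u‖ ≤ R0 → u ∈ c.z.target := by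
    intro u hu
    rw [c.target_eq, mem_ball_zero_iff]
    exact lt_of_le_of_lt hu hR0ρ
  set F : ℂ → ℝ := fun u => f (c.z.symm u) with hF
  set Bad : ℂ × ℂ → Prop := fun p => ‖p.1‖ ≤ R0 ∧ ‖p.2‖ ≤ R0 ∧
    cdist c.κ p.1 p.2 < |F p.1 - F p.2| with hBad
  have hstep : ∀ p : {p : ℂ × ℂ // Bad p}, ∃ p' : {p : ℂ × ℂ // Bad p},
      cdist c.κ p'.1.1 p'.1.2 ≤ cdist c.κ p.1.1 p.1.2 / 2 := by
    rintro ⟨⟨u, v⟩, hu, hv, huv⟩
    simp only at hu hv huv
    obtain ⟨m, hm, hcn⟩ := cone_cn c.one_le u v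
    have hmR : ‖m‖ ≤ R0 := hm.trans (max_le hu hv)
    have d1 : cdist c.κ u m ≤ cdist c.κ u v / 2 := by
      have := hcn u
      rw [csq_self c.one_le, zero_add, ← cdist_sq, ← cdist_sq] at this
      apply le_of_sq_le_sq _ (by have := cdist_nonneg c.κ u v; positivity)
      nlinarith
    have d2 : cdist c.κ m v ≤ cdist c.κ u v / 2 := by
      have := hcn v
      rw [csq_self c.one_le, add_zero, csq_comm c.κ v u, csq_comm c.κ v m, ← cdist_sq,
        ← cdist_sq] at this
      apply le_of_sq_le_sq _ (by have := cdist_nonneg c.κ u v; positivity)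
      nlinarith
    by_cases h1 : |F u - F m| ≤ cdist c.κ u m
    · by_cases h2 : |F m - F v| ≤ cdist c.κ m v
      · exfalso
        have h3 : |F u - F v| ≤ |F u - F m| + |F m - F v| := abs_sub_le _ _ _
        linarith
      · exact ⟨⟨(m, v), hmR, hv, not_le.mp h2⟩, d2⟩
    · exact ⟨⟨(u, m), hu, hmR, not_le.mp h1⟩, d1⟩
  choose nxt hnxt using hstep
  have hinit : Bad (c.z a, c.z b) := by
    refine ⟨le_max_left _ _, le_max_right _ _, ?_⟩
    simp only [hF]
    rw [c.z.left_inv ha, c.z.left_inv hb]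
    exact hcon'
  set seq : ℕ → {p : ℂ × ℂ // Bad p} := fun n => nxt^[n] ⟨_, hinit⟩ with hseq
  have hseqd : ∀ n, cdist c.κ (seq n).1.1 (seq n).1.2 ≤ c.cd a b / 2 ^ n := by
    intro n
    induction n with
    | zero =>
      simp only [hseq, Function.iterate_zero, id, pow_zero, div_one]
      exact le_rfl
    | succ n ih =>
      have h1 : seq (n + 1) = nxt (seq n) := by
        simp only [hseq, Function.iterate_succ_apply']
      rw [h1]
      refine (hnxt _).trans ?_
      rw [pow_succ, ← div_div]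
      linarith
  -- convergence
  obtain ⟨u, huR, φ, hφ, hlim⟩ := (isCompact_closedBall (0 : ℂ) R0).tendsto_subseq
    (x := fun n => (seq n).1.1) (fun n => by
      rw [mem_closedBall_zero_iff]; exact (seq n).2.1)
  rw [mem_closedBall_zero_iff] at huR
  have hut := htarget u huR
  have hd0 : Tendsto (fun n => cdist c.κ (seq (φ n)).1.1 (seq (φ n)).1.2) atTop (𝓝 0) := by
    apply squeeze_zero (fun n => cdist_nonneg _ _ _) (fun n => hseqd (φ n))
    have h1 : Tendsto (fun n : ℕ => c.cd a b / 2 ^ n) atTop (𝓝 0) := by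
      have := (tendsto_pow_atTop_nhds_zero_of_lt_one (r := (1 / 2 : ℝ)) (by norm_num)
        (by norm_num)).const_mul (c.cd a b)
      rw [mul_zero] at this
      refine this.congr (fun n => ?_)
      rw [one_div, inv_pow]; rfl
    exact h1.comp hφ.tendsto_atTop
  have hd1 : Tendsto (fun n => cdist c.κ u (seq (φ n)).1.1) atTop (𝓝 0) := by
    have h1 := ((continuous_cdist_right c.one_le u).tendsto u).comp hlim
    rw [cdist_self c.one_le] at h1
    exact h1
  have hd2 : Tendsto (fun n => cdist c.κ u (seq (φ n)).1.2) atTop (𝓝 0) := by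
    have h2 := hd1.add hd0
    rw [add_zero] at h2
    exact squeeze_zero (fun n => cdist_nonneg _ _ _)
      (fun n => cdist_triangle c.one_le _ _ _) h2
  have hlim2 : Tendsto (fun n => (seq (φ n)).1.2) atTop (𝓝 u) := by
    intro U hU
    obtain ⟨ε, hε, hsub⟩ := exists_cdist_ball_subset c.one_le u hU
    have := hd2.eventually_lt_const hε
    rw [Filter.mem_map]
    filter_upwards [this] with n hn
    exact hsub _ hn
  set p := c.z.symm u with hp
  have hps : p ∈ c.z.source := c.z.map_target hut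
  have hcont : ContinuousAt c.z.symm u := c.z.continuousAt_symm hut
  have hlimp : Tendsto (fun n => (c.z.symm (seq (φ n)).1.1, c.z.symm (seq (φ n)).1.2)) atTop
      (𝓝 (p, p)) := (hcont.tendsto.comp hlim).prodMk_nhds (hcont.tendsto.comp hlim2)
  obtain ⟨n, hn⟩ := (hlimp.eventually (hloc p hps)).exists
  simp only at hn
  have hb1 := (seq (φ n)).2
  have e1 : c.cd (c.z.symm (seq (φ n)).1.1) (c.z.symm (seq (φ n)).1.2)
      = cdist c.κ (seq (φ n)).1.1 (seq (φ n)).1.2 := by
    unfold CChart.cd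
    rw [c.z.right_inv (htarget _ hb1.1), c.z.right_inv (htarget _ hb1.2.1)]
  rw [e1] at hn
  exact absurd hn (not_le.mpr hb1.2.2)

omit [PreconnectedSpace X] in
lemma Reach.lip {f : X → ℝ}
    (hloc : ∀ c ∈ A.charts, ∀ p ∈ c.z.source, ∀ᶠ q : X × X in 𝓝 (p, p),
      |f q.1 - f q.2| ≤ c.cd q.1 q.2) {x y : X} {s : ℝ} (h : Reach A x s y) : |f x - f y| ≤ s := by
  induction h with
  | refl => simp
  | @step s y z c hc hy hz h ih =>
    have := c.bisect f (hloc c hc) y hy z hz
    calc |f x - f z| ≤ |f x - f y| + |f y - f z| := abs_sub_le _ _ _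
      _ ≤ s + c.cd y z := add_le_add ih this

lemma abs_sub_le_fdist {f : X → ℝ}
    (hloc : ∀ c ∈ A.charts, ∀ p ∈ c.z.source, ∀ᶠ q : X × X in 𝓝 (p, p),
      |f q.1 - f q.2| ≤ c.cd q.1 q.2) (x y : X) : |f x - f y| ≤ fdist A x y :=
  le_csInf (exists_reach A x y) (fun _ hs => Reach.lip hloc hs)

/-- Truncated chart distance. -/
noncomputable def trunc (c : CChart X) (a : X) (R : ℝ) (y : X) : ℝ :=
  open Classical in if y ∈ c.z.source then min (c.cd a y) R else R

lemma trunc_le_fdist [T2Space X] {c : CChart X} (hc : c ∈ A.charts) {a : X}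
    (ha : a ∈ c.z.source) {R : ℝ} (hR : 0 < R)
    (hK : {w | cdist c.κ (c.z a) w ≤ R} ⊆ c.z.target) (b : X) :
    trunc c a R b ≤ fdist A a b := by
  classical
  have hloc : ∀ c' ∈ A.charts, ∀ p ∈ c'.z.source, ∀ᶠ q : X × X in 𝓝 (p, p),
      |trunc c a R q.1 - trunc c a R q.2| ≤ c'.cd q.1 q.2 := by
    intro c' hc' p hp
    by_cases hpc : p ∈ c.z.source
    · have h1 := A.compat c hc c' hc' p hpc hp
      have h2 : ∀ᶠ q : X × X in 𝓝 (p, p), q.1 ∈ c.z.source ∧ q.2 ∈ c.z.source := by
        rw [nhds_prod_eq]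
        have hA : ∀ᶠ y in 𝓝 p, y ∈ c.z.source := c.z.open_source.mem_nhds hpc
        exact hA.prod_mk hA
      filter_upwards [h1, h2] with q hq1 hq2
      unfold trunc
      rw [if_pos hq2.1, if_pos hq2.2, ← hq1]
      have h3 : |min (c.cd a q.1) R - min (c.cd a q.2) R| ≤ |c.cd a q.1 - c.cd a q.2| := by
        have := abs_min_sub_min_le_max (c.cd a q.1) R (c.cd a q.2) R
        rwa [sub_self, abs_zero, max_eq_left (abs_nonneg _)] at this
      refine h3.trans ?_
      rw [abs_le]
      have t1 := c.cd_triangle a q.1 q.2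
      have t2 := c.cd_triangle a q.2 q.1
      rw [c.cd_comm q.2 q.1] at t2
      constructor <;> linarith
    · -- far from the compact ball
      set K := c.z.symm '' {w | cdist c.κ (c.z a) w ≤ R} with hKdef
      have hKc : IsCompact K :=
        (isCompact_cdist_closedBall c.one_le (c.z a) R).image_of_continuousOn
          (c.z.continuousOn_symm.mono hK)
      have hpK : p ∉ K := by
        rintro ⟨w, hw, rfl⟩
        exact hpc (c.z.map_target (hK hw))
      have hnhds : Kᶜ ∈ 𝓝 p := hKc.isClosed.isOpen_compl.mem_nhds hpK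
      have hconst : ∀ y ∈ Kᶜ, trunc c a R y = R := by
        intro y hy
        unfold trunc
        split_ifs with h
        · apply min_eq_right
          by_contra hlt
          apply hy
          refine ⟨c.z y, ?_, c.z.left_inv h⟩
          exact (not_le.mp hlt).le
        · rfl
      rw [nhds_prod_eq]
      have hA : ∀ᶠ y in 𝓝 p, y ∈ Kᶜ := hnhds
      have h2 : ∀ᶠ q : X × X in 𝓝 p ×ˢ 𝓝 p, q.1 ∈ Kᶜ ∧ q.2 ∈ Kᶜ := hA.prod_mk hA
      filter_upwards [h2] with q hq
      rw [hconst _ hq.1, hconst _ hq.2, sub_self, abs_zero]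
      exact c'.cd_nonneg _ _
  have h := abs_sub_le_fdist hloc a b
  have h0 : trunc c a R a = 0 := by
    unfold trunc
    rw [if_pos ha, c.cd_self]
    exact min_eq_left hR.le
  rw [h0, zero_sub, abs_neg] at h
  exact (le_abs_self _).trans h

lemma fdist_lt_imp [T2Space X] {c : CChart X} (hc : c ∈ A.charts) {a : X}
    (ha : a ∈ c.z.source) {R : ℝ} (hR : 0 < R)
    (hK : {w | cdist c.κ (c.z a) w ≤ R} ⊆ c.z.target) {b : X} (hb : fdist A a b < R) :
    b ∈ c.z.source ∧ fdist A a b = c.cd a b := by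
  classical
  have h := trunc_le_fdist hc ha hR hK b
  unfold trunc at h
  split_ifs at h with hbs
  · refine ⟨hbs, le_antisymm (fdist_le_cd hc ha hbs) ?_⟩
    rcases min_le_iff.mp h with h1 | h1
    · exact h1
    · linarith
  · linarith

/-- The chain distance is the chart distance locally. -/
lemma fdist_local [T2Space X] {c : CChart X} (hc : c ∈ A.charts) {x : X}
    (hx : x ∈ c.z.source) :
    ∃ R > 0, ∀ a, fdist A x a < R → a ∈ c.z.source ∧ fdist A x a = c.cd x a ∧
      ∀ b, fdist A a b < R → b ∈ c.z.source ∧ fdist A a b = c.cd a b := by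
  obtain ⟨ε, hε, hsub⟩ := exists_cdist_ball_subset c.one_le (c.z x)
    (c.z.open_target.mem_nhds (c.z.map_source hx))
  refine ⟨ε / 3, by positivity, fun a ha => ?_⟩
  have hK1 : {w | cdist c.κ (c.z x) w ≤ ε / 3} ⊆ c.z.target := by
    intro w hw
    apply hsub
    have : cdist c.κ (c.z x) w ≤ ε / 3 := hw
    linarith
  obtain ⟨h1, h2⟩ := fdist_lt_imp hc hx (by positivity) hK1 ha
  refine ⟨h1, h2, fun b hb => ?_⟩
  have hK2 : {w | cdist c.κ (c.z a) w ≤ ε / 3} ⊆ c.z.target := by
    intro w hw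
    apply hsub
    have h3 : cdist c.κ (c.z a) w ≤ ε / 3 := hw
    have h4 := cdist_triangle c.one_le (c.z x) (c.z a) w
    have h5 : cdist c.κ (c.z x) (c.z a) < ε / 3 := by
      rw [h2] at ha; exact ha
    linarith
  exact fdist_lt_imp hc h1 (by positivity) hK2 hb

omit [PreconnectedSpace X] in
lemma fdist_ball_mem_nhds (A : ConeAtlas X) (x : X) {ε : ℝ} (hε : 0 < ε) :
    {y | fdist A x y < ε} ∈ 𝓝 x := by
  obtain ⟨c, hc, hx⟩ := A.cover x
  have h1 : ∀ᶠ y in 𝓝 x, cdist c.κ (c.z x) (c.z y) < ε :=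
    (c.z.continuousAt hx).eventually (cdist_ball_mem_nhds c.one_le (c.z x) hε)
  filter_upwards [h1, c.z.open_source.mem_nhds hx] with y hy1 hy2
  exact lt_of_le_of_lt (fdist_le_cd hc hx hy2) hy1

lemma exists_fdist_ball_subset [T2Space X] (A : ConeAtlas X) (x : X) {U : Set X} (hU : U ∈ 𝓝 x) :
    ∃ ε > 0, ∀ y, fdist A x y < ε → y ∈ U := by
  obtain ⟨c, hc, hx⟩ := A.cover x
  obtain ⟨R, hR, hloc⟩ := fdist_local hc hx
  have h1 : {w | c.z.symm w ∈ U} ∈ 𝓝 (c.z x) := by
    have h2 := c.z.continuousAt_symm (c.z.map_source hx)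
    apply h2
    rwa [c.z.left_inv hx]
  obtain ⟨ε, hε, hsub⟩ := exists_cdist_ball_subset c.one_le (c.z x) h1
  refine ⟨min ε R, lt_min hε hR, fun y hy => ?_⟩
  obtain ⟨h3, h4, -⟩ := hloc y (lt_of_lt_of_le hy (min_le_right _ _))
  have h5 : cdist c.κ (c.z x) (c.z y) < ε := by
    rw [h4] at hy
    exact lt_of_lt_of_le hy (min_le_left _ _)
  have h6 := hsub _ h5
  simp only [mem_ofPred_eq] at h6
  rwa [c.z.left_inv h3] at h6

lemma eq_of_fdist_eq_zero [T2Space X] {x y : X} (h : fdist A x y = 0) : x = y := by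
  by_contra hne
  obtain ⟨ε, hε, hsub⟩ := exists_fdist_ball_subset A x (isOpen_ne.mem_nhds hne)
  exact hsub y (by rw [h]; exact hε) rfl

/-- Local CN inequality. -/
lemma fdist_lcn [T2Space X] (A : ConeAtlas X) (x : X) :
    ∃ R > 0, ∀ a b, fdist A x a < R → fdist A x b < R → ∃ m, ∀ p, fdist A x p < R →
      2 * fdist A p m ^ 2 + fdist A a b ^ 2 / 2 ≤ fdist A p a ^ 2 + fdist A p b ^ 2 := by
  obtain ⟨c, hc, hx⟩ := A.cover x
  obtain ⟨R, hR, hloc⟩ := fdist_local hc hx
  refine ⟨R / 3, by positivity, fun a b ha hb => ?_⟩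
  obtain ⟨has, hxa, haloc⟩ := hloc a (by linarith)
  obtain ⟨hbs, hxb, hbloc⟩ := hloc b (by linarith)
  obtain ⟨m', hm', hcn⟩ := cone_cn c.one_le (c.z a) (c.z b)
  have hta := c.z.map_source has
  have htb := c.z.map_source hbs
  have hm't : m' ∈ c.z.target := by
    rw [c.target_eq, mem_ball_zero_iff] at hta htb ⊢
    exact lt_of_le_of_lt hm' (max_lt hta htb)
  set m := c.z.symm m' with hm
  have hms : m ∈ c.z.source := c.z.map_target hm't
  have hzm : c.z m = m' := c.z.right_inv hm't
  have hcn' : ∀ p, 2 * c.cd p m ^ 2 + c.cd a b ^ 2 / 2 ≤ c.cd p a ^ 2 + c.cd p b ^ 2 := by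
    intro p
    unfold CChart.cd
    rw [hzm, cdist_sq, cdist_sq, cdist_sq, cdist_sq]
    exact hcn (c.z p)
  have hxm : c.cd x m < R / 3 := by
    have h1 := hcn' x
    rw [← hxa, ← hxb] at h1
    have h2 : fdist A x a ^ 2 < (R / 3) ^ 2 :=
      pow_lt_pow_left₀ ha (fdist_nonneg A x a) (by norm_num)
    have h3 : fdist A x b ^ 2 < (R / 3) ^ 2 :=
      pow_lt_pow_left₀ hb (fdist_nonneg A x b) (by norm_num)
    apply lt_of_pow_lt_pow_left₀ 2 (by positivity)
    nlinarith [sq_nonneg (c.cd a b)]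
  have hfxm : fdist A x m < R / 3 := lt_of_le_of_lt (fdist_le_cd hc hx hms) hxm
  refine ⟨m, fun p hp => ?_⟩
  obtain ⟨hps, hxp, hploc⟩ := hloc p (by linarith)
  have e1 : fdist A p m = c.cd p m := (hploc m (by
    have := fdist_triangle A p x m
    rw [fdist_comm A p x] at this
    linarith)).2
  have e2 : fdist A p a = c.cd p a := (hploc a (by
    have := fdist_triangle A p x a
    rw [fdist_comm A p x] at this
    linarith)).2
  have e3 : fdist A p b = c.cd p b := (hploc b (by
    have := fdist_triangle A p x b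
    rw [fdist_comm A p x] at this
    linarith)).2
  have e4 : fdist A a b = c.cd a b := (haloc b (by
    have := fdist_triangle A a x b
    rw [fdist_comm A a x] at this
    linarith)).2
  rw [e1, e2, e3, e4]
  exact hcn' p

/-! ### Chains with small steps -/

/-- Chains with steps at most `δ` for the chain distance. -/
inductive SChain (A : ConeAtlas X) (δ : ℝ) (x : X) : ℝ → X → Prop
  | refl : SChain A δ x 0 x
  | step {s : ℝ} {y z : X} (t : ℝ) (ht : fdist A y z ≤ t) (hδ : fdist A y z ≤ δ)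
      (h : SChain A δ x s y) : SChain A δ x (s + t) z

omit [PreconnectedSpace X] in
lemma SChain.trans {δ : ℝ} {x y z : X} {s t : ℝ} (h1 : SChain A δ x s y) (h2 : SChain A δ y t z) :
    SChain A δ x (s + t) z := by
  induction h2 with
  | refl => rw [add_zero]; exact h1
  | step t ht hδ h ih =>
    rw [← add_assoc]
    exact SChain.step t ht hδ ih

lemma SChain.mono {δ : ℝ} (hδ : 0 ≤ δ) {x y : X} {s s' : ℝ} (hs : s ≤ s') (h : SChain A δ x s y) :
    SChain A δ x s' y := by
  have := SChain.step (A := A) (δ := δ) (s' - s) (y := y) (z := y)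
    (by rw [fdist_self]; linarith) (by rw [fdist_self]; exact hδ) h
  have e : s + (s' - s) = s' := by ring
  rwa [e] at this

lemma schain_link {δ : ℝ} (hδ : 0 < δ) {c : CChart X} (hc : c ∈ A.charts) (k : ℕ) :
    ∀ a ∈ c.z.source, ∀ b ∈ c.z.source, c.cd a b ≤ 2 ^ k * δ → SChain A δ a (c.cd a b) b := by
  induction k with
  | zero =>
    intro a ha b hb hab
    rw [pow_zero, one_mul] at hab
    have h1 := fdist_le_cd hc ha hb
    have := SChain.step (A := A) (δ := δ) (c.cd a b) h1 (h1.trans hab) (SChain.refl (x := a))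
    rwa [zero_add] at this
  | succ k ih =>
    intro a ha b hb hab
    obtain ⟨m', hm', hcn⟩ := cone_cn c.one_le (c.z a) (c.z b)
    have hta := c.z.map_source ha
    have htb := c.z.map_source hb
    have hm't : m' ∈ c.z.target := by
      rw [c.target_eq, mem_ball_zero_iff] at hta htb ⊢
      exact lt_of_le_of_lt hm' (max_lt hta htb)
    set m := c.z.symm m' with hm
    have hms : m ∈ c.z.source := c.z.map_target hm't
    have hzm : c.z m = m' := c.z.right_inv hm't
    have hcn' : ∀ p, 2 * c.cd p m ^ 2 + c.cd a b ^ 2 / 2 ≤ c.cd p a ^ 2 + c.cd p b ^ 2 := by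
      intro p
      unfold CChart.cd
      rw [hzm, cdist_sq, cdist_sq, cdist_sq, cdist_sq]
      exact hcn (c.z p)
    have h0 := c.cd_nonneg a b
    have d1 : c.cd a m ≤ c.cd a b / 2 := by
      have := hcn' a
      rw [c.cd_self] at this
      apply le_of_sq_le_sq _ (by positivity)
      nlinarith
    have d2 : c.cd m b ≤ c.cd a b / 2 := by
      have := hcn' b
      rw [c.cd_self, c.cd_comm b m, c.cd_comm b a] at this
      apply le_of_sq_le_sq _ (by positivity)
      nlinarith
    rw [pow_succ] at hab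
    have s1 := ih a ha m hms (by linarith)
    have s2 := ih m hms b hb (by linarith)
    exact (s1.trans s2).mono hδ.le (by linarith)

lemma Reach.schain {δ : ℝ} (hδ : 0 < δ) {x y : X} {s : ℝ} (h : Reach A x s y) :
    SChain A δ x s y := by
  induction h with
  | refl => exact SChain.refl
  | @step s y z c hc hy hz h ih =>
    obtain ⟨k, hk⟩ := pow_unbounded_of_one_lt (c.cd y z / δ) (one_lt_two)
    have : c.cd y z ≤ 2 ^ k * δ := by
      rw [div_lt_iff₀ hδ] at hk
      exact hk.le
    exact ih.trans (schain_link hδ hc k y hy z hz this)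

omit [PreconnectedSpace X] in
lemma SChain.to_fun {δ : ℝ} {x y : X} {s : ℝ} (h : SChain A δ x s y) :
    ∃ (n : ℕ) (p : ℕ → X), p 0 = x ∧ p n = y ∧ (∀ i < n, fdist A (p i) (p (i + 1)) ≤ δ) ∧
      ∑ i ∈ Finset.range n, fdist A (p i) (p (i + 1)) ≤ s := by
  induction h with
  | refl => exact ⟨0, fun _ => x, rfl, rfl, by simp, by simp⟩
  | @step s y z t ht hδ h ih =>
    obtain ⟨n, p, hp0, hpn, hst, hsum⟩ := ih
    refine ⟨n + 1, fun i => if i ≤ n then p i else z, ?_, ?_, ?_, ?_⟩
    · simp [hp0]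
    · simp
    · intro i hi
      rcases Nat.lt_or_ge i n with hin | hin
      · simp only [hin.le, if_true, Nat.succ_le_of_lt hin]
        exact hst i hin
      · have : i = n := by omega
        subst this
        simp only [le_refl, if_true]
        rw [if_neg (by omega), hpn]
        exact hδ
    · rw [Finset.sum_range_succ]
      have h1 : ∑ i ∈ Finset.range n, fdist A ((fun i => if i ≤ n then p i else z) i)
          ((fun i => if i ≤ n then p i else z) (i + 1))
          = ∑ i ∈ Finset.range n, fdist A (p i) (p (i + 1)) := by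
        apply Finset.sum_congr rfl
        intro i hi
        have hi' := Finset.mem_range.mp hi
        simp only [hi'.le, if_true, Nat.succ_le_of_lt hi']
      rw [h1]
      simp only [le_refl, if_true]
      rw [if_neg (by omega), hpn]
      linarith

lemma fdist_chain (A : ConeAtlas X) (x y : X) {δ : ℝ} (hδ : 0 < δ) :
    ∃ (n : ℕ) (p : ℕ → X), p 0 = x ∧ p n = y ∧ (∀ i < n, fdist A (p i) (p (i + 1)) ≤ δ) ∧
      ∑ i ∈ Finset.range n, fdist A (p i) (p (i + 1)) ≤ fdist A x y + δ := by
  obtain ⟨s, hs, hs'⟩ := exists_lt_of_csInf_lt (exists_reach A x y)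
    (show sInf {s | Reach A x s y} < fdist A x y + δ by
      have : fdist A x y = sInf {s | Reach A x s y} := rfl
      linarith)
  obtain ⟨n, p, h1, h2, h3, h4⟩ := (Reach.schain hδ hs).to_fun
  exact ⟨n, p, h1, h2, h3, h4.trans hs'.le⟩

omit [PreconnectedSpace X] in
/-- Maps pulling back charts to charts do not increase the chain distance of preimages. -/
lemma fdist_invariant {T : X ≃ X}
    (hT : ∀ c ∈ A.charts, ∃ c' ∈ A.charts, ∀ a b, T a ∈ c.z.source → T b ∈ c.z.source →
      a ∈ c'.z.source ∧ b ∈ c'.z.source ∧ c'.cd a b = c.cd (T a) (T b))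
    (hT' : ∀ c ∈ A.charts, ∃ c' ∈ A.charts, ∀ a b, T.symm a ∈ c.z.source → T.symm b ∈ c.z.source →
      a ∈ c'.z.source ∧ b ∈ c'.z.source ∧ c'.cd a b = c.cd (T.symm a) (T.symm b)) (x y : X) :
    fdist A (T x) (T y) = fdist A x y := by
  have h1 : ∀ (S : X ≃ X), (∀ c ∈ A.charts, ∃ c' ∈ A.charts, ∀ a b, S a ∈ c.z.source →
      S b ∈ c.z.source → a ∈ c'.z.source ∧ b ∈ c'.z.source ∧ c'.cd a b = c.cd (S a) (S b)) →
      ∀ u v s, Reach A u s v → Reach A (S.symm u) s (S.symm v) := by
    intro S hS u v s h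
    induction h with
    | refl => exact Reach.refl
    | @step s y z c hc hy hz h ih =>
      obtain ⟨c', hc', hcc⟩ := hS c hc
      obtain ⟨k1, k2, k3⟩ := hcc (S.symm y) (S.symm z) (by rwa [S.apply_symm_apply])
        (by rwa [S.apply_symm_apply])
      rw [S.apply_symm_apply, S.apply_symm_apply] at k3
      rw [← k3]
      exact Reach.step c' hc' k1 k2 ih
  unfold fdist
  congr 1
  ext s
  constructor
  · intro h
    have := h1 T hT _ _ s h
    simpa using this
  · intro h
    have := h1 T.symm hT' _ _ s h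
    simpa using this

end

end Pool.Agent.Lib.MP_af0b91_an
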