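import Mathlib

set_option autoImplicit false

namespace Pool.Agent.Lib.MP_af0b91_an

open Filter Topology

/-! ### Local CN inequality and the Birkhoff midpoint iteration -/

/-- The local inequality of Bruhat and Tits at scale `r`. -/
def LCN (X : Type*) [MetricSpace X] (r : ℝ) : Prop :=
  ∀ a b : X, dist a b < r → ∃ m : X, ∀ p : X, dist p a < r → dist p b < r →
    2 * dist p m ^ 2 + dist a b ^ 2 / 2 ≤ dist p a ^ 2 + dist p b ^ 2

section Mid

variable {X : Type*} [MetricSpace X] {r : ℝ}

/-- The local midpoint. -/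
noncomputable def mid (h : LCN X r) (a b : X) : X :=
  open Classical in if hab : dist a b < r then Classical.choose (h a b hab) else a

lemma mid_spec (h : LCN X r) {a b : X} (hab : dist a b < r) (p : X) (hpa : dist p a < r)
    (hpb : dist p b < r) :
    2 * dist p (mid h a b) ^ 2 + dist a b ^ 2 / 2 ≤ dist p a ^ 2 + dist p b ^ 2 := by
  unfold mid
  rw [dif_pos hab]
  exact Classical.choose_spec (h a b hab) p hpa hpb

lemma dist_mid_left (h : LCN X r) {a b : X} (hab : dist a b < r) :
    dist a (mid h a b) ≤ dist a b / 2 := by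
  have hr : 0 < r := lt_of_le_of_lt dist_nonneg hab
  have h1 := mid_spec h hab a (by rwa [dist_self]) hab
  rw [dist_self] at h1
  apply le_of_sq_le_sq _ (by positivity)
  nlinarith

lemma dist_mid_right (h : LCN X r) {a b : X} (hab : dist a b < r) :
    dist (mid h a b) b ≤ dist a b / 2 := by
  have hr : 0 < r := lt_of_le_of_lt dist_nonneg hab
  have h1 := mid_spec h hab b (by rwa [dist_comm]) (by rwa [dist_self])
  rw [dist_self, dist_comm b a] at h1
  rw [dist_comm]
  apply le_of_sq_le_sq _ (by positivity)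
  nlinarith

lemma eq_mid (h : LCN X r) {a b p : X} (hab : dist a b < r) (hpa : dist p a = dist a b / 2)
    (hpb : dist p b = dist a b / 2) : p = mid h a b := by
  have hr : 0 < r := lt_of_le_of_lt dist_nonneg hab
  have h0 : 0 ≤ dist a b := dist_nonneg
  have h1 := mid_spec h hab p (by rw [hpa]; linarith) (by rw [hpb]; linarith)
  rw [hpa, hpb] at h1
  have h2 : dist p (mid h a b) ^ 2 ≤ 0 := by nlinarith
  have h3 : dist p (mid h a b) = 0 := by
    have := sq_nonneg (dist p (mid h a b))
    have h4 : dist p (mid h a b) ^ 2 = 0 := le_antisymm h2 this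
    exact pow_eq_zero_iff (by norm_num) |>.mp h4
  exact dist_eq_zero.mp h3

lemma mid_comm (h : LCN X r) {a b : X} (hab : dist a b < r) : mid h a b = mid h b a := by
  have h1 := dist_mid_left h hab
  have h2 := dist_mid_right h hab
  have h3 := dist_triangle a (mid h a b) b
  apply eq_mid h (by rwa [dist_comm])
  · rw [dist_comm b a]; linarith
  · rw [dist_comm b a, dist_comm]; linarith

lemma mid_half (h : LCN X r) {x y z : X} (hxy : dist x y < r) (hxz : dist x z < r)
    (hyz : dist y z < r) : dist (mid h x y) (mid h x z) ≤ dist y z / 2 := by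
  have hr : 0 < r := lt_of_le_of_lt dist_nonneg hxy
  set m1 := mid h x y
  set m2 := mid h x z
  have h2 := mid_spec h hxz y (by rwa [dist_comm]) hyz
  rw [dist_comm y x] at h2
  have hm2y : dist m2 y < r := by
    rw [dist_comm]
    apply lt_of_pow_lt_pow_left₀ 2 hr.le
    have h5 : dist x y ^ 2 < r ^ 2 := by
      apply pow_lt_pow_left₀ hxy dist_nonneg (by norm_num)
    have h6 : dist y z ^ 2 < r ^ 2 := by
      apply pow_lt_pow_left₀ hyz dist_nonneg (by norm_num)
    nlinarith [sq_nonneg (dist x z)]
  have hm2x : dist m2 x < r := by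
    have := dist_mid_left h hxz
    rw [dist_comm]
    have h0 : 0 ≤ dist x z := dist_nonneg
    linarith
  have h1 := mid_spec h hxy m2 hm2x hm2y
  have h3 : dist m2 x ≤ dist x z / 2 := by rw [dist_comm]; exact dist_mid_left h hxz
  have h4 : dist m2 x ^ 2 ≤ (dist x z / 2) ^ 2 := pow_le_pow_left₀ dist_nonneg h3 2
  rw [dist_comm m1 m2]
  rw [dist_comm y m2] at h2
  apply le_of_sq_le_sq _ (by positivity)
  nlinarith

lemma mid_nonexp (h : LCN X r) {a b a' b' : X} (hab : dist a b < r) (hab' : dist a b' < r)
    (ha'b' : dist a' b' < r) (haa' : dist a a' < r) (hbb' : dist b b' < r) :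
    dist (mid h a b) (mid h a' b') ≤ (dist a a' + dist b b') / 2 := by
  have h1 := mid_half h hab hab' hbb'
  have h2 : dist (mid h a b') (mid h a' b') ≤ dist a a' / 2 := by
    rw [mid_comm h hab', mid_comm h ha'b']
    exact mid_half h (by rwa [dist_comm]) (by rwa [dist_comm]) haa'
  calc dist (mid h a b) (mid h a' b')
      ≤ dist (mid h a b) (mid h a b') + dist (mid h a b') (mid h a' b') := dist_triangle _ _ _
    _ ≤ (dist a a' + dist b b') / 2 := by linarith

/-- One step of the midpoint process on a string with `N` steps. -/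
noncomputable def bstep (h : LCN X r) (N : ℕ) (R : ℕ → X) : ℕ → X := fun i =>
  if 0 < i ∧ i < N then mid h (R (i - 1)) (R (i + 1)) else R i

lemma bstep_of_mem (h : LCN X r) {N : ℕ} (R : ℕ → X) {i : ℕ} (h0 : 0 < i) (hN : i < N) :
    bstep h N R i = mid h (R (i - 1)) (R (i + 1)) := by
  unfold bstep; rw [if_pos ⟨h0, hN⟩]

lemma bstep_of_not_mem (h : LCN X r) {N : ℕ} (R : ℕ → X) {i : ℕ} (h0 : ¬ (0 < i ∧ i < N)) :
    bstep h N R i = R i := by
  unfold bstep; rw [if_neg h0]

lemma bstep_hstep (h : LCN X r) {N : ℕ} {ε : ℝ} (hε0 : 0 ≤ ε) (hε : 3 * ε < r) (R : ℕ → X)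
    (hR : ∀ i < N, dist (R i) (R (i + 1)) ≤ ε) :
    ∀ i < N, dist (bstep h N R i) (bstep h N R (i + 1)) ≤ ε := by
  intro i hi
  have two : ∀ j, j + 1 < N → dist (R j) (R (j + 2)) ≤ 2 * ε := by
    intro j hj
    calc dist (R j) (R (j + 2)) ≤ dist (R j) (R (j + 1)) + dist (R (j + 1)) (R (j + 2)) :=
          dist_triangle _ _ _
      _ ≤ 2 * ε := by
        have := hR j (by omega)
        have := hR (j + 1) hj
        linarith
  by_cases hi0 : i = 0
  · subst hi0
    rw [bstep_of_not_mem h R (by omega)]
    by_cases hN : 1 < N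
    · rw [bstep_of_mem h R (by omega) (by omega)]
      have h2 := two 0 (by omega)
      have h3 := dist_mid_left h (a := R 0) (b := R 2) (by simp only [Nat.zero_add] at h2; linarith)
      simp only [Nat.zero_add] at h2 ⊢
      show dist (R 0) (mid h (R (1 - 1)) (R (1 + 1))) ≤ ε
      simp only [Nat.sub_self]
      norm_num at h3 ⊢
      linarith
    · rw [bstep_of_not_mem h R (by omega)]
      exact hR 0 hi
  · by_cases hiN : i + 1 = N
    · rw [bstep_of_mem h R (by omega) hi, bstep_of_not_mem h R (by omega)]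
      obtain ⟨k, rfl⟩ : ∃ k, i = k + 1 := ⟨i - 1, by omega⟩
      have h2 := two k (by omega)
      simp only [Nat.add_sub_cancel]
      have h3 := dist_mid_right h (a := R k) (b := R (k + 2)) (by linarith)
      show dist (mid h (R k) (R (k + 2))) (R (k + 2)) ≤ ε
      linarith
    · rw [bstep_of_mem h R (by omega) hi, bstep_of_mem h R (by omega) (by omega)]
      obtain ⟨k, rfl⟩ : ∃ k, i = k + 1 := ⟨i - 1, by omega⟩
      show dist (mid h (R k) (R (k + 2))) (mid h (R (k + 1)) (R (k + 3))) ≤ ε
      have h2 := two k (by omega)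
      have h3 := two (k + 1) (by omega)
      have h4 := hR k (by omega)
      have h5 := hR (k + 2) (by omega)
      have h6 : dist (R k) (R (k + 3)) ≤ 3 * ε := by
        calc dist (R k) (R (k + 3)) ≤ dist (R k) (R (k + 2)) + dist (R (k + 2)) (R (k + 3)) :=
              dist_triangle _ _ _
          _ ≤ 3 * ε := by linarith
      have h7 := mid_nonexp h (a := R k) (b := R (k + 2)) (a' := R (k + 1)) (b' := R (k + 3))
        (by linarith) (by linarith) (by linarith) (by linarith) (by linarith)
      linarith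

lemma bstep_vstep (h : LCN X r) {N : ℕ} {ε : ℝ} (hε : 3 * ε < r) (R R' : ℕ → X)
    (hR : ∀ i < N, dist (R i) (R (i + 1)) ≤ ε)
    (hR' : ∀ i < N, dist (R' i) (R' (i + 1)) ≤ ε)
    (hRR' : ∀ i ≤ N, dist (R i) (R' i) ≤ ε) (i : ℕ) (h0 : 0 < i) (hi : i < N) :
    dist (bstep h N R i) (bstep h N R' i)
      ≤ (dist (R (i - 1)) (R' (i - 1)) + dist (R (i + 1)) (R' (i + 1))) / 2 := by
  rw [bstep_of_mem h R h0 hi, bstep_of_mem h R' h0 hi]
  obtain ⟨k, rfl⟩ : ∃ k, i = k + 1 := ⟨i - 1, by omega⟩
  simp only [Nat.add_sub_cancel]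
  have a1 := hR k (by omega)
  have a2 := hR (k + 1) (by omega)
  have a3 := hR' k (by omega)
  have a4 := hR' (k + 1) (by omega)
  have a5 := hRR' k (by omega)
  have a6 := hRR' (k + 1 + 1) (by omega)
  have b1 : dist (R k) (R (k + 1 + 1)) ≤ 2 * ε := by
    linarith [dist_triangle (R k) (R (k + 1)) (R (k + 1 + 1))]
  have b2 : dist (R' k) (R' (k + 1 + 1)) ≤ 2 * ε := by
    linarith [dist_triangle (R' k) (R' (k + 1)) (R' (k + 1 + 1))]
  have b3 : dist (R k) (R' (k + 1 + 1)) ≤ 3 * ε := by
    linarith [dist_triangle (R k) (R (k + 1 + 1)) (R' (k + 1 + 1))]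
  have hε0 : 0 ≤ ε := dist_nonneg.trans a1
  exact mid_nonexp h (by linarith) (by linarith) (by linarith) (by linarith) (by linarith)

lemma bstep_vstep_le (h : LCN X r) {N : ℕ} {ε : ℝ} (hε : 3 * ε < r) (R R' : ℕ → X)
    (hR : ∀ i < N, dist (R i) (R (i + 1)) ≤ ε)
    (hR' : ∀ i < N, dist (R' i) (R' (i + 1)) ≤ ε)
    (hRR' : ∀ i ≤ N, dist (R i) (R' i) ≤ ε) :
    ∀ i ≤ N, dist (bstep h N R i) (bstep h N R' i) ≤ ε := by
  intro i hi
  by_cases hc : 0 < i ∧ i < N
  · have := bstep_vstep h hε R R' hR hR' hRR' i hc.1 hc.2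
    have h1 := hRR' (i - 1) (by omega)
    have h2 := hRR' (i + 1) (by omega)
    linarith
  · rw [bstep_of_not_mem h R hc, bstep_of_not_mem h R' hc]
    exact hRR' i hi

/-- The convexity estimate obtained by iterating the midpoint process on a grid. -/
theorem grid_convex (h : LCN X r) {N J : ℕ} (hN : 0 < N) {ε : ℝ} (hε0 : 0 ≤ ε) (hε : 3 * ε < r)
    (R : ℕ → ℕ → X)
    (hH : ∀ j ≤ J, ∀ i < N, dist (R j i) (R j (i + 1)) ≤ ε)
    (hV : ∀ j < J, ∀ i ≤ N, dist (R j i) (R (j + 1) i) ≤ ε)
    (hfix0 : bstep h N (R 0) = R 0) (hfixJ : bstep h N (R J) = R J)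
    {A B : ℝ} (hA : ∑ j ∈ Finset.range J, dist (R j 0) (R (j + 1) 0) ≤ A)
    (hB : ∑ j ∈ Finset.range J, dist (R j N) (R (j + 1) N) ≤ B) (i : ℕ) (hi : i ≤ N) :
    dist (R 0 i) (R J i) ≤ (1 - (i : ℝ) / N) * A + (i : ℝ) / N * B := by
  -- iterated grid
  set G : ℕ → ℕ → ℕ → X := fun n j => (bstep h N)^[n] (R j) with hG
  have hGsucc : ∀ n j, G (n + 1) j = bstep h N (G n j) := by
    intro n j
    simp only [hG, Function.iterate_succ_apply']
  have hG0 : ∀ j, G 0 j = R j := fun j => rfl
  have hGH : ∀ n, ∀ j ≤ J, ∀ i < N, dist (G n j i) (G n j (i + 1)) ≤ ε := by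
    intro n
    induction n with
    | zero => exact hH
    | succ n ih =>
      intro j hj i hi
      rw [hGsucc]
      exact bstep_hstep h hε0 hε _ (ih j hj) i hi
  have hGV : ∀ n, ∀ j < J, ∀ i ≤ N, dist (G n j i) (G n (j + 1) i) ≤ ε := by
    intro n
    induction n with
    | zero => exact hV
    | succ n ih =>
      intro j hj i hi
      rw [hGsucc, hGsucc]
      exact bstep_vstep_le h hε _ _ (hGH n j hj.le) (hGH n (j + 1) hj) (ih j hj) i hi
  have hGfix0 : ∀ n, G n 0 = R 0 := by
    intro n
    induction n with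
    | zero => rfl
    | succ n ih => rw [hGsucc, ih, hfix0]
  have hGfixJ : ∀ n, G n J = R J := by
    intro n
    induction n with
    | zero => rfl
    | succ n ih => rw [hGsucc, ih, hfixJ]
  set ℓ : ℕ → ℕ → ℝ := fun n i => ∑ j ∈ Finset.range J, dist (G n j i) (G n (j + 1) i) with hℓ
  have hℓnn : ∀ n i, 0 ≤ ℓ n i := fun n i => Finset.sum_nonneg (fun j _ => dist_nonneg)
  have hℓstep : ∀ n i, 0 < i → i < N → ℓ (n + 1) i ≤ (ℓ n (i - 1) + ℓ n (i + 1)) / 2 := by
    intro n i h0 hi
    simp only [hℓ]
    rw [← Finset.sum_add_distrib, Finset.sum_div]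
    apply Finset.sum_le_sum
    intro j hj
    have hj' := Finset.mem_range.mp hj
    rw [hGsucc, hGsucc]
    exact bstep_vstep h hε _ _ (hGH n j hj'.le) (hGH n (j + 1) hj') (hGV n j hj') i h0 hi
  have hℓ0 : ∀ n, ℓ n 0 ≤ A := by
    intro n
    have : ℓ n 0 = ∑ j ∈ Finset.range J, dist (R j 0) (R (j + 1) 0) := by
      simp only [hℓ]
      apply Finset.sum_congr rfl
      intro j _
      have : ∀ m j, G m j 0 = R j 0 := by
        intro m j
        induction m with
        | zero => rfl
        | succ m ih => rw [hGsucc, bstep_of_not_mem h _ (by omega), ih]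
      rw [this, this]
    rw [this]; exact hA
  have hℓN : ∀ n, ℓ n N ≤ B := by
    intro n
    have : ℓ n N = ∑ j ∈ Finset.range J, dist (R j N) (R (j + 1) N) := by
      simp only [hℓ]
      apply Finset.sum_congr rfl
      intro j _
      have : ∀ m j, G m j N = R j N := by
        intro m j
        induction m with
        | zero => rfl
        | succ m ih => rw [hGsucc, bstep_of_not_mem h _ (by omega), ih]
      rw [this, this]
    rw [this]; exact hB
  have hNr : (0 : ℝ) < N := by exact_mod_cast hN
  set lin : ℕ → ℝ := fun i => (1 - (i : ℝ) / N) * A + (i : ℝ) / N * B with hlin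
  set w : ℕ → ℝ := fun i => (i : ℝ) * (N - i) with hw
  set q : ℝ := 1 - 4 / (N : ℝ) ^ 2 with hq
  -- an initial constant
  have hAnn : 0 ≤ A := (hℓnn 0 0).trans (hℓ0 0)
  have hBnn : 0 ≤ B := (hℓnn 0 N).trans (hℓN 0)
  obtain ⟨M, hM0, hM⟩ : ∃ M : ℝ, 0 ≤ M ∧ ∀ i ≤ N, ℓ 0 i ≤ M := by
    refine ⟨∑ i ∈ Finset.range (N + 1), ℓ 0 i, Finset.sum_nonneg (fun i _ => hℓnn 0 i), ?_⟩
    intro i hi
    exact Finset.single_le_sum (f := fun i => ℓ 0 i) (fun i _ => hℓnn 0 i)
      (Finset.mem_range.mpr (by omega))
  have hlinnn : ∀ i ≤ N, 0 ≤ lin i := by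
    intro i hi
    simp only [hlin]
    have : (i : ℝ) / N ≤ 1 := by
      rw [div_le_one hNr]; exact_mod_cast hi
    have h1 : 0 ≤ 1 - (i : ℝ) / N := by linarith
    positivity
  have hmain : ∀ n, ∀ i ≤ N, ℓ n i ≤ lin i + M * q ^ n * w i := by
    intro n
    induction n with
    | zero =>
      intro i hi
      rcases Nat.eq_zero_or_pos i with h0 | h0
      · subst h0
        have := hℓ0 0
        simp only [hlin, hw]
        simpa using this
      · rcases Nat.lt_or_ge i N with hiN | hiN
        · have h1 : 1 ≤ w i := by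
            simp only [hw]
            have h2 : (1 : ℝ) ≤ i := by exact_mod_cast h0
            have h3 : (1 : ℝ) ≤ N - i := by
              have : (i : ℝ) + 1 ≤ N := by exact_mod_cast hiN
              linarith
            nlinarith
          have := hM i hi
          have := hlinnn i hi
          simp only [pow_zero, mul_one]
          nlinarith
        · have hiN' : i = N := le_antisymm hi hiN
          subst hiN'
          have := hℓN 0
          simp only [hlin, hw]
          rw [div_self hNr.ne']
          simpa using this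
    | succ n ih =>
      intro i hi
      rcases Nat.eq_zero_or_pos i with h0 | h0
      · subst h0
        have := hℓ0 (n + 1)
        simp only [hlin, hw]
        simpa using this
      · rcases Nat.lt_or_ge i N with hiN | hiN
        · have h1 := hℓstep n i h0 hiN
          have h2 := ih (i - 1) (by omega)
          have h3 := ih (i + 1) (by omega)
          have hcast : ((i - 1 : ℕ) : ℝ) = (i : ℝ) - 1 := by
            rw [Nat.cast_sub (by omega)]; simp
          have h4 : (lin (i - 1) + lin (i + 1)) / 2 = lin i := by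
            simp only [hlin]
            rw [hcast]
            push_cast
            field_simp
            ring
          have h5 : (w (i - 1) + w (i + 1)) / 2 = w i - 1 := by
            simp only [hw]
            rw [hcast]
            push_cast
            ring
          have h6 : w i - 1 ≤ q * w i := by
            have h7 : w i ≤ (N : ℝ) ^ 2 / 4 := by
              simp only [hw]
              nlinarith [sq_nonneg ((i : ℝ) * 2 - N)]
            have h8 : 4 / (N : ℝ) ^ 2 * w i ≤ 1 := by
              calc 4 / (N : ℝ) ^ 2 * w i ≤ 4 / (N : ℝ) ^ 2 * ((N : ℝ) ^ 2 / 4) := by gcongr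
                _ = 1 := by field_simp
            rw [hq]
            nlinarith
          have hqn : 0 ≤ M * q ^ n := by
            rcases Nat.lt_or_ge 1 N with hN1 | hN1
            · have : 0 ≤ q := by
                rw [hq]
                have h9 : (4 : ℝ) ≤ (N : ℝ) ^ 2 := by
                  have : (2 : ℝ) ≤ N := by exact_mod_cast hN1
                  nlinarith
                have : 4 / (N : ℝ) ^ 2 ≤ 1 := by
                  rw [div_le_one (by positivity)]; exact h9
                linarith
              positivity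
            · omega
          calc ℓ (n + 1) i ≤ (ℓ n (i - 1) + ℓ n (i + 1)) / 2 := h1
            _ ≤ (lin (i - 1) + lin (i + 1)) / 2 + M * q ^ n * ((w (i - 1) + w (i + 1)) / 2) := by
              linarith
            _ = lin i + M * q ^ n * (w i - 1) := by rw [h4, h5]
            _ ≤ lin i + M * q ^ n * (q * w i) := by
              have := mul_le_mul_of_nonneg_left h6 hqn
              linarith
            _ = lin i + M * q ^ (n + 1) * w i := by rw [pow_succ]; ring
        · have hiN' : i = N := le_antisymm hi hiN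
          subst hiN'
          have := hℓN (n + 1)
          simp only [hlin, hw]
          rw [div_self hNr.ne']
          simpa using this
  have hdist : ∀ n, dist (R 0 i) (R J i) ≤ lin i + M * q ^ n * w i := by
    intro n
    refine le_trans ?_ (hmain n i hi)
    have h1 := dist_le_range_sum_dist (fun j => G n j i) J
    rw [hGfix0, hGfixJ] at h1
    exact h1
  rcases Nat.lt_or_ge 1 N with hN1 | hN1
  · have hlim : Tendsto (fun n : ℕ => lin i + M * q ^ n * w i) atTop (𝓝 (lin i + M * 0 * w i)) := by
      apply Tendsto.const_add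
      apply Tendsto.mul_const
      apply Tendsto.const_mul
      apply tendsto_pow_atTop_nhds_zero_of_lt_one
      · rw [hq]
        have h9 : (4 : ℝ) ≤ (N : ℝ) ^ 2 := by
          have : (2 : ℝ) ≤ N := by exact_mod_cast hN1
          nlinarith
        have : 4 / (N : ℝ) ^ 2 ≤ 1 := by
          rw [div_le_one (by positivity)]; exact h9
        linarith
      · rw [hq]
        have : 0 < 4 / (N : ℝ) ^ 2 := by positivity
        linarith
    have := ge_of_tendsto' hlim hdist
    simpa using this
  · have hN1' : N = 1 := by omega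
    have hw0 : w i = 0 := by
      have : i = 0 ∨ i = 1 := by omega
      simp only [hw]
      rcases this with h0 | h0
      · rw [h0]; simp
      · rw [h0, hN1']; simp
    have := hdist 0
    rw [hw0] at this
    simpa using this

end Mid

end Pool.Agent.Lib.MP_af0b91_an
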