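import Pool.Agent.Lib.MP_af0b91_an.Atlas
import Pool.Agent.Lib.MP_af0b91_an.Affine

set_option autoImplicit false

namespace Pool.Agent.Lib.MP_af0b91_an

open Filter Topology Set

section

variable {X : Type*} [TopologicalSpace X] [T2Space X] [PreconnectedSpace X]

/-- The chain distance as a metric inducing the given topology. -/
noncomputable def flatMetric (A : ConeAtlas X) : MetricSpace X :=
  MetricSpace.ofDistTopology (fdist A) (fdist_self A) (fdist_comm A) (fdist_triangle A)
    (by
      intro s
      rw [isOpen_iff_mem_nhds]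
      constructor
      · intro h x hx
        obtain ⟨ε, hε, hsub⟩ := exists_fdist_ball_subset A x (h x hx)
        exact ⟨ε, hε, hsub⟩
      · intro h x hx
        obtain ⟨ε, hε, hsub⟩ := h x hx
        filter_upwards [fdist_ball_mem_nhds A x hε] with y hy
        exact hsub y hy)
    (fun _ _ h => eq_of_fdist_eq_zero h)

/-- Cocompactness of the symmetries. -/
structure Cocpt (A : ConeAtlas X) (K0 : Set X) : Prop where
  compact : IsCompact K0
  move : ∀ x, ∃ T : X ≃ₜ X, T x ∈ K0 ∧ ∀ a b, fdist A (T a) (T b) = fdist A a b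

lemma isClosed_fdist_ball (A : ConeAtlas X) (x : X) (R : ℝ) : IsClosed {y | fdist A x y ≤ R} := by
  letI := flatMetric A
  have : {y | fdist A x y ≤ R} = Metric.closedBall x R := by
    ext y
    rw [Metric.mem_closedBall, dist_comm]
    rfl
  rw [this]
  exact Metric.isClosed_closedBall

lemma local_compact_ball (A : ConeAtlas X) (x : X) : ∃ R > 0, IsCompact {y | fdist A x y ≤ R} := by
  obtain ⟨c, hc, hx⟩ := A.cover x
  obtain ⟨ε, hε, hsub⟩ := exists_cdist_ball_subset c.one_le (c.z x)
    (c.z.open_target.mem_nhds (c.z.map_source hx))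
  obtain ⟨R, hR, hloc⟩ := fdist_local hc hx
  refine ⟨min (R / 2) (ε / 2), by positivity, ?_⟩
  have hK : IsCompact {w | cdist c.κ (c.z x) w ≤ ε / 2} := isCompact_cdist_closedBall c.one_le _ _
  have hKt : {w | cdist c.κ (c.z x) w ≤ ε / 2} ⊆ c.z.target := by
    intro w hw
    apply hsub
    have : cdist c.κ (c.z x) w ≤ ε / 2 := hw
    linarith
  have hK' := hK.image_of_continuousOn (c.z.continuousOn_symm.mono hKt)
  refine hK'.of_isClosed_subset (isClosed_fdist_ball A x _) ?_
  intro y hy
  have hy' : fdist A x y ≤ min (R / 2) (ε / 2) := hy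
  obtain ⟨h1, h2, -⟩ := hloc y (by
    have := min_le_left (R / 2) (ε / 2)
    linarith)
  refine ⟨c.z y, ?_, c.z.left_inv h1⟩
  show cdist c.κ (c.z x) (c.z y) ≤ ε / 2
  have h3 : fdist A x y = cdist c.κ (c.z x) (c.z y) := h2
  rw [← h3]
  exact hy'.trans (min_le_right _ _)

/-- A uniformization principle: a family of radii on a compact set. -/
lemma uniform_radius (A : ConeAtlas X) {K0 : Set X} (hK : IsCompact K0) (P : X → ℝ → Prop)
    (hmono : ∀ x R R', R' ≤ R → P x R → P x R')
    (hshift : ∀ x y R, fdist A x y < R / 2 → P x R → P y (R / 2))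
    (hP : ∀ x, ∃ R > 0, P x R) : ∃ r > 0, ∀ x ∈ K0, P x r := by
  choose R hR hPR using hP

  obtain ⟨t, ht⟩ := hK.elim_nhds_subcover (fun x => {y | fdist A x y < R x / 2})
    (fun x _ => fdist_ball_mem_nhds A x (by have := hR x; positivity))
  rcases t.eq_empty_or_nonempty with he | hne
  · refine ⟨1, one_pos, fun x hx => ?_⟩
    have := ht.2 hx
    rw [he] at this
    simp at this
  · refine ⟨t.inf' hne (fun x => R x / 2), ?_, ?_⟩
    · rw [gt_iff_lt, Finset.lt_inf'_iff]
      intro x _
      have := hR x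
      positivity
    · intro y hy
      have := ht.2 hy
      simp only [mem_iUnion, exists_prop] at this
      obtain ⟨x, hx, hxy⟩ := this
      have hxy' : fdist A x y < R x / 2 := hxy
      exact hmono y _ _ (Finset.inf'_le _ hx) (hshift x y (R x) hxy' (hPR x))

lemma Cocpt.uniform_compact {A : ConeAtlas X} {K0 : Set X} (h : Cocpt A K0) :
    ∃ r > 0, ∀ x, IsCompact {y | fdist A x y ≤ r} := by
  obtain ⟨r, hr, hK⟩ := uniform_radius A h.compact (fun x R => IsCompact {y | fdist A x y ≤ R})
    (fun x R R' hRR' hc => hc.of_isClosed_subset (isClosed_fdist_ball A x R')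
      (fun y hy => le_trans (show fdist A x y ≤ R' from hy) hRR'))
    (fun x y R hxy hc => hc.of_isClosed_subset (isClosed_fdist_ball A y (R / 2)) (by
      intro w hw
      have h1 : fdist A y w ≤ R / 2 := hw
      have h2 := fdist_triangle A x y w
      show fdist A x w ≤ R
      linarith))
    (local_compact_ball A)
  refine ⟨r, hr, fun x => ?_⟩
  obtain ⟨T, hT, hTd⟩ := h.move x
  have h1 := hK (T x) hT
  have h2 : {y | fdist A x y ≤ r} = T ⁻¹' {y | fdist A (T x) y ≤ r} := by
    ext y
    simp only [mem_preimage, mem_ofPred_eq, hTd]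
  rw [h2]
  exact T.isCompact_preimage.mpr h1

/-- Closed balls of the chain metric are compact. -/
theorem Cocpt.isCompact_ball {A : ConeAtlas X} {K0 : Set X} (h : Cocpt A K0) (x : X) (R : ℝ) :
    IsCompact {y | fdist A x y ≤ R} := by
  obtain ⟨r, hr, hc⟩ := h.uniform_compact
  have hind : ∀ n : ℕ, IsCompact {y | fdist A x y ≤ n * (r / 2)} := by
    intro n
    induction n with
    | zero =>
      refine (hc x).of_isClosed_subset (isClosed_fdist_ball A x _) (fun y hy => ?_)
      have h1 : fdist A x y ≤ (0 : ℕ) * (r / 2) := hy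
      show fdist A x y ≤ r
      simp at h1
      linarith
    | succ n ih =>
      obtain ⟨t, ht, hcov⟩ := ih.elim_nhds_subcover (fun z => {y | fdist A z y < r / 4})
        (fun z _ => fdist_ball_mem_nhds A z (by positivity))
      have hK : IsCompact (⋃ z ∈ t, {y | fdist A z y ≤ r}) :=
        t.isCompact_biUnion (fun z _ => hc z)
      refine hK.of_isClosed_subset (isClosed_fdist_ball A x _) (fun y hy => ?_)
      have hy' : fdist A x y ≤ ((n + 1 : ℕ) : ℝ) * (r / 2) := hy
      push_cast at hy'
      -- find a point z with fdist x z ≤ n r/2 and fdist z y ≤ 3r/4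
      have hz : ∃ z, fdist A x z ≤ n * (r / 2) ∧ fdist A z y ≤ 3 * r / 4 := by
        obtain ⟨m, p, hp0, hpm, hst, hsum⟩ := fdist_chain A x y (δ := r / 8) (by positivity)
        set S : ℕ → ℝ := fun i => ∑ j ∈ Finset.range i, fdist A (p j) (p (j + 1)) with hS
        have hS0 : S 0 = 0 := by simp [hS]
        have hSs : ∀ i, S (i + 1) = S i + fdist A (p i) (p (i + 1)) := fun i => by
          simp only [hS, Finset.sum_range_succ]
        classical
        set i := Nat.findGreatest (fun i => S i ≤ n * (r / 2)) m with hi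
        have hi1 : S i ≤ n * (r / 2) := by
          apply Nat.findGreatest_spec (P := fun i => S i ≤ n * (r / 2)) (Nat.zero_le m)
          rw [hS0]; positivity
        have him : i ≤ m := Nat.findGreatest_le _
        have hxS : ∀ j, fdist A x (p j) ≤ S j := by
          intro j
          induction j with
          | zero => rw [hp0, fdist_self, hS0]
          | succ j ihj =>
            rw [hSs]
            have := fdist_triangle A x (p j) (p (j + 1))
            linarith
        have hSy : ∀ j, j ≤ m → fdist A (p j) y ≤ S m - S j := by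
          intro j hj
          obtain ⟨k, rfl⟩ := Nat.exists_eq_add_of_le hj
          clear hj hi1 him hst hsum hi
          have : ∀ k, fdist A (p j) (p (j + k)) ≤ S (j + k) - S j := by
            intro k
            induction k with
            | zero => rw [add_zero, fdist_self]; linarith
            | succ k ihk =>
              rw [← add_assoc, hSs]
              have := fdist_triangle A (p j) (p (j + k)) (p (j + k + 1))
              linarith
          rw [← hpm]
          exact this k
        refine ⟨p i, (hxS i).trans hi1, ?_⟩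
        rcases him.eq_or_lt with heq | hlt
        · rw [heq, hpm, fdist_self]; positivity
        · have h2 : ¬ S (i + 1) ≤ n * (r / 2) :=
            Nat.findGreatest_is_greatest (P := fun i => S i ≤ n * (r / 2)) (n := m)
              (Nat.lt_succ_self _) hlt
          rw [hSs] at h2
          have h3 := hst i hlt
          have h4 := hSy i him
          have h5 : S m ≤ fdist A x y + r / 8 := hsum
          linarith [not_le.mp h2]
      obtain ⟨z, hz1, hz2⟩ := hz
      have := hcov (show z ∈ {y | fdist A x y ≤ n * (r / 2)} from hz1)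
      simp only [mem_iUnion, exists_prop] at this
      obtain ⟨w, hw, hwz⟩ := this
      have hwz' : fdist A w z < r / 4 := hwz
      simp only [mem_iUnion, exists_prop]
      refine ⟨w, hw, ?_⟩
      show fdist A w y ≤ r
      have := fdist_triangle A w z y
      linarith
  obtain ⟨n, hn⟩ := exists_nat_ge (R / (r / 2))
  refine (hind n).of_isClosed_subset (isClosed_fdist_ball A x R) (fun y hy => ?_)
  have h1 : fdist A x y ≤ R := hy
  rw [div_le_iff₀ (by positivity)] at hn
  exact h1.trans hn

/-- Uniform local CN inequality. -/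
theorem Cocpt.lcn {A : ConeAtlas X} {K0 : Set X} (h : Cocpt A K0) :
    ∃ r > 0, ∀ a b, fdist A a b < r → ∃ m, ∀ p, fdist A p a < r → fdist A p b < r →
      2 * fdist A p m ^ 2 + fdist A a b ^ 2 / 2 ≤ fdist A p a ^ 2 + fdist A p b ^ 2 := by
  obtain ⟨r, hr, hK⟩ := uniform_radius A h.compact (fun x R =>
      ∀ a b, fdist A x a < R → fdist A x b < R → ∃ m, ∀ p, fdist A x p < R →
        2 * fdist A p m ^ 2 + fdist A a b ^ 2 / 2 ≤ fdist A p a ^ 2 + fdist A p b ^ 2)
    (by
      intro x R R' hRR' hc a b ha hb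
      obtain ⟨m, hm⟩ := hc a b (by linarith) (by linarith)
      exact ⟨m, fun p hp => hm p (by linarith)⟩)
    (by
      intro x y R hxy hc a b ha hb
      have h1 := fdist_triangle A x y a
      have h2 := fdist_triangle A x y b
      obtain ⟨m, hm⟩ := hc a b (by linarith) (by linarith)
      refine ⟨m, fun p hp => hm p ?_⟩
      have h3 := fdist_triangle A x y p
      linarith)
    (fdist_lcn A)
  refine ⟨r, hr, fun a b hab => ?_⟩
  obtain ⟨T, hT, hTd⟩ := h.move a
  obtain ⟨m, hm⟩ := hK (T a) hT (T a) (T b) (by rw [fdist_self]; exact hr) (by rw [hTd]; exact hab)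
  refine ⟨T.symm m, fun p hp1 hp2 => ?_⟩
  have h1 := hm (T p) (by rw [hTd, fdist_comm]; exact hp1)
  have h2 : fdist A (T p) m = fdist A p (T.symm m) := by
    rw [← hTd p (T.symm m), T.apply_symm_apply]
  rw [h2, hTd, hTd, hTd] at h1
  exact h1

/-- The main consequence for an affine homeomorphism. -/
theorem Cocpt.main {A : ConeAtlas X} {K0 : Set X} (h : Cocpt A K0) (Φ : X ≃ₜ ℂ)
    {sing : Set X} (hd : ∀ x, ∃ ε > 0, ∀ y ∈ sing, fdist A y x < ε → y = x)
    (ψ : X ≃ₜ X) (hsing : ∀ x, ψ x ∈ sing ↔ x ∈ sing)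
    (hbtw : ∀ x, x ∉ sing → ∃ ε > 0, ∀ a b c, fdist A a x < ε → fdist A b x < ε →
      fdist A c x < ε → fdist A a b + fdist A b c = fdist A a c →
      fdist A (ψ a) (ψ b) + fdist A (ψ b) (ψ c) = fdist A (ψ a) (ψ c))
    (hbtw' : ∀ x, x ∉ sing → ∃ ε > 0, ∀ a b c, fdist A a x < ε → fdist A b x < ε →
      fdist A c x < ε → fdist A a b + fdist A b c = fdist A a c →
      fdist A (ψ.symm a) (ψ.symm b) + fdist A (ψ.symm b) (ψ.symm c)
        = fdist A (ψ.symm a) (ψ.symm c)) :
    (∀ μ : ℝ, (∀ x, x ∉ sing → ∃ ε > 0, ∀ a, fdist A a x < ε →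
      μ * fdist A x a ≤ fdist A (ψ x) (ψ a) + fdist A (ψ.symm x) (ψ.symm a)) →
      ∀ x y, μ * fdist A x y ≤ fdist A (ψ x) (ψ y) + fdist A (ψ.symm x) (ψ.symm y)) ∧
    (∀ ν : ℝ, (∀ x, x ∉ sing → ∃ ε > 0, ∀ a, fdist A a x < ε →
      fdist A (ψ x) (ψ a) ≤ ν * fdist A x a) →
      ∀ x y, fdist A (ψ x) (ψ y) ≤ ν * fdist A x y) := by
  letI := flatMetric A
  haveI : ProperSpace X := ⟨fun x R => by
    have : Metric.closedBall x R = {y | fdist A x y ≤ R} := by
      ext y
      rw [Metric.mem_closedBall, dist_comm]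
      rfl
    rw [this]
    exact h.isCompact_ball x R⟩
  obtain ⟨r, hr, hlcn⟩ := h.lcn
  let H : NPC X :=
    { r := r
      r_pos := hr
      lcn := hlcn
      chain := fun x y δ hδ => fdist_chain A x y hδ
      Φ := Φ }
  have hψ : LocAff X sing ψ := ⟨hsing, hbtw⟩
  have hψ' : LocAff X sing ψ.symm := ⟨fun x => by
    have := hsing (ψ.symm x)
    rw [ψ.apply_symm_apply] at this
    exact this.symm, hbtw'⟩
  have hdd : Discr sing := hd
  refine ⟨fun μ hμ x y => H.expansion hdd hψ hψ' hμ x y, fun ν hν x y => ?_⟩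
  exact H.lipschitz hdd hψ hψ' hν x y

end

end Pool.Agent.Lib.MP_af0b91_an
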