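import Mathlib

set_option autoImplicit false

namespace Pool.Agent.Lib.MP_af0b91_an

open Filter Topology

/-- Chains with small steps and almost minimal total length. -/
def ChainProp (X : Type*) [MetricSpace X] : Prop :=
  ∀ x y : X, ∀ δ : ℝ, 0 < δ → ∃ (n : ℕ) (p : ℕ → X), p 0 = x ∧ p n = y ∧
    (∀ i < n, dist (p i) (p (i + 1)) ≤ δ) ∧
    ∑ i ∈ Finset.range n, dist (p i) (p (i + 1)) ≤ dist x y + δ

/-- A constant speed geodesic parametrized by `[0,1]`, clamped outside. -/
def IsGeod {X : Type*} [MetricSpace X] (γ : ℝ → X) (x y : X) : Prop :=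
  γ 0 = x ∧ γ 1 = y ∧ ∀ s t : ℝ, dist (γ s) (γ t) = |max 0 (min 1 s) - max 0 (min 1 t)| * dist x y

theorem exists_geod {X : Type*} [MetricSpace X] [ProperSpace X] (hX : ChainProp X) (x y : X) :
    ∃ γ : ℝ → X, IsGeod γ x y := by
  classical
  set L := dist x y with hL
  have hL0 : 0 ≤ L := dist_nonneg
  set δ : ℕ → ℝ := fun k => 1 / ((k : ℝ) + 1) with hδ
  have hδpos : ∀ k, 0 < δ k := fun k => by simp only [hδ]; positivity
  have hδlim : Tendsto δ atTop (𝓝 0) := tendsto_one_div_add_atTop_nhds_zero_nat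
  choose n p hp0 hpn hstep hsum using fun k => hX x y (δ k) (hδpos k)
  set S : ℕ → ℕ → ℝ := fun k i => ∑ j ∈ Finset.range i, dist (p k j) (p k (j + 1)) with hS
  have hS0 : ∀ k, S k 0 = 0 := fun k => by simp [hS]
  have hSsucc : ∀ k i, S k (i + 1) = S k i + dist (p k i) (p k (i + 1)) := by
    intro k i
    simp only [hS, Finset.sum_range_succ]
  have hSmono : ∀ k, Monotone (S k) := by
    intro k
    apply monotone_nat_of_le_succ
    intro i
    rw [hSsucc]
    linarith [dist_nonneg (x := p k i) (y := p k (i + 1))]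
  have hdistS : ∀ k i j, i ≤ j → dist (p k i) (p k j) ≤ S k j - S k i := by
    intro k i j hij
    have h1 := dist_le_Ico_sum_dist (p k) hij
    have h2 : S k j - S k i = ∑ j ∈ Finset.Ico i j, dist (p k j) (p k (j + 1)) := by
      simp only [hS]
      rw [Finset.sum_Ico_eq_sub _ hij]
    rw [h2]; exact h1
  have hSn : ∀ k, S k (n k) ≤ L + δ k := fun k => hsum k
  have hSnL : ∀ k, L ≤ S k (n k) := by
    intro k
    have := hdistS k 0 (n k) (Nat.zero_le _)
    rw [hp0, hpn, hS0] at this
    linarith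
  -- the index at time t
  set idx : ℕ → ℝ → ℕ := fun k t => Nat.findGreatest (fun i => S k i ≤ t * L) (n k) with hidx
  have hidx_le : ∀ k t, idx k t ≤ n k := fun k t => Nat.findGreatest_le _
  have hidx1 : ∀ k t, 0 ≤ t → S k (idx k t) ≤ t * L := by
    intro k t ht
    have h0 : S k 0 ≤ t * L := by rw [hS0]; positivity
    exact Nat.findGreatest_spec (P := fun i => S k i ≤ t * L) (Nat.zero_le _) h0
  have hidx2 : ∀ k t, 0 ≤ t → t ≤ 1 → t * L - δ k ≤ S k (idx k t) := by
    intro k t ht ht1
    rcases (hidx_le k t).eq_or_lt with h | h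
    · rw [h]
      have := hSnL k
      have := hδpos k
      nlinarith
    · have h1 : ¬ S k (idx k t + 1) ≤ t * L := by
        apply Nat.findGreatest_is_greatest (P := fun i => S k i ≤ t * L) (n := n k)
        · exact Nat.lt_succ_self _
        · exact h
      rw [hSsucc] at h1
      have := hstep k (idx k t) h
      linarith [not_le.mp h1]
  set g : ℕ → ℝ → X := fun k t => p k (idx k t) with hg
  -- distance estimate
  have hest : ∀ k s t, 0 ≤ s → s ≤ t → t ≤ 1 →
      (t - s) * L - 2 * δ k ≤ dist (g k s) (g k t) ∧ dist (g k s) (g k t) ≤ (t - s) * L + δ k := by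
    intro k s t hs hst ht
    have hij : idx k s ≤ idx k t := by
      simp only [hidx]
      apply Nat.findGreatest_mono_left
      intro i hi
      exact hi.trans (mul_le_mul_of_nonneg_right hst hL0)
    have a1 := hidx1 k s hs
    have a2 := hidx2 k s hs (hst.trans ht)
    have a3 := hidx1 k t (hs.trans hst)
    have a4 := hidx2 k t (hs.trans hst) ht
    have b1 := hdistS k _ _ hij
    have b2 := hdistS k 0 (idx k s) (Nat.zero_le _)
    have b3 := hdistS k (idx k t) (n k) (hidx_le k t)
    rw [hp0, hS0] at b2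
    rw [hpn] at b3
    have b4 := hSn k
    have b5 : L ≤ dist x (g k s) + dist (g k s) (g k t) + dist (g k t) y := by
      calc L ≤ dist x (g k t) + dist (g k t) y := dist_triangle _ _ _
        _ ≤ _ := by
          have := dist_triangle x (g k s) (g k t)
          linarith
    simp only [hg] at b5 ⊢
    constructor
    · nlinarith
    · nlinarith
  have hbdd : ∀ k t, 0 ≤ t → t ≤ 1 → g k t ∈ Metric.closedBall x (L + 2) := by
    intro k t ht ht1
    have h1 := hest k 0 t le_rfl ht ht1
    have h2 : g k 0 ∈ Metric.closedBall x (δ k) := by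
      have a1 := hidx1 k 0 le_rfl
      have b2 := hdistS k 0 (idx k 0) (Nat.zero_le _)
      rw [hp0, hS0] at b2
      rw [Metric.mem_closedBall, dist_comm]
      simp only [hg]
      have := hδpos k
      linarith
    rw [Metric.mem_closedBall] at h2 ⊢
    have hδ1 : δ k ≤ 1 := by
      simp only [hδ]
      rw [div_le_one (by positivity)]
      linarith [(Nat.cast_nonneg k : (0 : ℝ) ≤ k)]
    calc dist (g k t) x ≤ dist (g k t) (g k 0) + dist (g k 0) x := dist_triangle _ _ _
      _ ≤ L + 2 := by
        rw [dist_comm (g k t)]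
        nlinarith [h1.2]
  -- ultralimit
  have hex : ∀ t : ℝ, ∃ q : X, 0 ≤ t → t ≤ 1 →
      Tendsto (fun k => g k t) (hyperfilter ℕ : Filter ℕ) (𝓝 q) := by
    intro t
    by_cases ht : 0 ≤ t ∧ t ≤ 1
    · have hc := isCompact_closedBall x (L + 2)
      have h1 : ((hyperfilter ℕ).map (fun k => g k t) : Filter X) ≤ 𝓟 (Metric.closedBall x (L + 2)) := by
        rw [le_principal_iff, Ultrafilter.coe_map, Filter.mem_map]
        exact Filter.univ_mem' (fun k => hbdd k t ht.1 ht.2)
      obtain ⟨q, -, hq⟩ := hc.ultrafilter_le_nhds _ h1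
      exact ⟨q, fun _ _ => hq⟩
    · exact ⟨x, fun h1 h2 => absurd ⟨h1, h2⟩ ht⟩
  choose q hq using hex
  have hδlim' : Tendsto δ (hyperfilter ℕ : Filter ℕ) (𝓝 0) :=
    hδlim.mono_left (by rw [← Nat.cofinite_eq_atTop]; exact hyperfilter_le_cofinite)
  have hdq : ∀ s t, 0 ≤ s → s ≤ t → t ≤ 1 → dist (q s) (q t) = (t - s) * L := by
    intro s t hs hst ht
    have h1 : Tendsto (fun k => dist (g k s) (g k t)) (hyperfilter ℕ : Filter ℕ)
        (𝓝 (dist (q s) (q t))) := (hq s hs (hst.trans ht)).dist (hq t (hs.trans hst) ht)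
    have h2 : Tendsto (fun k => dist (g k s) (g k t)) (hyperfilter ℕ : Filter ℕ)
        (𝓝 ((t - s) * L)) := by
      apply tendsto_of_tendsto_of_tendsto_of_le_of_le (g := fun k => (t - s) * L - 2 * δ k)
        (h := fun k => (t - s) * L + δ k)
      · have := (hδlim'.const_mul 2).const_sub ((t - s) * L)
        simpa using this
      · have := hδlim'.const_add ((t - s) * L)
        simpa using this
      · intro k; exact (hest k s t hs hst ht).1
      · intro k; exact (hest k s t hs hst ht).2
    exact tendsto_nhds_unique h1 h2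
  have hq0 : q 0 = x := by
    have h1 : Tendsto (fun k => dist (g k 0) x) (hyperfilter ℕ : Filter ℕ) (𝓝 (dist (q 0) x)) :=
      (hq 0 le_rfl zero_le_one).dist tendsto_const_nhds
    have h2 : Tendsto (fun k => dist (g k 0) x) (hyperfilter ℕ : Filter ℕ) (𝓝 0) := by
      apply squeeze_zero (g := δ) (fun k => dist_nonneg) _ hδlim'
      intro k
      have a1 := hidx1 k 0 le_rfl
      have b2 := hdistS k 0 (idx k 0) (Nat.zero_le _)
      rw [hp0, hS0] at b2
      rw [dist_comm]
      simp only [hg]
      have := hδpos k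
      linarith
    exact dist_eq_zero.mp (tendsto_nhds_unique h1 h2)
  have hq1 : q 1 = y := by
    have h1 : Tendsto (fun k => dist (g k 1) y) (hyperfilter ℕ : Filter ℕ) (𝓝 (dist (q 1) y)) :=
      (hq 1 zero_le_one le_rfl).dist tendsto_const_nhds
    have h2 : Tendsto (fun k => dist (g k 1) y) (hyperfilter ℕ : Filter ℕ) (𝓝 0) := by
      have h3 : Tendsto (fun k => 2 * δ k) (hyperfilter ℕ : Filter ℕ) (𝓝 0) := by
        simpa using hδlim'.const_mul 2
      apply squeeze_zero (g := fun k => 2 * δ k) (fun k => dist_nonneg) _ h3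
      intro k
      have a4 := hidx2 k 1 zero_le_one le_rfl
      have b3 := hdistS k (idx k 1) (n k) (hidx_le k 1)
      rw [hpn] at b3
      have b4 := hSn k
      simp only [hg]
      linarith
    exact dist_eq_zero.mp (tendsto_nhds_unique h1 h2)
  refine ⟨fun t => q (max 0 (min 1 t)), ?_, ?_, ?_⟩
  · simpa using hq0
  · simpa using hq1
  · intro s t
    have hc : ∀ u : ℝ, 0 ≤ max 0 (min 1 u) ∧ max 0 (min 1 u) ≤ 1 := fun u =>
      ⟨le_max_left _ _, max_le zero_le_one (min_le_left _ _)⟩
    rcases le_total (max 0 (min 1 s)) (max 0 (min 1 t)) with h | h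
    · rw [hdq _ _ (hc s).1 h (hc t).2, abs_sub_comm, abs_of_nonneg (by linarith)]
    · rw [dist_comm, hdq _ _ (hc t).1 h (hc s).2, abs_of_nonneg (by linarith)]

end Pool.Agent.Lib.MP_af0b91_an
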