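import Pool.Agent.Lib.MP_af0b91_an.Birkhoff
import Pool.Agent.Lib.MP_af0b91_an.GeodExist

set_option autoImplicit false

namespace Pool.Agent.Lib.MP_af0b91_an

open Filter Topology Set

/-- The standing hypotheses: a proper length space homeomorphic to the plane which satisfies
the CN inequality at a uniform scale. -/
structure NPC (X : Type*) [MetricSpace X] where
  r : ℝ
  r_pos : 0 < r
  lcn : LCN X r
  chain : ChainProp X
  Φ : X ≃ₜ ℂ

/-- Local geodesics of constant speed on `[0,1]`. -/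
def IsLocGeod {X : Type*} [MetricSpace X] (P : ℝ → X) : Prop :=
  Continuous P ∧ ∃ ε > 0, ∃ v : ℝ, ∀ s ∈ Icc (0 : ℝ) 1, ∀ t ∈ Icc (0 : ℝ) 1, |s - t| ≤ ε →
    dist (P s) (P t) = v * |s - t|

section

variable {X : Type*} [MetricSpace X]

lemma clamp_eq {t : ℝ} (ht : t ∈ Icc (0 : ℝ) 1) : max 0 (min 1 t) = t := by
  rw [min_eq_right ht.2, max_eq_right ht.1]

lemma abs_clamp_sub_le (s t : ℝ) : |max 0 (min 1 s) - max 0 (min 1 t)| ≤ |s - t| := by
  calc |max 0 (min 1 s) - max 0 (min 1 t)| ≤ |min 1 s - min 1 t| := by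
        rw [max_comm 0, max_comm 0]
        exact abs_max_sub_max_le_abs _ _ _
    _ ≤ |s - t| := by
      have := abs_min_sub_min_le_max 1 s 1 t
      rw [sub_self, abs_zero, max_eq_right (abs_nonneg _)] at this
      exact this

lemma IsGeod.continuous {γ : ℝ → X} {x y : X} (h : IsGeod γ x y) : Continuous γ := by
  have : LipschitzWith (Real.toNNReal (dist x y)) γ := by
    apply LipschitzWith.of_dist_le_mul
    intro s t
    rw [h.2.2 s t, Real.coe_toNNReal _ dist_nonneg, mul_comm, Real.dist_eq]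
    exact mul_le_mul_of_nonneg_left (abs_clamp_sub_le s t) dist_nonneg
  exact this.continuous

lemma IsGeod.dist_eq {γ : ℝ → X} {x y : X} (h : IsGeod γ x y) {s t : ℝ} (hs : s ∈ Icc (0 : ℝ) 1)
    (ht : t ∈ Icc (0 : ℝ) 1) : dist (γ s) (γ t) = |s - t| * dist x y := by
  rw [h.2.2 s t, clamp_eq hs, clamp_eq ht]

lemma IsGeod.isLocGeod {γ : ℝ → X} {x y : X} (h : IsGeod γ x y) : IsLocGeod γ :=
  ⟨h.continuous, 1, one_pos, dist x y, fun s hs t ht _ => by rw [h.dist_eq hs ht]; ring⟩

/-- The convexity of the distance between two (local) geodesics. -/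
theorem NPC.convex [ProperSpace X] (H : NPC X) {P Q : ℝ → X} (hP : IsLocGeod P)
    (hQ : IsLocGeod Q) {t : ℝ} (ht : t ∈ Icc (0 : ℝ) 1) :
    dist (P t) (Q t) ≤ (1 - t) * dist (P 0) (Q 0) + t * dist (P 1) (Q 1) := by
  obtain ⟨hPc, εP, hεP, vP, hPv⟩ := hP
  obtain ⟨hQc, εQ, hεQ, vQ, hQv⟩ := hQ
  obtain ⟨α, hα⟩ := exists_geod H.chain (P 0) (Q 0)
  obtain ⟨β, hβ⟩ := exists_geod H.chain (P 1) (Q 1)
  have hαc := hα.continuous
  have hβc := hβ.continuous
  set C : ℝ × ℝ → ℂ := fun p =>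
    (1 - p.1) * H.Φ (P p.2) + p.1 * H.Φ (Q p.2) + (1 - p.2) * H.Φ (α p.1) + p.2 * H.Φ (β p.1)
      - ((1 - p.1) * (1 - p.2) * H.Φ (P 0) + (1 - p.1) * p.2 * H.Φ (P 1)
        + p.1 * (1 - p.2) * H.Φ (Q 0) + p.1 * p.2 * H.Φ (Q 1)) with hC
  have hCc : Continuous C := by
    have h1 := H.Φ.continuous
    have e1 : Continuous (fun p : ℝ × ℝ => H.Φ (P p.2)) := h1.comp (hPc.comp continuous_snd)
    have e2 : Continuous (fun p : ℝ × ℝ => H.Φ (Q p.2)) := h1.comp (hQc.comp continuous_snd)
    have e3 : Continuous (fun p : ℝ × ℝ => H.Φ (α p.1)) := h1.comp (hαc.comp continuous_fst)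
    have e4 : Continuous (fun p : ℝ × ℝ => H.Φ (β p.1)) := h1.comp (hβc.comp continuous_fst)
    simp only [hC]
    fun_prop
  set G : ℝ × ℝ → X := fun p => H.Φ.symm (C p) with hG
  have hGc : Continuous G := H.Φ.symm.continuous.comp hCc
  have hG0 : ∀ s, G (0, s) = P s := by
    intro s
    simp only [hG, hC]
    rw [hα.1, hβ.1]
    rw [Homeomorph.symm_apply_eq]
    push_cast
    ring
  have hG1 : ∀ s, G (1, s) = Q s := by
    intro s
    simp only [hG, hC]
    rw [hα.2.1, hβ.2.1]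
    rw [Homeomorph.symm_apply_eq]
    push_cast
    ring
  have hGα : ∀ s, G (s, 0) = α s := by
    intro s
    simp only [hG, hC]
    rw [Homeomorph.symm_apply_eq]
    push_cast
    ring
  have hGβ : ∀ s, G (s, 1) = β s := by
    intro s
    simp only [hG, hC]
    rw [Homeomorph.symm_apply_eq]
    push_cast
    ring
  have hr := H.r_pos
  -- uniform continuity
  have hcomp : IsCompact (Icc (0 : ℝ) 1 ×ˢ Icc (0 : ℝ) 1) := isCompact_Icc.prod isCompact_Icc
  have huc := hcomp.uniformContinuousOn_of_continuous hGc.continuousOn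
  rw [Metric.uniformContinuousOn_iff] at huc
  obtain ⟨δ, hδ, hucδ⟩ := huc (H.r / 4) (by positivity)
  set A := dist (P 0) (Q 0)
  set B := dist (P 1) (Q 1)
  have hgrid : ∀ᶠ N : ℕ in atTop, ∀ i ≤ N,
      dist (P ((i : ℝ) / N)) (Q ((i : ℝ) / N)) ≤ (1 - (i : ℝ) / N) * A + (i : ℝ) / N * B := by
    have e1 : ∀ᶠ N : ℕ in atTop, 1 / (N : ℝ) < δ := by
      have := tendsto_one_div_atTop_nhds_zero_nat (𝕜 := ℝ)
      exact this.eventually_lt_const hδ
    have e2 : ∀ᶠ N : ℕ in atTop, 2 / (N : ℝ) < min εP εQ := by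
      have := (tendsto_one_div_atTop_nhds_zero_nat (𝕜 := ℝ)).const_mul 2
      rw [mul_zero] at this
      have h2 := this.eventually_lt_const (lt_min hεP hεQ)
      filter_upwards [h2] with N hN
      calc 2 / (N : ℝ) = 2 * (1 / (N : ℝ)) := by ring
        _ < _ := hN
    have e3 : ∀ᶠ N : ℕ in atTop, (2 / (N : ℝ)) * max (|vP|) (|vQ|) < H.r := by
      have := (tendsto_one_div_atTop_nhds_zero_nat (𝕜 := ℝ)).const_mul (2 * max (|vP|) (|vQ|))
      rw [mul_zero] at this
      have h2 := this.eventually_lt_const hr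
      filter_upwards [h2] with N hN
      calc (2 / (N : ℝ)) * max (|vP|) (|vQ|) = 2 * max (|vP|) (|vQ|) * (1 / (N : ℝ)) := by ring
        _ < _ := hN
    filter_upwards [e1, e2, e3, eventually_gt_atTop 0] with N hN1 hN2 hN3 hN0 i hi
    have hNr : (0 : ℝ) < N := by exact_mod_cast hN0
    have hmem : ∀ k : ℕ, k ≤ N → (k : ℝ) / N ∈ Icc (0 : ℝ) 1 := by
      intro k hk
      refine ⟨by positivity, ?_⟩
      rw [div_le_one hNr]; exact_mod_cast hk
    set R : ℕ → ℕ → X := fun j i => G ((j : ℝ) / N, (i : ℝ) / N) with hR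
    have hstep1 : ∀ k : ℕ, |((k : ℝ) + 1) / N - (k : ℝ) / N| = 1 / N := by
      intro k
      rw [← sub_div, add_sub_cancel_left, abs_of_pos (by positivity)]
    have hfix : ∀ (F : ℝ → X) (εF vF : ℝ), 2 / (N : ℝ) < εF → (2 / (N : ℝ)) * |vF| < H.r →
        (∀ s ∈ Icc (0 : ℝ) 1, ∀ t ∈ Icc (0 : ℝ) 1, |s - t| ≤ εF → dist (F s) (F t) = vF * |s - t|) →
        bstep H.lcn N (fun i : ℕ => F ((i : ℝ) / N)) = (fun i : ℕ => F ((i : ℝ) / N)) := by
      intro F εF vF h1 h2 hF
      funext k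
      by_cases hk : 0 < k ∧ k < N
      · rw [bstep_of_mem H.lcn _ hk.1 hk.2]
        obtain ⟨l, rfl⟩ : ∃ l, k = l + 1 := ⟨k - 1, by omega⟩
        simp only [Nat.add_sub_cancel]
        have m0 := hmem l (by omega)
        have m1 := hmem (l + 1) (by omega)
        have m2 := hmem (l + 1 + 1) (by omega)
        have d01 : |((l + 1 : ℕ) : ℝ) / N - (l : ℝ) / N| = 1 / N := by
          push_cast; exact hstep1 l
        have d12 : |((l + 1 : ℕ) : ℝ) / N - ((l + 1 + 1 : ℕ) : ℝ) / N| = 1 / N := by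
          rw [abs_sub_comm]; push_cast; exact_mod_cast hstep1 (l + 1)
        have d02 : |(l : ℝ) / N - ((l + 1 + 1 : ℕ) : ℝ) / N| = 2 / N := by
          rw [← sub_div]
          push_cast
          rw [show (l : ℝ) - (l + 1 + 1) = -2 by ring, abs_div, abs_neg]
          rw [abs_of_pos (by norm_num : (0 : ℝ) < 2), abs_of_pos hNr]
        have hN12 : (1 : ℝ) / N ≤ 2 / N := by gcongr; norm_num
        have q01 := hF _ m1 _ m0 (by rw [d01]; linarith)
        have q12 := hF _ m1 _ m2 (by rw [d12]; linarith)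
        have q02 := hF _ m0 _ m2 (by rw [d02]; linarith)
        rw [d01] at q01
        rw [d12] at q12
        rw [d02] at q02
        symm
        apply eq_mid H.lcn
        · rw [q02]
          calc vF * (2 / N) ≤ |vF| * (2 / N) := by gcongr; exact le_abs_self _
            _ < H.r := by linarith
        · rw [q01, q02]; ring
        · rw [q12, q02]; ring
      · rw [bstep_of_not_mem H.lcn _ hk]
    have hR0 : R 0 = fun i : ℕ => P ((i : ℝ) / N) := by
      funext k
      simp only [hR, Nat.cast_zero, zero_div]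
      exact hG0 _
    have hRN : R N = fun i : ℕ => Q ((i : ℝ) / N) := by
      funext k
      simp only [hR]
      rw [div_self hNr.ne']
      exact hG1 _
    have hRj0 : ∀ j, R j 0 = α ((j : ℝ) / N) := by
      intro j
      simp only [hR, Nat.cast_zero, zero_div]
      exact hGα _
    have hRjN : ∀ j, R j N = β ((j : ℝ) / N) := by
      intro j
      simp only [hR]
      rw [div_self hNr.ne']
      exact hGβ _
    have hsum : ∀ (γ : ℝ → X) (x y : X), IsGeod γ x y →
        ∑ j ∈ Finset.range N, dist (γ ((j : ℝ) / N)) (γ (((j + 1 : ℕ) : ℝ) / N)) ≤ dist x y := by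
      intro γ x y hγ
      have : ∀ j ∈ Finset.range N, dist (γ ((j : ℝ) / N)) (γ (((j + 1 : ℕ) : ℝ) / N))
          = 1 / N * dist x y := by
        intro j hj
        have hj' := Finset.mem_range.mp hj
        rw [hγ.dist_eq (hmem j (by omega)) (hmem (j + 1) (by omega)), abs_sub_comm]
        push_cast
        rw [hstep1 j]
      rw [Finset.sum_congr rfl this, Finset.sum_const, Finset.card_range, nsmul_eq_mul]
      apply le_of_eq
      field_simp
    have key := grid_convex H.lcn (J := N) hN0 (ε := H.r / 4) (by positivity) (by linarith) R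
      (by
        intro j hj k hk
        apply le_of_lt
        apply hucδ _ ⟨hmem j hj, hmem k (by omega)⟩ _ ⟨hmem j hj, hmem (k + 1) (by omega)⟩
        rw [Prod.dist_eq, dist_self, Real.dist_eq, abs_sub_comm]
        push_cast
        rw [hstep1 k]
        exact max_lt hδ hN1)
      (by
        intro j hj k hk
        apply le_of_lt
        apply hucδ _ ⟨hmem j (by omega), hmem k hk⟩ _ ⟨hmem (j + 1) (by omega), hmem k hk⟩
        rw [Prod.dist_eq, dist_self, Real.dist_eq, abs_sub_comm]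
        push_cast
        rw [hstep1 j]
        exact max_lt hN1 hδ)
      (by
        rw [hR0]
        apply hfix P εP vP (lt_of_lt_of_le hN2 (min_le_left _ _)) _ hPv
        refine lt_of_le_of_lt ?_ hN3
        gcongr
        exact le_max_left _ _)
      (by
        rw [hRN]
        apply hfix Q εQ vQ (lt_of_lt_of_le hN2 (min_le_right _ _)) _ hQv
        refine lt_of_le_of_lt ?_ hN3
        gcongr
        exact le_max_right _ _)
      (A := A) (B := B)
      (by
        simp only [hRj0]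
        exact hsum α _ _ hα)
      (by
        simp only [hRjN]
        exact hsum β _ _ hβ)
      i hi
    rw [hR0, hRN] at key
    exact key
  -- pass to the limit
  have hfl : Tendsto (fun N : ℕ => ((⌊t * N⌋₊ : ℕ) : ℝ) / N) atTop (𝓝 t) :=
    tendsto_nat_floor_mul_div_atTop ht.1 |>.comp tendsto_natCast_atTop_atTop
  have hl1 : Tendsto (fun N : ℕ => dist (P (((⌊t * N⌋₊ : ℕ) : ℝ) / N)) (Q (((⌊t * N⌋₊ : ℕ) : ℝ) / N)))
      atTop (𝓝 (dist (P t) (Q t))) :=
    ((hPc.tendsto t).comp hfl).dist ((hQc.tendsto t).comp hfl)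
  have hl2 : Tendsto (fun N : ℕ => (1 - ((⌊t * N⌋₊ : ℕ) : ℝ) / N) * A + ((⌊t * N⌋₊ : ℕ) : ℝ) / N * B)
      atTop (𝓝 ((1 - t) * A + t * B)) :=
    ((hfl.const_sub 1).mul_const A).add (hfl.mul_const B)
  refine le_of_tendsto_of_tendsto hl1 hl2 ?_
  filter_upwards [hgrid, eventually_gt_atTop 0] with N hN hN0
  apply hN
  have hNr : (0 : ℝ) < N := by exact_mod_cast hN0
  have h1 : t * N ≤ N := by nlinarith [ht.2]
  have h2 : (⌊t * N⌋₊ : ℝ) ≤ t * N := Nat.floor_le (by have := ht.1; positivity)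
  exact_mod_cast h2.trans h1

end

end Pool.Agent.Lib.MP_af0b91_an
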