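import Pool.Agent.Lib.MP_af0b91_an.Cover

set_option autoImplicit false

namespace Pool.Agent.Lib.MP_af0b91_an

open Filter Topology Set UpperHalfPlane

section

/-- Powers of two maps at bounded distance. -/
lemma pow_close {X : Type*} [TopologicalSpace X] (d : X → X → ℝ)
    (htri : ∀ x y z, d x z ≤ d x y + d y z) {ψ G : X ≃ₜ X} {ν : ℝ} (hν : 0 ≤ ν)
    (hLip : ∀ x y, d (ψ x) (ψ y) ≤ ν * d x y) {C0 : ℝ} (h0 : ∀ x, d (ψ x) (G x) ≤ C0)
    (hself : ∀ x, d x x = 0) (n : ℕ) : ∃ C, ∀ x, d ((ψ ^ n) x) ((G ^ n) x) ≤ C := by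
  induction n with
  | zero => exact ⟨0, fun x => by rw [pow_zero, pow_zero, Homeomorph.one_apply, hself]⟩
  | succ n ih =>
    obtain ⟨C, hC⟩ := ih
    refine ⟨ν * C + C0, fun x => ?_⟩
    rw [pow_succ', pow_succ', Homeomorph.mul_apply, Homeomorph.mul_apply]
    have h1 := htri (ψ ((ψ ^ n) x)) (ψ ((G ^ n) x)) (G ((G ^ n) x))
    have h2 := hLip ((ψ ^ n) x) ((G ^ n) x)
    have h3 := h0 ((G ^ n) x)
    have h4 := mul_le_mul_of_nonneg_left (hC x) hν
    linarith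

variable {S : Type*} [TopologicalSpace S] {π : ℍ → S}

/-- A compact fundamental ball. -/
lemma exists_fund [CompactSpace S] (hc : IsHyperbolicCover π) : ∃ n : ℕ, ∀ x,
    ∃ T : ℍ ≃ᵢ ℍ, (∀ w, π (T w) = π w) ∧ dist (T x) UpperHalfPlane.I ≤ n := by
  have hopen : ∀ n : ℕ, IsOpen (π '' Metric.ball UpperHalfPlane.I (n : ℝ)) := fun n =>
    hc.covering.isLocalHomeomorph.isOpenMap _ Metric.isOpen_ball
  have hcov : (univ : Set S) ⊆ ⋃ n : ℕ, π '' Metric.ball UpperHalfPlane.I (n : ℝ) := by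
    intro p _
    obtain ⟨x, rfl⟩ := hc.surjective p
    obtain ⟨n, hn⟩ := exists_nat_gt (dist x UpperHalfPlane.I)
    exact mem_iUnion.mpr ⟨n, x, hn, rfl⟩
  obtain ⟨t, ht⟩ := isCompact_univ.elim_finite_subcover _ hopen hcov
  refine ⟨t.sup id, fun x => ?_⟩
  obtain ⟨n, hn⟩ := mem_iUnion.mp (ht (mem_univ (π x)))
  obtain ⟨hnt, y, hy, hyx⟩ := mem_iUnion.mp hn
  obtain ⟨T, hT, hTx⟩ := hc.deck x y hyx.symm
  refine ⟨T, hT, ?_⟩
  rw [hTx]
  have h1 : dist y UpperHalfPlane.I < n := hy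
  have h2 : n ≤ t.sup id := Finset.le_sup (f := id) hnt
  have h3 : (n : ℝ) ≤ (t.sup id : ℕ) := by exact_mod_cast h2
  linarith

/-- The facts about the flat metric that are used at the end. -/
structure FlatData (π : ℍ → S) (d : ℍ → ℍ → ℝ) : Prop where
  nonneg : ∀ x y, 0 ≤ d x y
  self : ∀ x, d x x = 0
  comm : ∀ x y, d x y = d y x
  triangle : ∀ x y z, d x z ≤ d x y + d y z
  cont : Continuous (fun p : ℍ × ℍ => d p.1 p.2)
  invariant : ∀ T : ℍ ≃ᵢ ℍ, (∀ w, π (T w) = π w) → ∀ x y, d (T x) (T y) = d x y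
  proper : ∀ x R, IsCompact {y | d x y ≤ R}

lemma FlatData.coarse_one [CompactSpace S] (hc : IsHyperbolicCover π) {d : ℍ → ℍ → ℝ}
    (h : FlatData π d) (R : ℝ) : ∃ R', ∀ x y : ℍ, dist x y ≤ R → d x y ≤ R' := by
  obtain ⟨n, hn⟩ := exists_fund hc
  have hK : IsCompact (Metric.closedBall UpperHalfPlane.I (n : ℝ) ×ˢ
      Metric.closedBall UpperHalfPlane.I (n + R)) :=
    (isCompact_closedBall _ _).prod (isCompact_closedBall _ _)
  obtain ⟨C, hC⟩ := hK.exists_bound_of_continuousOn h.cont.continuousOn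
  refine ⟨C, fun x y hxy => ?_⟩
  obtain ⟨T, hT, hTx⟩ := hn x
  rw [← h.invariant T hT]
  have h1 := hC (T x, T y) ⟨hTx, by
    show dist (T y) UpperHalfPlane.I ≤ n + R
    have h2 := dist_triangle_left (T y) UpperHalfPlane.I (T x)
    rw [T.dist_eq] at h2
    linarith⟩
  exact (le_abs_self _).trans h1

lemma FlatData.coarse_two [CompactSpace S] (hc : IsHyperbolicCover π) {d : ℍ → ℍ → ℝ}
    (h : FlatData π d) (R : ℝ) : ∃ R', ∀ x y : ℍ, d x y ≤ R → dist x y ≤ R' := by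
  obtain ⟨n, hn⟩ := exists_fund hc
  obtain ⟨C, hC⟩ := h.coarse_one hc n
  have h1 := (h.proper UpperHalfPlane.I (C + R)).isBounded
  obtain ⟨r, hr⟩ := h1.subset_closedBall UpperHalfPlane.I
  refine ⟨n + r, fun x y hxy => ?_⟩
  obtain ⟨T, hT, hTx⟩ := hn x
  rw [← T.dist_eq]
  have h2 : T y ∈ {y | d UpperHalfPlane.I y ≤ C + R} := by
    have h3 := h.triangle UpperHalfPlane.I (T x) (T y)
    have h4 := hC (T x) UpperHalfPlane.I hTx
    rw [h.comm] at h4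
    rw [h.invariant T hT] at h3
    show d UpperHalfPlane.I (T y) ≤ C + R
    linarith
  have h3 : dist (T y) UpperHalfPlane.I ≤ r := hr h2
  have h4 := dist_triangle_right (T x) (T y) UpperHalfPlane.I
  linarith

/-- The abstract conclusion. -/
lemma FlatData.conclude [CompactSpace S] (hc : IsHyperbolicCover π) {d : ℍ → ℍ → ℝ}
    (h : FlatData π d) {g : S ≃ₜ S} {ψ G : ℍ ≃ₜ ℍ} (hG : ∀ x, π (G x) = g (π x)) {N : ℕ}
    (hexp : ∀ x y, 4 * d x y ≤ d ((ψ ^ N) x) ((ψ ^ N) y) + d ((ψ⁻¹ ^ N) x) ((ψ⁻¹ ^ N) y))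
    {C : ℝ} (hC : ∀ x, d ((ψ ^ N) x) ((G ^ N) x) ≤ C)
    (hC' : ∀ x, d ((ψ⁻¹ ^ N) x) ((G⁻¹ ^ N) x) ≤ C) :
    ∃ M : ℝ, 0 < M ∧ ∀ K : Set S, ENNReal.ofReal M < dynDiam π g K → dynDiam π g K = ⊤ := by
  obtain ⟨M, hM⟩ := h.coarse_two hc (2 * C)
  refine ⟨max M 1, by positivity, fun K hK => ?_⟩
  by_contra hfin
  -- lifts of powers permute the components
  have hGn : ∀ n : ℕ, ∀ x, π ((G ^ n) x) = (g ^ n) (π x) := by
    intro n
    induction n with
    | zero => intro x; rw [pow_zero, pow_zero]; rfl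
    | succ n ih =>
      intro x
      rw [pow_succ', pow_succ', Homeomorph.mul_apply, Homeomorph.mul_apply, hG, ih]
  have hG' : ∀ x, π (G⁻¹ x) = g⁻¹ (π x) := by
    intro x
    have := hG (G⁻¹ x)
    have h2 : G (G⁻¹ x) = x := G.apply_symm_apply x
    rw [h2] at this
    rw [this]
    exact (g.symm_apply_apply _).symm
  have hGn' : ∀ n : ℕ, ∀ x, π ((G⁻¹ ^ n) x) = (g⁻¹ ^ n) (π x) := by
    intro n
    induction n with
    | zero => intro x; rw [pow_zero, pow_zero]; rfl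
    | succ n ih =>
      intro x
      rw [pow_succ', pow_succ', Homeomorph.mul_apply, Homeomorph.mul_apply, hG', ih]
  have shift : ∀ (G' : ℍ ≃ₜ ℍ) (g' : S ≃ₜ S), (∀ x, π (G' x) = g' (π x)) → ∀ (L : Set S) (x y : ℍ),
      x ∈ π ⁻¹' L → y ∈ connectedComponentIn (π ⁻¹' L) x →
      G' x ∈ π ⁻¹' (g' '' L) ∧ G' y ∈ connectedComponentIn (π ⁻¹' (g' '' L)) (G' x) := by
    intro G' g' hG'g' L x y hx hy
    have hsub : ∀ z ∈ π ⁻¹' L, G' z ∈ π ⁻¹' (g' '' L) := fun z hz =>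
      ⟨π z, hz, (hG'g' z).symm⟩
    refine ⟨hsub x hx, ?_⟩
    have h1 : IsPreconnected (G' '' connectedComponentIn (π ⁻¹' L) x) :=
      isPreconnected_connectedComponentIn.image _ G'.continuous.continuousOn
    have h2 : G' x ∈ G' '' connectedComponentIn (π ⁻¹' L) x :=
      ⟨x, mem_connectedComponentIn hx, rfl⟩
    have h3 : G' '' connectedComponentIn (π ⁻¹' L) x ⊆ π ⁻¹' (g' '' L) := by
      rintro _ ⟨z, hz, rfl⟩
      exact hsub z (connectedComponentIn_subset _ _ hz)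
    exact h1.subset_connectedComponentIn h2 h3 ⟨y, hy, rfl⟩
  -- the set of flat distances
  set Z : Set ℝ := {s | ∃ (j : ℤ) (x y : ℍ), x ∈ π ⁻¹' ((g ^ j : S ≃ₜ S) '' K) ∧
    y ∈ connectedComponentIn (π ⁻¹' ((g ^ j : S ≃ₜ S) '' K)) x ∧ d x y = s} with hZ
  have hbd : BddAbove Z := by
    obtain ⟨R', hR'⟩ := h.coarse_one hc (dynDiam π g K).toReal
    refine ⟨R', ?_⟩
    rintro _ ⟨j, x, y, hx, hy, rfl⟩
    apply hR'
    have h1 : edist x y ≤ dynDiam π g K := by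
      refine le_trans ?_ (le_iSup _ j)
      refine le_trans ?_ (le_iSup₂ (f := fun x _ =>
        Metric.ediam (connectedComponentIn (π ⁻¹' ((g ^ j : S ≃ₜ S) '' K)) x)) x hx)
      exact Metric.edist_le_ediam_of_mem (mem_connectedComponentIn hx) hy
    rw [edist_dist] at h1
    exact (ENNReal.ofReal_le_iff_le_toReal hfin).mp h1
  have hZC : ∀ s ∈ Z, s ≤ 2 * C := by
    intro s hs
    have hE : sSup Z ≤ (C + C + sSup Z) / 2 := by
      apply csSup_le ⟨s, hs⟩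
      rintro _ ⟨j, x, y, hx, hy, rfl⟩
      have e1 : d ((G ^ N) x) ((G ^ N) y) ≤ sSup Z := by
        apply le_csSup hbd
        obtain ⟨k1, k2⟩ := shift (G ^ N) (g ^ N) (hGn N) _ x y hx hy
        have himg : (g ^ N : S ≃ₜ S) '' ((g ^ j : S ≃ₜ S) '' K) = (g ^ ((N : ℤ) + j) : S ≃ₜ S) '' K := by
          rw [zpow_add, zpow_natCast, ← image_comp]
          rfl
        rw [himg] at k1 k2
        exact ⟨(N : ℤ) + j, _, _, k1, k2, rfl⟩
      have e2 : d ((G⁻¹ ^ N) x) ((G⁻¹ ^ N) y) ≤ sSup Z := by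
        apply le_csSup hbd
        obtain ⟨k1, k2⟩ := shift (G⁻¹ ^ N) (g⁻¹ ^ N) (hGn' N) _ x y hx hy
        have himg : (g⁻¹ ^ N : S ≃ₜ S) '' ((g ^ j : S ≃ₜ S) '' K)
            = (g ^ (-(N : ℤ) + j) : S ≃ₜ S) '' K := by
          rw [zpow_add, zpow_neg, zpow_natCast, ← inv_pow, ← image_comp]
          rfl
        rw [himg] at k1 k2
        exact ⟨-(N : ℤ) + j, _, _, k1, k2, rfl⟩
      have h1 := hexp x y
      have h2 := h.triangle ((ψ ^ N) x) ((G ^ N) x) ((ψ ^ N) y)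
      have h3 := h.triangle ((G ^ N) x) ((G ^ N) y) ((ψ ^ N) y)
      have h4 := h.triangle ((ψ⁻¹ ^ N) x) ((G⁻¹ ^ N) x) ((ψ⁻¹ ^ N) y)
      have h5 := h.triangle ((G⁻¹ ^ N) x) ((G⁻¹ ^ N) y) ((ψ⁻¹ ^ N) y)
      have h6 := hC x
      have h7 := hC y
      have h8 := hC' x
      have h9 := hC' y
      rw [h.comm] at h7 h9
      linarith
    have := le_csSup hbd hs
    linarith
  -- conclusion
  apply absurd hK
  rw [not_lt]
  apply iSup_le
  intro j
  apply iSup₂_le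
  intro x hx
  apply Metric.ediam_le
  intro a ha b hb
  have h1 : connectedComponentIn (π ⁻¹' ((g ^ j : S ≃ₜ S) '' K)) x
      = connectedComponentIn (π ⁻¹' ((g ^ j : S ≃ₜ S) '' K)) a := connectedComponentIn_eq ha
  rw [h1] at hb
  have h2 : d a b ≤ 2 * C := hZC _ ⟨j, a, b, connectedComponentIn_subset _ _ ha, hb, rfl⟩
  rw [edist_dist]
  exact ENNReal.ofReal_le_ofReal ((hM a b h2).trans (le_max_left _ _))

end

end Pool.Agent.Lib.MP_af0b91_an
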