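import Mathlib

set_option autoImplicit false

namespace Pool.Agent.Lib.MP_af0b91_an

open InnerProductGeometry Filter Topology

/-! ### The cone metric on the complex plane, in the coordinate `z` with flat coordinate `z ^ κ` -/

/-- Radial coordinate. -/
noncomputable def rad (κ : ℝ) (z : ℂ) : ℝ := ‖z‖ ^ κ

/-- Truncated cone angle. -/
noncomputable def trang (κ : ℝ) (z w : ℂ) : ℝ :=
  min Real.pi (κ * InnerProductGeometry.angle z w)

/-- Squared cone distance. -/
noncomputable def csq (κ : ℝ) (z w : ℂ) : ℝ :=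
  rad κ z ^ 2 + rad κ w ^ 2 - 2 * rad κ z * rad κ w * Real.cos (trang κ z w)

/-- Cone distance. -/
noncomputable def cdist (κ : ℝ) (z w : ℂ) : ℝ := Real.sqrt (csq κ z w)

lemma rad_nonneg (κ : ℝ) (z : ℂ) : 0 ≤ rad κ z := by unfold rad; positivity

lemma rad_zero {κ : ℝ} (hκ : 1 ≤ κ) : rad κ 0 = 0 := by
  unfold rad
  rw [norm_zero, Real.zero_rpow (by linarith)]

lemma rad_pos {κ : ℝ} {z : ℂ} (hz : z ≠ 0) : 0 < rad κ z := by
  unfold rad
  exact Real.rpow_pos_of_pos (norm_pos_iff.mpr hz) _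

lemma rad_eq_zero {κ : ℝ} {z : ℂ} (h : rad κ z = 0) : z = 0 := by
  by_contra hz
  exact (rad_pos (κ := κ) hz).ne' h

lemma continuous_rad {κ : ℝ} (hκ : 1 ≤ κ) : Continuous (rad κ) := by
  unfold rad
  exact continuous_norm.rpow_const (fun _ => Or.inr (by linarith))

lemma norm_le_of_rad_le {κ : ℝ} (hκ : 1 ≤ κ) {z w : ℂ} (h : rad κ z ≤ rad κ w) : ‖z‖ ≤ ‖w‖ := by
  unfold rad at h
  exact (Real.rpow_le_rpow_iff (norm_nonneg _) (norm_nonneg _) (by linarith)).mp h

lemma trang_nonneg {κ : ℝ} (hκ : 1 ≤ κ) (z w : ℂ) : 0 ≤ trang κ z w := by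
  unfold trang
  have := InnerProductGeometry.angle_nonneg z w
  have := Real.pi_pos
  apply le_min this.le
  positivity

lemma trang_le_pi (κ : ℝ) (z w : ℂ) : trang κ z w ≤ Real.pi := min_le_left _ _

lemma trang_comm (κ : ℝ) (z w : ℂ) : trang κ z w = trang κ w z := by
  unfold trang
  rw [InnerProductGeometry.angle_comm]

lemma csq_eq (κ : ℝ) (z w : ℂ) :
    csq κ z w = (rad κ z - rad κ w) ^ 2
      + 2 * rad κ z * rad κ w * (1 - Real.cos (trang κ z w)) := by
  unfold csq; ring

lemma csq_nonneg (κ : ℝ) (z w : ℂ) : 0 ≤ csq κ z w := by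
  rw [csq_eq]
  have h1 := rad_nonneg κ z
  have h2 := rad_nonneg κ w
  have h3 := Real.cos_le_one (trang κ z w)
  have : 0 ≤ 1 - Real.cos (trang κ z w) := by linarith
  positivity

lemma cdist_nonneg (κ : ℝ) (z w : ℂ) : 0 ≤ cdist κ z w := Real.sqrt_nonneg _

lemma cdist_sq (κ : ℝ) (z w : ℂ) : cdist κ z w ^ 2 = csq κ z w := Real.sq_sqrt (csq_nonneg κ z w)

lemma csq_comm (κ : ℝ) (z w : ℂ) : csq κ z w = csq κ w z := by
  unfold csq
  rw [trang_comm κ z w]
  ring

lemma cdist_comm (κ : ℝ) (z w : ℂ) : cdist κ z w = cdist κ w z := by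
  unfold cdist; rw [csq_comm]

lemma csq_self {κ : ℝ} (hκ : 1 ≤ κ) (z : ℂ) : csq κ z z = 0 := by
  by_cases hz : z = 0
  · subst hz
    unfold csq
    rw [rad_zero hκ]; ring
  · have h0 : trang κ z z = 0 := by
      unfold trang
      rw [InnerProductGeometry.angle_self hz, mul_zero]
      exact min_eq_right Real.pi_pos.le
    rw [csq_eq, h0, Real.cos_zero]; ring

lemma cdist_self {κ : ℝ} (hκ : 1 ≤ κ) (z : ℂ) : cdist κ z z = 0 := by
  unfold cdist; rw [csq_self hκ, Real.sqrt_zero]

lemma csq_zero_left {κ : ℝ} (hκ : 1 ≤ κ) (z : ℂ) : csq κ 0 z = rad κ z ^ 2 := by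
  unfold csq; rw [rad_zero hκ]; ring

lemma abs_rad_sub_le (κ : ℝ) (z w : ℂ) : |rad κ z - rad κ w| ≤ cdist κ z w := by
  unfold cdist
  apply Real.le_sqrt_of_sq_le
  rw [sq_abs, csq_eq]
  have h1 := rad_nonneg κ z
  have h2 := rad_nonneg κ w
  have h3 := Real.cos_le_one (trang κ z w)
  have : 0 ≤ 2 * rad κ z * rad κ w * (1 - Real.cos (trang κ z w)) := by
    have : 0 ≤ 1 - Real.cos (trang κ z w) := by linarith
    positivity
  linarith

lemma cdist_le_add (κ : ℝ) (z w : ℂ) : cdist κ z w ≤ rad κ z + rad κ w := by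
  unfold cdist
  have h1 := rad_nonneg κ z
  have h2 := rad_nonneg κ w
  rw [Real.sqrt_le_left (by positivity)]
  unfold csq
  have h3 := Real.neg_one_le_cos (trang κ z w)
  nlinarith [mul_nonneg h1 h2]

/-- `csq` vanishes only on the diagonal. -/
lemma eq_of_cdist_eq_zero {κ : ℝ} (hκ : 1 ≤ κ) {z w : ℂ} (h : cdist κ z w = 0) : z = w := by
  have h1 := abs_rad_sub_le κ z w
  rw [h] at h1
  have hr : rad κ z = rad κ w := by
    have := abs_nonpos_iff.mp h1
    linarith
  have hn : ‖z‖ = ‖w‖ := le_antisymm (norm_le_of_rad_le hκ hr.le) (norm_le_of_rad_le hκ hr.ge)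
  by_cases hz : z = 0
  · subst hz
    rw [norm_zero] at hn
    exact (norm_eq_zero.mp hn.symm).symm
  · have hw : w ≠ 0 := by
      intro hw
      apply hz
      rw [hw, norm_zero] at hn
      exact norm_eq_zero.mp hn
    have h2 : csq κ z w = 0 := by
      rw [← cdist_sq, h]; ring
    rw [csq_eq, hr] at h2
    have hrw : 0 < rad κ w := rad_pos hw
    have h3 : Real.cos (trang κ z w) = 1 := by
      have h4 : 2 * rad κ w * rad κ w * (1 - Real.cos (trang κ z w)) = 0 := by
        nlinarith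
      have h5 : 1 - Real.cos (trang κ z w) = 0 := by
        rcases mul_eq_zero.mp h4 with h6 | h6
        · exfalso
          have : 0 < 2 * rad κ w * rad κ w := by positivity
          linarith
        · exact h6
      linarith
    have h4 : trang κ z w = 0 := by
      have h5 := trang_nonneg hκ z w
      have h6 := trang_le_pi κ z w
      have := Real.injOn_cos (x₁ := trang κ z w) (x₂ := 0) ⟨h5, h6⟩ ⟨le_rfl, Real.pi_pos.le⟩
        (by rw [h3, Real.cos_zero])
      exact this
    have h5 : InnerProductGeometry.angle z w = 0 := by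
      unfold trang at h4
      have h6 := InnerProductGeometry.angle_nonneg z w
      by_contra hne
      have h7 : 0 < InnerProductGeometry.angle z w := lt_of_le_of_ne h6 (Ne.symm hne)
      have h8 : 0 < min Real.pi (κ * InnerProductGeometry.angle z w) := by
        apply lt_min Real.pi_pos
        positivity
      linarith
    rw [InnerProductGeometry.angle_eq_zero_iff] at h5
    obtain ⟨-, t, ht, rfl⟩ := h5
    rw [norm_smul, Real.norm_of_nonneg ht.le] at hn
    have hzn : 0 < ‖z‖ := norm_pos_iff.mpr hz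
    have : t = 1 := by
      have h9 : (t - 1) * ‖z‖ = 0 := by linarith
      rcases mul_eq_zero.mp h9 with h10 | h10
      · linarith
      · exact absurd h10 hzn.ne'
    rw [this, one_smul]

/-- The law of cosines version of the triangle inequality. -/
lemma tri_real {a b c α β γ : ℝ} (ha : 0 ≤ a) (hb : 0 ≤ b) (hc : 0 ≤ c)
    (hα0 : 0 ≤ α) (hα : α ≤ Real.pi) (hβ0 : 0 ≤ β) (hβ : β ≤ Real.pi)
    (hγ0 : 0 ≤ γ) (hγ : γ ≤ Real.pi) (h : γ ≤ α + β) :
    Real.sqrt (a ^ 2 + c ^ 2 - 2 * a * c * Real.cos γ)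
      ≤ Real.sqrt (a ^ 2 + b ^ 2 - 2 * a * b * Real.cos α)
        + Real.sqrt (b ^ 2 + c ^ 2 - 2 * b * c * Real.cos β) := by
  rcases le_or_gt (α + β) Real.pi with hle | hgt
  · -- flat case
    set z1 : ℂ := ⟨a, 0⟩
    set z2 : ℂ := ⟨b * Real.cos α, b * Real.sin α⟩
    set z3 : ℂ := ⟨c * Real.cos (α + β), c * Real.sin (α + β)⟩
    have e12 : ‖z1 - z2‖ = Real.sqrt (a ^ 2 + b ^ 2 - 2 * a * b * Real.cos α) := by
      rw [Complex.norm_def, Complex.normSq_apply]
      congr 1
      simp only [z1, z2, Complex.sub_re, Complex.sub_im]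
      have := Real.sin_sq_add_cos_sq α
      nlinarith
    have e23 : ‖z2 - z3‖ = Real.sqrt (b ^ 2 + c ^ 2 - 2 * b * c * Real.cos β) := by
      rw [Complex.norm_def, Complex.normSq_apply]
      congr 1
      simp only [z2, z3, Complex.sub_re, Complex.sub_im]
      have h1 := Real.sin_sq_add_cos_sq α
      have h2 := Real.sin_sq_add_cos_sq (α + β)
      have h3 : Real.cos β = Real.cos (α + β) * Real.cos α + Real.sin (α + β) * Real.sin α := by
        rw [← Real.cos_sub]; congr 1; ring
      rw [h3]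
      linear_combination (b ^ 2) * h1 + (c ^ 2) * h2
    have e13 : ‖z1 - z3‖ = Real.sqrt (a ^ 2 + c ^ 2 - 2 * a * c * Real.cos (α + β)) := by
      rw [Complex.norm_def, Complex.normSq_apply]
      congr 1
      simp only [z1, z3, Complex.sub_re, Complex.sub_im]
      have := Real.sin_sq_add_cos_sq (α + β)
      nlinarith
    have hcos : Real.cos (α + β) ≤ Real.cos γ :=
      Real.cos_le_cos_of_nonneg_of_le_pi hγ0 hle h
    calc Real.sqrt (a ^ 2 + c ^ 2 - 2 * a * c * Real.cos γ)
        ≤ Real.sqrt (a ^ 2 + c ^ 2 - 2 * a * c * Real.cos (α + β)) := by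
          apply Real.sqrt_le_sqrt
          have : 0 ≤ 2 * a * c := by positivity
          nlinarith
      _ = ‖z1 - z3‖ := e13.symm
      _ = ‖(z1 - z2) + (z2 - z3)‖ := by ring_nf
      _ ≤ ‖z1 - z2‖ + ‖z2 - z3‖ := norm_add_le _ _
      _ = _ := by rw [e12, e23]
  · -- through the apex
    have hcs : Real.cos α + Real.cos β ≤ 0 := by
      have h1 : Real.cos β ≤ Real.cos (Real.pi - α) :=
        Real.cos_le_cos_of_nonneg_of_le_pi (by linarith) hβ (by linarith)
      rw [Real.cos_pi_sub] at h1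
      linarith
    have h12 : a - b * Real.cos α ≤ Real.sqrt (a ^ 2 + b ^ 2 - 2 * a * b * Real.cos α) := by
      apply Real.le_sqrt_of_sq_le
      have := Real.sin_sq_add_cos_sq α
      nlinarith [sq_nonneg (b * Real.sin α)]
    have h23 : c - b * Real.cos β ≤ Real.sqrt (b ^ 2 + c ^ 2 - 2 * b * c * Real.cos β) := by
      apply Real.le_sqrt_of_sq_le
      have := Real.sin_sq_add_cos_sq β
      nlinarith [sq_nonneg (b * Real.sin β)]
    have h13 : Real.sqrt (a ^ 2 + c ^ 2 - 2 * a * c * Real.cos γ) ≤ a + c := by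
      rw [Real.sqrt_le_left (by positivity)]
      have := Real.neg_one_le_cos γ
      nlinarith [mul_nonneg ha hc]
    nlinarith

lemma trang_triangle {κ : ℝ} (hκ : 1 ≤ κ) (z w v : ℂ) :
    trang κ z v ≤ trang κ z w + trang κ w v := by
  have h1 := InnerProductGeometry.angle_le_angle_add_angle z w v
  have h2 := InnerProductGeometry.angle_nonneg z w
  have h3 := InnerProductGeometry.angle_nonneg w v
  unfold trang
  have hk : 0 ≤ κ := by linarith
  have h4 : κ * angle z v ≤ κ * angle z w + κ * angle w v := by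
    rw [← mul_add]; gcongr
  have h5 : 0 ≤ κ * angle z w := by positivity
  have h6 : 0 ≤ κ * angle w v := by positivity
  have hpi := Real.pi_pos
  rcases le_total Real.pi (κ * angle z w) with h7 | h7
  · rw [min_eq_left h7]
    have : 0 ≤ min Real.pi (κ * angle w v) := le_min hpi.le h6
    linarith [min_le_left Real.pi (κ * angle z v)]
  · rcases le_total Real.pi (κ * angle w v) with h8 | h8
    · rw [min_eq_left h8]
      have : 0 ≤ min Real.pi (κ * angle z w) := le_min hpi.le h5
      linarith [min_le_left Real.pi (κ * angle z v)]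
    · rw [min_eq_right h7, min_eq_right h8]
      exact (min_le_right _ _).trans h4

lemma cdist_triangle {κ : ℝ} (hκ : 1 ≤ κ) (z w v : ℂ) :
    cdist κ z v ≤ cdist κ z w + cdist κ w v :=
  tri_real (rad_nonneg _ _) (rad_nonneg _ _) (rad_nonneg _ _)
    (trang_nonneg hκ _ _) (trang_le_pi _ _ _) (trang_nonneg hκ _ _) (trang_le_pi _ _ _)
    (trang_nonneg hκ _ _) (trang_le_pi _ _ _) (trang_triangle hκ z w v)

/-! ### Topology -/

lemma continuous_csq_right {κ : ℝ} (hκ : 1 ≤ κ) (z : ℂ) : Continuous (fun w => csq κ z w) := by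
  rw [continuous_iff_continuousAt]
  intro w
  by_cases hz : z = 0
  · subst hz
    simp_rw [csq_zero_left hκ]
    exact ((continuous_rad hκ).pow 2).continuousAt
  by_cases hw : w = 0
  · subst hw
    have h0 : csq κ z 0 = rad κ z ^ 2 := by rw [csq_comm, csq_zero_left hκ]
    unfold ContinuousAt
    simp only [h0]
    have h1 : Tendsto (fun w => rad κ w) (𝓝 0) (𝓝 0) := by
      have := (continuous_rad hκ).tendsto 0
      rwa [rad_zero hκ] at this
    have h2 : Tendsto (fun w => 2 * rad κ z * rad κ w * Real.cos (trang κ z w)) (𝓝 0) (𝓝 0) := by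
      apply squeeze_zero_norm (a := fun w => 2 * rad κ z * rad κ w)
      · intro w
        rw [norm_mul]
        have h3 : ‖Real.cos (trang κ z w)‖ ≤ 1 := Real.abs_cos_le_one _
        have h4 := rad_nonneg κ z
        have h5 := rad_nonneg κ w
        rw [Real.norm_of_nonneg (by positivity : 0 ≤ 2 * rad κ z * rad κ w)]
        have : 0 ≤ 2 * rad κ z * rad κ w := by positivity
        nlinarith
      · have := h1.const_mul (2 * rad κ z)
        simpa using this
    have h3 : Tendsto (fun w => rad κ z ^ 2 + rad κ w ^ 2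
        - 2 * rad κ z * rad κ w * Real.cos (trang κ z w)) (𝓝 0) (𝓝 (rad κ z ^ 2 + 0 ^ 2 - 0)) :=
      ((tendsto_const_nhds).add (h1.pow 2)).sub h2
    have h4 : rad κ z ^ 2 + 0 ^ 2 - 0 = rad κ z ^ 2 := by ring
    rw [h4] at h3
    exact h3
  · have h1 : ContinuousAt (fun w => angle z w) w := by
      have := (InnerProductGeometry.continuousAt_angle (x := (z, w)) hz hw)
      exact ContinuousAt.comp (f := fun w => (z, w)) this (by fun_prop)
    have h2 : ContinuousAt (rad κ) w := (continuous_rad hκ).continuousAt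
    unfold csq trang
    apply ContinuousAt.sub
    · exact continuousAt_const.add (h2.pow 2)
    · apply ContinuousAt.mul
      · exact continuousAt_const.mul h2
      · apply Real.continuous_cos.continuousAt.comp
        exact continuousAt_const.min (continuousAt_const.mul h1)

lemma continuous_cdist_right {κ : ℝ} (hκ : 1 ≤ κ) (z : ℂ) : Continuous (fun w => cdist κ z w) :=
  Real.continuous_sqrt.comp (continuous_csq_right hκ z)

lemma cdist_ball_mem_nhds {κ : ℝ} (hκ : 1 ≤ κ) (z : ℂ) {ε : ℝ} (hε : 0 < ε) :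
    {w | cdist κ z w < ε} ∈ 𝓝 z := by
  have h : Tendsto (fun w => cdist κ z w) (𝓝 z) (𝓝 (cdist κ z z)) :=
    (continuous_cdist_right hκ z).tendsto z
  rw [cdist_self hκ] at h
  exact h.eventually_lt_const hε

lemma tendsto_rad_cocompact {κ : ℝ} (hκ : 1 ≤ κ) : Tendsto (rad κ) (cocompact ℂ) atTop := by
  unfold rad
  exact (tendsto_rpow_atTop (by linarith)).comp tendsto_norm_cocompact_atTop

lemma exists_cdist_ball_subset {κ : ℝ} (hκ : 1 ≤ κ) (z : ℂ) {U : Set ℂ} (hU : U ∈ 𝓝 z) :
    ∃ ε > 0, ∀ w, cdist κ z w < ε → w ∈ U := by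
  obtain ⟨V, hVU, hVo, hzV⟩ := mem_nhds_iff.mp hU
  have h1 : ∀ᶠ w in cocompact ℂ, rad κ z + 1 ≤ rad κ w :=
    (tendsto_rad_cocompact hκ).eventually_ge_atTop _
  rw [Filter.eventually_iff, mem_cocompact] at h1
  obtain ⟨K, hK, hKc⟩ := h1
  have hKV : IsCompact (K \ V) := hK.diff hVo
  rcases (K \ V).eq_empty_or_nonempty with hemp | hne
  · refine ⟨1, one_pos, fun w hw => hVU ?_⟩
    by_contra hwV
    have hwK : w ∉ K := fun hwK => by
      have : w ∈ K \ V := ⟨hwK, hwV⟩
      rw [hemp] at this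
      exact this
    have h2 : rad κ z + 1 ≤ rad κ w := hKc hwK
    have h3 := abs_rad_sub_le κ z w
    have h4 := neg_abs_le (rad κ z - rad κ w)
    linarith
  · obtain ⟨w0, hw0, hmin⟩ := hKV.exists_isMinOn hne (continuous_cdist_right hκ z).continuousOn
    have hpos : 0 < cdist κ z w0 := by
      refine lt_of_le_of_ne (cdist_nonneg _ _ _) (fun h => ?_)
      have := eq_of_cdist_eq_zero hκ h.symm
      exact hw0.2 (this ▸ hzV)
    refine ⟨min 1 (cdist κ z w0), lt_min one_pos hpos, fun w hw => hVU ?_⟩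
    by_contra hwV
    by_cases hwK : w ∈ K
    · have := hmin (show w ∈ K \ V from ⟨hwK, hwV⟩)
      simp only [Set.mem_ofPred_eq] at this
      linarith [min_le_right 1 (cdist κ z w0)]
    · have h2 : rad κ z + 1 ≤ rad κ w := hKc hwK
      have h3 := abs_rad_sub_le κ z w
      have h4 := neg_abs_le (rad κ z - rad κ w)
      linarith [min_le_left 1 (cdist κ z w0)]

lemma isCompact_cdist_closedBall {κ : ℝ} (hκ : 1 ≤ κ) (z : ℂ) (R : ℝ) :
    IsCompact {w | cdist κ z w ≤ R} := by
  have hclosed : IsClosed {w | cdist κ z w ≤ R} :=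
    isClosed_le (continuous_cdist_right hκ z) continuous_const
  have h1 : ∀ᶠ w in cocompact ℂ, rad κ z + R + 1 ≤ rad κ w :=
    (tendsto_rad_cocompact hκ).eventually_ge_atTop _
  rw [Filter.eventually_iff, mem_cocompact] at h1
  obtain ⟨K, hK, hKc⟩ := h1
  refine hK.of_isClosed_subset hclosed (fun w hw => ?_)
  by_contra hwK
  have h2 : rad κ z + R + 1 ≤ rad κ w := hKc hwK
  have h3 := abs_rad_sub_le κ z w
  have h4 := neg_abs_le (rad κ z - rad κ w)
  have h5 : cdist κ z w ≤ R := hw
  linarith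

end Pool.Agent.Lib.MP_af0b91_an
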