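import Pool.Agent.Lib.MP_af0b91_an.Cone

set_option autoImplicit false

namespace Pool.Agent.Lib.MP_af0b91_an

open InnerProductGeometry Filter Topology

lemma key_ineq {κ ra rb M α β γ μ ν : ℝ} (hκ : 1 ≤ κ) (hra : 0 ≤ ra) (hrb : 0 ≤ rb)
    (hμ0 : 0 ≤ μ) (hν0 : 0 ≤ ν) (hμν : μ + ν < Real.pi)
    (h1 : ra * Real.cos μ + rb * Real.cos ν = 2 * M) (h2 : ra * Real.sin μ = rb * Real.sin ν)
    (hγ0 : 0 ≤ γ) (hγ : γ ≤ κ * Real.pi)
    (hα : min (γ + μ) (2 * Real.pi * κ - (γ + μ)) ≤ α) (hβ : |γ - ν| ≤ β) :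
    ra * Real.cos (min Real.pi α) + rb * Real.cos (min Real.pi β)
      ≤ 2 * M * Real.cos (min Real.pi γ) := by
  have hpi := Real.pi_pos
  rcases le_or_gt γ Real.pi with hle | hgt
  · rw [min_eq_right hle]
    have hca : Real.cos (min Real.pi α) ≤ Real.cos (γ + μ) := by
      rcases le_or_gt (γ + μ) Real.pi with h3 | h3
      · have h4 : γ + μ ≤ α := by
          refine le_trans ?_ hα
          apply le_min le_rfl
          nlinarith
        exact Real.cos_le_cos_of_nonneg_of_le_pi (by linarith) (min_le_left _ _) (le_min h3 h4)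
      · have h4 : 2 * Real.pi - (γ + μ) ≤ α := by
          refine le_trans ?_ hα
          apply le_min
          · linarith
          · nlinarith
        have h5 : Real.cos (γ + μ) = Real.cos (2 * Real.pi - (γ + μ)) := by
          rw [Real.cos_two_pi_sub]
        rw [h5]
        exact Real.cos_le_cos_of_nonneg_of_le_pi (by linarith) (min_le_left _ _)
          (le_min (by linarith) h4)
    have hcb : Real.cos (min Real.pi β) ≤ Real.cos (γ - ν) := by
      rw [← Real.cos_abs (γ - ν)]
      refine Real.cos_le_cos_of_nonneg_of_le_pi (abs_nonneg _) (min_le_left _ _)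
        (le_min ?_ hβ)
      rw [abs_le]
      constructor <;> linarith
    calc ra * Real.cos (min Real.pi α) + rb * Real.cos (min Real.pi β)
        ≤ ra * Real.cos (γ + μ) + rb * Real.cos (γ - ν) := by gcongr
      _ = (ra * Real.cos μ + rb * Real.cos ν) * Real.cos γ
          + Real.sin γ * (rb * Real.sin ν - ra * Real.sin μ) := by
            rw [Real.cos_add, Real.cos_sub]; ring
      _ = 2 * M * Real.cos γ := by rw [h1, h2]; ring
  · rw [min_eq_left hgt.le, Real.cos_pi]
    have hca : Real.cos (min Real.pi α) ≤ - Real.cos μ := by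
      rw [← Real.cos_pi_sub]
      refine Real.cos_le_cos_of_nonneg_of_le_pi (by linarith) (min_le_left _ _)
        (le_min (by linarith) ?_)
      refine le_trans ?_ hα
      apply le_min
      · linarith
      · nlinarith
    have hcb : Real.cos (min Real.pi β) ≤ - Real.cos ν := by
      rw [← Real.cos_pi_sub]
      refine Real.cos_le_cos_of_nonneg_of_le_pi (by linarith) (min_le_left _ _)
        (le_min (by linarith) ?_)
      refine le_trans ?_ hβ
      refine le_trans ?_ (le_abs_self _)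
      linarith
    calc ra * Real.cos (min Real.pi α) + rb * Real.cos (min Real.pi β)
        ≤ ra * (- Real.cos μ) + rb * (- Real.cos ν) := by gcongr
      _ = 2 * M * (-1) := by rw [← h1]; ring

lemma cos_angle_exp (x y : ℝ) :
    Real.cos (angle (Complex.exp (x * Complex.I)) (Complex.exp (y * Complex.I)))
      = Real.cos (x - y) := by
  rw [InnerProductGeometry.cos_angle, Complex.inner]
  rw [Complex.norm_exp_ofReal_mul_I, Complex.norm_exp_ofReal_mul_I]
  rw [← Complex.exp_conj, ← Complex.exp_add]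
  simp only [map_mul, Complex.conj_ofReal, Complex.conj_I, mul_one, div_one]
  have : (y : ℂ) * Complex.I + x * -Complex.I = ((y - x : ℝ) : ℂ) * Complex.I := by
    push_cast; ring
  rw [this, Complex.exp_ofReal_mul_I_re, ← Real.cos_neg]
  congr 1; ring

lemma cos_angle_polar {m : ℂ} (hm : m ≠ 0) {ρ σ : ℝ} (hρ : 0 < ρ) (hσ : 0 < σ) (x y : ℝ) :
    Real.cos (angle (m * (ρ * Complex.exp (x * Complex.I))) (m * (σ * Complex.exp (y * Complex.I))))
      = Real.cos (x - y) := by
  rw [Complex.angle_mul_left hm]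
  have h1 : (ρ : ℂ) * Complex.exp (x * Complex.I) = ρ • Complex.exp (x * Complex.I) := by
    rw [Complex.real_smul]
  have h2 : (σ : ℂ) * Complex.exp (y * Complex.I) = σ • Complex.exp (y * Complex.I) := by
    rw [Complex.real_smul]
  rw [h1, h2, InnerProductGeometry.angle_smul_left_of_pos _ _ hρ,
    InnerProductGeometry.angle_smul_right_of_pos _ _ hσ, cos_angle_exp]

lemma eq_min_of_cos_eq {θ t : ℝ} (h0 : 0 ≤ θ) (h1 : θ ≤ Real.pi) (ht0 : 0 ≤ t)
    (ht : t ≤ 2 * Real.pi) (h : Real.cos θ = Real.cos t) : θ = min t (2 * Real.pi - t) := by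
  rcases le_total t Real.pi with h2 | h2
  · rw [min_eq_left (by linarith)]
    exact Real.injOn_cos ⟨h0, h1⟩ ⟨ht0, h2⟩ h
  · rw [min_eq_right (by linarith)]
    apply Real.injOn_cos ⟨h0, h1⟩ ⟨by linarith, by linarith⟩
    rw [h, Real.cos_two_pi_sub]

lemma eq_abs_of_cos_eq {θ t : ℝ} (h0 : 0 ≤ θ) (h1 : θ ≤ Real.pi)
    (ht : |t| ≤ Real.pi) (h : Real.cos θ = Real.cos t) : θ = |t| := by
  apply Real.injOn_cos ⟨h0, h1⟩ ⟨abs_nonneg _, ht⟩
  rw [h, Real.cos_abs]

/-- The key inequality for three points in a sector seen from a fourth. -/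
lemma key_sector {κ : ℝ} (hκ : 1 ≤ κ) {m : ℂ} (hm : m ≠ 0) {ρ1 ρ2 μ ν ra rb M : ℝ}
    (hρ1 : 0 < ρ1) (hρ2 : 0 < ρ2) (hμ0 : 0 ≤ μ) (hν0 : 0 ≤ ν) (hμν : κ * (μ + ν) < Real.pi)
    (hra : 0 ≤ ra) (hrb : 0 ≤ rb)
    (h1 : ra * Real.cos (κ * μ) + rb * Real.cos (κ * ν) = 2 * M)
    (h2 : ra * Real.sin (κ * μ) = rb * Real.sin (κ * ν)) (p : ℂ) (hp : p ≠ 0) :
    ra * Real.cos (trang κ p (m * (ρ1 * Complex.exp ((-μ : ℝ) * Complex.I))))
      + rb * Real.cos (trang κ p (m * (ρ2 * Complex.exp ((ν : ℝ) * Complex.I))))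
      ≤ 2 * M * Real.cos (trang κ p m) := by
  have hpi := Real.pi_pos
  have hk0 : 0 < κ := by linarith
  have hμν' : μ + ν < Real.pi := by nlinarith
  set a := m * (ρ1 * Complex.exp ((-μ : ℝ) * Complex.I)) with ha
  set b := m * (ρ2 * Complex.exp ((ν : ℝ) * Complex.I)) with hb
  set x := (p / m).arg with hx
  set ρ := ‖p / m‖ with hρ
  have hρ0 : 0 < ρ := by
    rw [hρ]; exact norm_pos_iff.mpr (div_ne_zero hp hm)
  have hpm : p = m * (ρ * Complex.exp (x * Complex.I)) := by
    rw [hρ, hx, Complex.norm_mul_exp_arg_mul_I]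
    field_simp
  have hx1 : |x| ≤ Real.pi := Complex.abs_arg_le_pi _
  have hm1 : m = m * ((1 : ℝ) * Complex.exp ((0 : ℝ) * Complex.I)) := by simp
  -- angles
  have hang_pm : angle p m = |x| := by
    apply eq_abs_of_cos_eq (angle_nonneg _ _) (angle_le_pi _ _) hx1
    conv_lhs => rw [hpm, hm1]
    rw [show m * ((1 : ℝ) * Complex.exp ((0 : ℝ) * Complex.I)) = m by simp]
    have := cos_angle_polar hm hρ0 one_pos x 0
    rw [sub_zero] at this
    rw [← this]
    simp
  have hang_am : angle a m = μ := by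
    have h3 : angle a m = |-μ| := by
      apply eq_abs_of_cos_eq (angle_nonneg _ _) (angle_le_pi _ _)
      · rw [abs_neg, abs_of_nonneg hμ0]; linarith
      have := cos_angle_polar hm hρ1 one_pos (-μ) 0
      rw [sub_zero] at this
      rw [← this]
      simp [ha]
    rw [h3, abs_neg, abs_of_nonneg hμ0]
  have hang_bm : angle b m = ν := by
    have h3 : angle b m = |ν| := by
      apply eq_abs_of_cos_eq (angle_nonneg _ _) (angle_le_pi _ _)
      · rw [abs_of_nonneg hν0]; linarith
      have := cos_angle_polar hm hρ2 one_pos ν 0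
      rw [sub_zero] at this
      rw [← this]
      simp [hb]
    rw [h3, abs_of_nonneg hν0]
  have t1 := angle_le_angle_add_angle p a m
  have t2 := angle_le_angle_add_angle a p m
  have t3 := angle_le_angle_add_angle p b m
  have t4 := angle_le_angle_add_angle b p m
  rw [angle_comm a p] at t2
  rw [angle_comm b p] at t4
  rw [hang_am, hang_pm] at t1 t2
  rw [hang_bm, hang_pm] at t3 t4
  unfold trang
  rw [hang_pm]
  rcases le_total 0 x with hx0 | hx0
  · have hang_pa : angle p a = min (x + μ) (2 * Real.pi - (x + μ)) := by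
      rw [abs_of_nonneg hx0] at hx1
      apply eq_min_of_cos_eq (angle_nonneg _ _) (angle_le_pi _ _) (by linarith) (by linarith)
      have := cos_angle_polar hm hρ0 hρ1 x (-μ)
      rw [hpm, ha, this]
      congr 1; ring
    rw [abs_of_nonneg hx0] at t3 t4 hx1 ⊢
    apply key_ineq hκ hra hrb (by positivity) (by positivity) (by rw [← mul_add]; exact hμν) h1 h2
      (by positivity) (by gcongr)
    · rw [hang_pa, mul_min_of_nonneg _ _ hk0.le]
      apply le_of_eq
      congr 1 <;> ring
    · rw [← mul_sub, abs_mul, abs_of_pos hk0]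
      gcongr
      rw [abs_le]; constructor <;> linarith
  · have hang_pb : angle p b = min (-x + ν) (2 * Real.pi - (-x + ν)) := by
      rw [abs_of_nonpos hx0] at hx1
      apply eq_min_of_cos_eq (angle_nonneg _ _) (angle_le_pi _ _) (by linarith) (by linarith)
      have := cos_angle_polar hm hρ0 hρ2 x ν
      rw [hpm, hb, this, ← Real.cos_neg]
      congr 1; ring
    rw [abs_of_nonpos hx0] at t1 t2 hx1 ⊢
    rw [add_comm]
    apply key_ineq hκ hrb hra (by positivity) (by positivity)
      (by rw [← mul_add, add_comm]; exact hμν) (by rw [← h1]; ring) h2.symm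
      (by have : 0 ≤ -x := by linarith
          positivity) (by gcongr)
    · rw [hang_pb, mul_min_of_nonneg _ _ hk0.le]
      apply le_of_eq
      congr 1 <;> ring
    · rw [← mul_sub, abs_mul, abs_of_pos hk0]
      gcongr
      rw [abs_le]; constructor <;> linarith

/-- Solving for the midpoint of two vectors in polar form. -/
lemma exists_polar_mid {ra rb δ : ℝ} (hra : 0 < ra) (hrb : 0 < rb) (hδ0 : 0 ≤ δ)
    (hδ : δ < Real.pi) :
    ∃ M μ : ℝ, 0 < M ∧ 0 ≤ μ ∧ μ ≤ δ ∧ ra * Real.cos μ + rb * Real.cos (δ - μ) = 2 * M ∧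
      ra * Real.sin μ = rb * Real.sin (δ - μ) ∧ 4 * M ^ 2 = ra ^ 2 + rb ^ 2 + 2 * ra * rb * Real.cos δ ∧
      2 * M ≤ ra + rb := by
  have hpi := Real.pi_pos
  set v : ℂ := ⟨ra + rb * Real.cos δ, rb * Real.sin δ⟩ with hv
  have hsin : 0 ≤ Real.sin δ := Real.sin_nonneg_of_nonneg_of_le_pi hδ0 hδ.le
  have hnsq : ‖v‖ ^ 2 = ra ^ 2 + rb ^ 2 + 2 * ra * rb * Real.cos δ := by
    rw [← Complex.normSq_eq_norm_sq, Complex.normSq_apply]
    simp only [hv]
    have := Real.sin_sq_add_cos_sq δ
    linear_combination (rb ^ 2) * this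
  have hcos : -1 < Real.cos δ := by
    rw [← Real.cos_pi]
    exact Real.cos_lt_cos_of_nonneg_of_le_pi hδ0 le_rfl hδ
  have hvpos : 0 < ‖v‖ := by
    have h1 : 0 < ‖v‖ ^ 2 := by
      rw [hnsq]
      have := mul_pos hra hrb
      nlinarith [sq_nonneg (ra - rb)]
    by_contra h
    have h2 : ‖v‖ = 0 := le_antisymm (not_lt.mp h) (norm_nonneg _)
    rw [h2] at h1
    norm_num at h1
  have hv0 : v ≠ 0 := norm_pos_iff.mp hvpos
  set μ := v.arg with hμ
  have hμ0 : 0 ≤ μ := by
    rw [hμ, Complex.arg_nonneg_iff]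
    simp only [hv]; positivity
  have hμpi : μ ≤ Real.pi := Complex.arg_le_pi _
  have hre : ‖v‖ * Real.cos μ = ra + rb * Real.cos δ := by
    rw [hμ, Complex.cos_arg hv0]
    field_simp
    rfl
  have him : ‖v‖ * Real.sin μ = rb * Real.sin δ := by
    rw [hμ, Complex.sin_arg]
    field_simp
    rfl
  have hs : ‖v‖ * Real.sin (δ - μ) = ra * Real.sin δ := by
    rw [Real.sin_sub]
    have := Real.sin_sq_add_cos_sq δ
    linear_combination (Real.sin δ) * hre - (Real.cos δ) * him
  have hμδ : μ ≤ δ := by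
    by_contra hcon
    have hlt := not_le.mp hcon
    have h3 : 0 ≤ Real.sin (δ - μ) := by
      have : 0 ≤ ‖v‖ * Real.sin (δ - μ) := by rw [hs]; positivity
      by_contra hneg
      have := mul_neg_of_pos_of_neg hvpos (not_le.mp hneg)
      linarith
    rcases (hμpi).eq_or_lt with h4 | h4
    · -- μ = π
      rw [h4, Real.cos_pi] at hre
      rw [h4, Real.sin_pi] at him
      have h5 : Real.sin δ = 0 := by
        have : rb * Real.sin δ = 0 := by rw [← him]; ring
        rcases mul_eq_zero.mp this with h6 | h6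
        · exact absurd h6 hrb.ne'
        · exact h6
      have h6 : δ = 0 := by
        rw [Real.sin_eq_zero_iff_of_lt_of_lt (by linarith) hδ] at h5
        exact h5
      rw [h6, Real.cos_zero] at hre
      nlinarith
    · have h5 : Real.sin (δ - μ) < 0 := by
        apply Real.sin_neg_of_neg_of_neg_pi_lt (by linarith) (by linarith)
      linarith
  have hcosdm : ra * Real.cos μ + rb * Real.cos (δ - μ) = ‖v‖ := by
    have h3 : ‖v‖ * (ra * Real.cos μ + rb * Real.cos (δ - μ)) = ‖v‖ * ‖v‖ := by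
      rw [Real.cos_sub]
      have h4 : ‖v‖ * ‖v‖ = ra ^ 2 + rb ^ 2 + 2 * ra * rb * Real.cos δ := by rw [← hnsq]; ring
      have := Real.sin_sq_add_cos_sq δ
      linear_combination (ra + rb * Real.cos δ) * hre + (rb * Real.sin δ) * him - h4
        + rb ^ 2 * this
    exact mul_left_cancel₀ hvpos.ne' h3
  refine ⟨‖v‖ / 2, μ, by positivity, hμ0, hμδ, ?_, ?_, ?_, ?_⟩
  · rw [hcosdm]; ring
  · have h3 : ‖v‖ * (ra * Real.sin μ) = ‖v‖ * (rb * Real.sin (δ - μ)) := by
      linear_combination ra * him - rb * hs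
    exact mul_left_cancel₀ hvpos.ne' h3
  · rw [← hnsq]; ring
  · have h3 : ‖v‖ ^ 2 ≤ (ra + rb) ^ 2 := by
      rw [hnsq]
      have := Real.cos_le_one δ
      nlinarith [mul_pos hra hrb]
    have h4 : ‖v‖ ≤ ra + rb := by
      apply le_of_sq_le_sq h3 (by positivity)
    linarith

lemma rad_rpow_inv {κ : ℝ} (hκ : 1 ≤ κ) {z : ℂ} {M : ℝ} (hM : 0 ≤ M) (h : ‖z‖ = M ^ (1 / κ)) :
    rad κ z = M := by
  unfold rad
  rw [h, ← Real.rpow_mul hM, one_div_mul_cancel (by linarith), Real.rpow_one]

lemma norm_eq_rad_rpow {κ : ℝ} (hκ : 1 ≤ κ) (z : ℂ) : ‖z‖ = rad κ z ^ (1 / κ) := by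
  unfold rad
  rw [← Real.rpow_mul (norm_nonneg _), mul_one_div_cancel (by linarith), Real.rpow_one]

/-- CN inequality, apex case. -/
lemma cone_cn_apex {κ : ℝ} (hκ : 1 ≤ κ) (a b : ℂ) (hab : rad κ b ≤ rad κ a)
    (h : b = 0 ∨ Real.pi ≤ κ * angle a b) :
    ∃ m : ℂ, ‖m‖ ≤ max ‖a‖ ‖b‖ ∧
      ∀ p, 2 * csq κ p m + csq κ a b / 2 ≤ csq κ p a + csq κ p b := by
  have hra := rad_nonneg κ a
  have hrb := rad_nonneg κ b
  have hk0 : 0 < κ := by linarith
  -- csq a b = (ra + rb)^2
  have hcab : csq κ a b = (rad κ a + rad κ b) ^ 2 := by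
    rcases h with h | h
    · subst h
      rw [csq_comm, csq_zero_left hκ, rad_zero hκ]; ring
    · have : trang κ a b = Real.pi := by unfold trang; exact min_eq_left h
      unfold csq
      rw [this, Real.cos_pi]; ring
  have hcc : ∀ p, rad κ b * (Real.cos (trang κ p a) + Real.cos (trang κ p b)) ≤ 0 := by
    intro p
    rcases h with h | h
    · subst h; rw [rad_zero hκ]; simp
    · have h1 := trang_triangle hκ a p b
      have h2 : trang κ a b = Real.pi := by unfold trang; exact min_eq_left h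
      rw [h2, trang_comm κ a p] at h1
      have h3 : Real.cos (trang κ p b) ≤ Real.cos (Real.pi - trang κ p a) :=
        Real.cos_le_cos_of_nonneg_of_le_pi (by linarith [trang_le_pi κ p a]) (trang_le_pi _ _ _)
          (by linarith)
      rw [Real.cos_pi_sub] at h3
      apply mul_nonpos_of_nonneg_of_nonpos hrb
      linarith
  by_cases ha : a = 0
  · have hb : rad κ b = 0 := by
      rw [ha, rad_zero hκ] at hab
      linarith
    have hb' : b = 0 := rad_eq_zero hb
    refine ⟨0, by simp, fun p => ?_⟩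
    rw [ha, hb', csq_self hκ]
    linarith
  · set M := (rad κ a - rad κ b) / 2 with hM
    have hM0 : 0 ≤ M := by rw [hM]; linarith
    have hra0 : 0 < rad κ a := rad_pos ha
    set t : ℝ := M ^ (1 / κ) / ‖a‖ with ht
    have hna : 0 < ‖a‖ := norm_pos_iff.mpr ha
    have ht0 : 0 ≤ t := by rw [ht]; positivity
    set m : ℂ := (t : ℂ) * a with hm
    have hnm : ‖m‖ = M ^ (1 / κ) := by
      rw [hm, norm_mul, Complex.norm_real, Real.norm_of_nonneg ht0, ht]
      field_simp
    have hrm : rad κ m = M := rad_rpow_inv hκ hM0 hnm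
    refine ⟨m, ?_, fun p => ?_⟩
    · apply le_max_of_le_left
      apply norm_le_of_rad_le hκ
      rw [hrm, hM]; linarith
    · -- cos trang p m * M = cos trang p a * M
      have hcos : M * Real.cos (trang κ p m) = M * Real.cos (trang κ p a) := by
        rcases hM0.eq_or_lt with hM1 | hM1
        · rw [← hM1]; ring
        · have ht1 : 0 < t := by rw [ht]; positivity
          have : trang κ p m = trang κ p a := by
            unfold trang
            have h5 : m = t • a := by rw [hm, Complex.real_smul]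
            rw [h5, InnerProductGeometry.angle_smul_right_of_pos _ _ ht1]
          rw [this]
      have h6 := hcc p
      have hs := rad_nonneg κ p
      rw [hcab]
      unfold csq
      rw [hrm]
      have h7 : rad κ p * (rad κ b * (Real.cos (trang κ p a) + Real.cos (trang κ p b))) ≤ 0 :=
        mul_nonpos_of_nonneg_of_nonpos hs h6
      have h8 : 2 * rad κ p * M * Real.cos (trang κ p m)
          = 2 * rad κ p * (M * Real.cos (trang κ p a)) := by rw [← hcos]; ring
      rw [h8, hM]
      nlinarith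

/-- CN inequality, sector case. -/
lemma cone_cn_sector {κ : ℝ} (hκ : 1 ≤ κ) (a b : ℂ) (ha : a ≠ 0) (hb : b ≠ 0)
    (hω0 : 0 ≤ (b / a).arg) (h : κ * angle a b < Real.pi) :
    ∃ m : ℂ, ‖m‖ ≤ max ‖a‖ ‖b‖ ∧
      ∀ p, 2 * csq κ p m + csq κ a b / 2 ≤ csq κ p a + csq κ p b := by
  have hra := rad_pos (κ := κ) ha
  have hrb := rad_pos (κ := κ) hb
  have hk0 : 0 < κ := by linarith
  set ω := (b / a).arg with hω
  have hang : angle a b = ω := by
    rw [angle_comm, Complex.angle_eq_abs_arg hb ha, abs_of_nonneg hω0]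
  rw [hang] at h
  obtain ⟨M, μ, hM, hμ0, hμδ, e1, e2, e3, e4⟩ :=
    exists_polar_mid hra hrb (by positivity : 0 ≤ κ * ω) h
  set μ' := μ / κ with hμ'
  set ν' := ω - μ' with hν'
  have hκμ : κ * μ' = μ := by rw [hμ']; field_simp
  have hκν : κ * ν' = κ * ω - μ := by rw [hν', mul_sub, hκμ]
  have hμ'0 : 0 ≤ μ' := by rw [hμ']; positivity
  have hν'0 : 0 ≤ ν' := by
    have : 0 ≤ κ * ν' := by rw [hκν]; linarith
    by_contra hneg
    have := mul_neg_of_pos_of_neg hk0 (not_le.mp hneg)
    linarith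
  have hna : 0 < ‖a‖ := norm_pos_iff.mpr ha
  have hnb : 0 < ‖b‖ := norm_pos_iff.mpr hb
  set s : ℝ := M ^ (1 / κ) / ‖a‖ with hs
  have hs0 : 0 < s := by rw [hs]; positivity
  set m : ℂ := a * (s * Complex.exp ((μ' : ℝ) * Complex.I)) with hm
  have hnm : ‖m‖ = M ^ (1 / κ) := by
    rw [hm, norm_mul, norm_mul, Complex.norm_exp_ofReal_mul_I, Complex.norm_real,
      Real.norm_of_nonneg hs0.le, hs]
    field_simp
  have hrm : rad κ m = M := rad_rpow_inv hκ hM.le hnm
  have hm0 : m ≠ 0 := by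
    apply norm_pos_iff.mp
    rw [hnm]; positivity
  have hexp : ∀ x : ℝ, Complex.exp ((x : ℝ) * Complex.I) ≠ 0 := fun x => Complex.exp_ne_zero _
  have hsC : (s : ℂ) ≠ 0 := by exact_mod_cast hs0.ne'
  have ham : a = m * ((s⁻¹ : ℝ) * Complex.exp ((-μ' : ℝ) * Complex.I)) := by
    rw [hm]
    have h1 : Complex.exp ((μ' : ℝ) * Complex.I) * Complex.exp ((-μ' : ℝ) * Complex.I) = 1 := by
      rw [← Complex.exp_add, ← add_mul]
      push_cast
      simp
    have h2 : (s : ℂ) * ((s⁻¹ : ℝ) : ℂ) = 1 := by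
      push_cast
      exact mul_inv_cancel₀ hsC
    calc a = a * (((s : ℂ) * ((s⁻¹ : ℝ) : ℂ))
          * (Complex.exp ((μ' : ℝ) * Complex.I) * Complex.exp ((-μ' : ℝ) * Complex.I))) := by
            rw [h1, h2]; ring
      _ = _ := by ring
  have hbm : b = m * ((‖b‖ / (s * ‖a‖) : ℝ) * Complex.exp ((ν' : ℝ) * Complex.I)) := by
    have h1 : b / a = (‖b / a‖ : ℂ) * Complex.exp ((ω : ℝ) * Complex.I) := by
      rw [hω, Complex.norm_mul_exp_arg_mul_I]
    have h2 : b = a * ((‖b / a‖ : ℂ) * Complex.exp ((ω : ℝ) * Complex.I)) := by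
      rw [← h1]; field_simp
    have h3 : Complex.exp ((ω : ℝ) * Complex.I)
        = Complex.exp ((μ' : ℝ) * Complex.I) * Complex.exp ((ν' : ℝ) * Complex.I) := by
      rw [← Complex.exp_add, ← add_mul, hν']
      push_cast
      congr 2; ring
    have h4 : ((‖b / a‖ : ℝ) : ℂ) = (s : ℂ) * ((‖b‖ / (s * ‖a‖) : ℝ) : ℂ) := by
      rw [← Complex.ofReal_mul, norm_div]
      congr 1
      field_simp
    calc b = a * (((‖b / a‖ : ℝ) : ℂ) * Complex.exp ((ω : ℝ) * Complex.I)) := h2
      _ = _ := by rw [h3, h4, hm]; ring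
  refine ⟨m, ?_, fun p => ?_⟩
  · have h5 : rad κ m ≤ max (rad κ a) (rad κ b) := by
      rw [hrm]
      rcases le_total (rad κ a) (rad κ b) with h6 | h6
      · rw [max_eq_right h6]; linarith
      · rw [max_eq_left h6]; linarith
    rcases le_max_iff.mp h5 with h6 | h6
    · exact le_max_of_le_left (norm_le_of_rad_le hκ h6)
    · exact le_max_of_le_right (norm_le_of_rad_le hκ h6)
  · have hcab : csq κ a b = rad κ a ^ 2 + rad κ b ^ 2 - 2 * rad κ a * rad κ b * Real.cos (κ * ω) := by
      unfold csq trang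
      rw [hang, min_eq_right h.le]
    by_cases hp : p = 0
    · subst hp
      rw [csq_zero_left hκ, csq_zero_left hκ, csq_zero_left hκ, hcab, hrm]
      nlinarith
    · have hkey := key_sector hκ hm0 (ρ1 := s⁻¹) (ρ2 := ‖b‖ / (s * ‖a‖)) (μ := μ') (ν := ν')
        (ra := rad κ a) (rb := rad κ b) (M := M) (by positivity) (by positivity) hμ'0 hν'0
        (by rw [mul_add, hκμ, hκν]; linarith) hra.le hrb.le (by rw [hκμ, hκν]; exact e1)
        (by rw [hκμ, hκν]; exact e2) p hp
      rw [← ham, ← hbm] at hkey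
      rw [hcab]
      have hsp := rad_nonneg κ p
      have h7 := mul_le_mul_of_nonneg_left hkey hsp
      unfold csq
      rw [hrm]
      nlinarith

/-- The CN inequality of Bruhat and Tits in the cone of angle at least `2 π`. -/
theorem cone_cn {κ : ℝ} (hκ : 1 ≤ κ) (a b : ℂ) :
    ∃ m : ℂ, ‖m‖ ≤ max ‖a‖ ‖b‖ ∧
      ∀ p, 2 * csq κ p m + csq κ a b / 2 ≤ csq κ p a + csq κ p b := by
  by_cases h : a = 0 ∨ b = 0 ∨ Real.pi ≤ κ * angle a b
  · rcases le_total (rad κ b) (rad κ a) with hab | hab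
    · rcases h with h | h | h
      · have hb : b = 0 := by
          apply rad_eq_zero (κ := κ)
          rw [h, rad_zero hκ] at hab
          exact le_antisymm hab (rad_nonneg _ _)
        exact cone_cn_apex hκ a b hab (Or.inl hb)
      · exact cone_cn_apex hκ a b hab (Or.inl h)
      · exact cone_cn_apex hκ a b hab (Or.inr h)
    · have : ∃ m : ℂ, ‖m‖ ≤ max ‖b‖ ‖a‖ ∧
          ∀ p, 2 * csq κ p m + csq κ b a / 2 ≤ csq κ p b + csq κ p a := by
        rcases h with h | h | h
        · exact cone_cn_apex hκ b a hab (Or.inl h)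
        · have ha : a = 0 := by
            apply rad_eq_zero (κ := κ)
            rw [h, rad_zero hκ] at hab
            exact le_antisymm hab (rad_nonneg _ _)
          exact cone_cn_apex hκ b a hab (Or.inl ha)
        · exact cone_cn_apex hκ b a hab (Or.inr (by rwa [angle_comm]))
      obtain ⟨m, h1, h2⟩ := this
      refine ⟨m, by rwa [max_comm], fun p => ?_⟩
      rw [csq_comm κ a b, add_comm (csq κ p a)]
      exact h2 p
  · push Not at h
    obtain ⟨ha, hb, hlt⟩ := h
    rcases le_total 0 (b / a).arg with h0 | h0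
    · exact cone_cn_sector hκ a b ha hb h0 hlt
    · have h1 : 0 ≤ (a / b).arg := by
        have h2 : a / b = (b / a)⁻¹ := by rw [inv_div]
        rw [h2, Complex.arg_inv]
        split_ifs with h3
        · exact Real.pi_pos.le
        · linarith
      obtain ⟨m, h3, h4⟩ := cone_cn_sector hκ b a hb ha h1 (by rwa [angle_comm])
      refine ⟨m, by rwa [max_comm], fun p => ?_⟩
      rw [csq_comm κ a b, add_comm (csq κ p a)]
      exact h4 p

end Pool.Agent.Lib.MP_af0b91_an
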