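import Pool.Agent.Lib.MP_af0b91_an.ConeCN

set_option autoImplicit false

namespace Pool.Agent.Lib.MP_af0b91_an

open InnerProductGeometry Filter Topology

/-! ### Comparison of the cone metric with flat coordinates -/

lemma rad_one (z : ℂ) : rad 1 z = ‖z‖ := by unfold rad; rw [Real.rpow_one]

lemma cdist_one (z w : ℂ) : cdist 1 z w = ‖z - w‖ := by
  unfold cdist csq trang
  rw [rad_one, rad_one, one_mul, min_eq_right (angle_le_pi _ _)]
  rw [Real.sqrt_eq_iff_mul_self_eq]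
  · rw [InnerProductGeometry.norm_sub_sq_eq_norm_sq_add_norm_sq_sub_two_mul_norm_mul_norm_mul_cos_angle]
    ring
  · have h1 := Real.cos_le_one (angle z w)
    have h2 := norm_nonneg z
    have h3 := norm_nonneg w
    nlinarith [mul_nonneg h2 h3, sq_nonneg (‖z‖ - ‖w‖)]
  · exact norm_nonneg _

lemma norm_sub_sq_cos (x y : ℂ) :
    ‖x - y‖ ^ 2 = ‖x‖ ^ 2 + ‖y‖ ^ 2 - 2 * ‖x‖ * ‖y‖ * Real.cos (angle x y) := by
  have := InnerProductGeometry.norm_sub_sq_eq_norm_sq_add_norm_sq_sub_two_mul_norm_mul_norm_mul_cos_angle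
    x y
  nlinarith

lemma cdist_mul {κ : ℝ} (c w w' : ℂ) (hc : c ≠ 0) :
    cdist κ (c * w) (c * w') = rad κ c * cdist κ w w' := by
  have h1 : ∀ v : ℂ, rad κ (c * v) = rad κ c * rad κ v := by
    intro v
    unfold rad
    rw [norm_mul, Real.mul_rpow (norm_nonneg _) (norm_nonneg _)]
  have h2 : csq κ (c * w) (c * w') = rad κ c ^ 2 * csq κ w w' := by
    unfold csq trang
    rw [h1, h1, Complex.angle_mul_left hc]
    ring
  unfold cdist
  rw [h2, Real.sqrt_mul (sq_nonneg _), Real.sqrt_sq (rad_nonneg _ _)]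

lemma cdist_near_one {κ : ℝ} (hκ : 1 ≤ κ) {w w' : ℂ} (hw : w ≠ 0) (hw' : w' ≠ 0)
    (h : |w.arg| < Real.pi / (2 * κ)) (h' : |w'.arg| < Real.pi / (2 * κ)) :
    cdist κ w w' = ‖w ^ (κ : ℂ) - w' ^ (κ : ℂ)‖ := by
  have hk0 : 0 < κ := by linarith
  have hpi := Real.pi_pos
  have hpolar : ∀ v : ℂ, v ≠ 0 → v = (1 : ℂ) * ((‖v‖ : ℝ) * Complex.exp ((v.arg : ℝ) * Complex.I)) := by
    intro v _
    rw [Complex.norm_mul_exp_arg_mul_I, one_mul]
  have hpow : ∀ v : ℂ, v ≠ 0 → v ^ (κ : ℂ)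
      = (1 : ℂ) * ((‖v‖ ^ κ : ℝ) * Complex.exp (((κ * v.arg : ℝ) : ℝ) * Complex.I)) := by
    intro v hv
    rw [Complex.cpow_def_of_ne_zero hv, one_mul, Complex.log]
    rw [Real.rpow_def_of_pos (norm_pos_iff.mpr hv), Complex.ofReal_exp, ← Complex.exp_add]
    congr 1
    push_cast
    ring
  have hd : |w.arg - w'.arg| ≤ Real.pi / κ := by
    calc |w.arg - w'.arg| ≤ |w.arg| + |w'.arg| := abs_sub _ _
      _ ≤ Real.pi / (2 * κ) + Real.pi / (2 * κ) := by linarith
      _ = Real.pi / κ := by field_simp; ring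
  have hdpi : Real.pi / κ ≤ Real.pi := div_le_self hpi.le hκ
  have hang : angle w w' = |w.arg - w'.arg| := by
    apply eq_abs_of_cos_eq (angle_nonneg _ _) (angle_le_pi _ _) (hd.trans hdpi)
    have := cos_angle_polar (m := 1) one_ne_zero (norm_pos_iff.mpr hw) (norm_pos_iff.mpr hw')
      w.arg w'.arg
    rw [← hpolar w hw, ← hpolar w' hw'] at this
    exact this
  have htr : trang κ w w' = κ * |w.arg - w'.arg| := by
    unfold trang
    rw [hang]
    apply min_eq_right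
    calc κ * |w.arg - w'.arg| ≤ κ * (Real.pi / κ) := by gcongr
      _ = Real.pi := by field_simp
  have hcosang : Real.cos (angle (w ^ (κ : ℂ)) (w' ^ (κ : ℂ)))
      = Real.cos (κ * w.arg - κ * w'.arg) := by
    rw [hpow w hw, hpow w' hw']
    exact cos_angle_polar one_ne_zero (by have := norm_pos_iff.mpr hw; positivity)
      (by have := norm_pos_iff.mpr hw'; positivity) _ _
  have hnorm : ∀ v : ℂ, v ≠ 0 → ‖v ^ (κ : ℂ)‖ = rad κ v := by
    intro v hv
    rw [hpow v hv, one_mul, norm_mul, Complex.norm_exp_ofReal_mul_I, mul_one, Complex.norm_real,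
      Real.norm_of_nonneg (by positivity)]
    rfl
  unfold cdist
  rw [← Real.sqrt_sq (norm_nonneg (w ^ (κ : ℂ) - w' ^ (κ : ℂ)))]
  congr 1
  rw [norm_sub_sq_cos, hcosang, hnorm w hw, hnorm w' hw']
  unfold csq
  rw [htr]
  congr 2
  rw [← mul_sub, ← Real.cos_abs (κ * (w.arg - w'.arg)), abs_mul, abs_of_pos hk0]

/-- A branch of the square root of `z ^ k` is an isometric coordinate for the cone metric of
exponent `k / 2`, locally. -/
lemma prong_local {Y : Type*} [TopologicalSpace Y] (k : ℕ) (hk : 2 ≤ k) (x : Y) (z e : Y → ℂ)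
    (hz : ContinuousAt z x) (he : ContinuousAt e x) (hzx : z x ≠ 0) (c : ℂ)
    (h : ∀ᶠ y in 𝓝 x, (e y - c) ^ 2 = (z y) ^ k) :
    ∀ᶠ p : Y × Y in 𝓝 (x, x), cdist ((k : ℝ) / 2) (z p.1) (z p.2) = ‖e p.1 - e p.2‖ := by
  have hκ : (1 : ℝ) ≤ (k : ℝ) / 2 := by
    have : (2 : ℝ) ≤ k := by exact_mod_cast hk
    linarith
  set κ : ℝ := (k : ℝ) / 2 with hκdef
  set c0 := e x - c with hc0
  have hx := h.self_of_nhds
  have hc0' : c0 ≠ 0 := by
    intro h0
    rw [← hc0, h0] at hx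
    have : z x ^ k = 0 := by rw [← hx]; simp
    exact hzx (by simpa using (pow_eq_zero_iff (by omega)).mp this)
  have hwcont : ContinuousAt (fun y => z y / z x) x := hz.div_const _
  have hw1 : (fun y => z y / z x) x = 1 := by simp [hzx]
  set g : Y → ℂ := fun y => c0 * (z y / z x) ^ (κ : ℂ) with hg
  have hgx : g x = c0 := by simp [hg, hzx]
  have hgcont : ContinuousAt g x := by
    apply ContinuousAt.mul continuousAt_const
    apply hwcont.cpow continuousAt_const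
    rw [div_self hzx]
    exact Complex.one_mem_slitPlane
  have hg2 : ∀ y, (g y) ^ 2 = (z y / z x) ^ k * c0 ^ 2 := by
    intro y
    simp only [hg]
    rw [mul_pow, ← Complex.cpow_nat_mul]
    have : ((2 : ℕ) : ℂ) * (κ : ℂ) = (k : ℕ) := by
      rw [hκdef]; push_cast; ring
    rw [this, Complex.cpow_natCast]
    ring
  have heg : ∀ᶠ y in 𝓝 x, e y - c = g y := by
    have h1 : ∀ᶠ y in 𝓝 x, ‖(e y - c) - c0‖ < ‖c0‖ / 2 := by
      have h2 : Tendsto (fun y => ‖(e y - c) - c0‖) (𝓝 x) (𝓝 ‖(e x - c) - c0‖) :=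
        ((he.sub continuousAt_const).sub continuousAt_const).norm
      rw [← hc0, sub_self, norm_zero] at h2
      exact h2.eventually_lt_const (by have := norm_pos_iff.mpr hc0'; linarith)
    have h2 : ∀ᶠ y in 𝓝 x, ‖g y - c0‖ < ‖c0‖ / 2 := by
      have h3 : Tendsto (fun y => ‖g y - c0‖) (𝓝 x) (𝓝 ‖g x - c0‖) :=
        (hgcont.sub continuousAt_const).norm
      rw [hgx, sub_self, norm_zero] at h3
      exact h3.eventually_lt_const (by have := norm_pos_iff.mpr hc0'; linarith)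
    filter_upwards [h, h1, h2] with y hy hy1 hy2
    have h3 : (e y - c) ^ 2 = (g y) ^ 2 := by
      rw [hy, hg2, hx, div_pow]
      have : z x ^ k ≠ 0 := pow_ne_zero _ hzx
      field_simp
    rcases sq_eq_sq_iff_eq_or_eq_neg.mp h3 with h4 | h4
    · exact h4
    · exfalso
      rw [h4] at hy1
      have h5 : 2 * ‖c0‖ ≤ ‖-g y - c0‖ + ‖g y - c0‖ := by
        calc 2 * ‖c0‖ = ‖(2 : ℂ) * c0‖ := by simp
          _ = ‖-((-g y - c0) + (g y - c0))‖ := by congr 1; ring
          _ ≤ _ := by rw [norm_neg]; exact norm_add_le _ _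
      have := norm_pos_iff.mpr hc0'
      linarith
  have hnear : ∀ᶠ y in 𝓝 x, z y / z x ≠ 0 ∧ |(z y / z x).arg| < Real.pi / (2 * κ) := by
    have h1 : ∀ᶠ y in 𝓝 x, z y / z x ≠ 0 := by
      apply hwcont.eventually_ne
      simp [hzx]
    have h2 : ContinuousAt (fun y => |(z y / z x).arg|) x := by
      have h3 : ContinuousAt (fun y => (z y / z x).arg) x :=
        ContinuousAt.comp' (Complex.continuousAt_arg (by
          rw [div_self hzx]; exact Complex.one_mem_slitPlane)) hwcont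
      exact h3.abs
    have h3 : Tendsto (fun y => |(z y / z x).arg|) (𝓝 x) (𝓝 0) := by
      have := h2.tendsto
      simpa [hzx] using this
    exact h1.and (h3.eventually_lt_const (by have := Real.pi_pos; positivity))
  have hrad : rad κ (z x) = ‖c0‖ := by
    have h1 : ‖c0‖ ^ 2 = ‖z x‖ ^ k := by
      rw [← norm_pow, hc0, hx, norm_pow]
    have h2 : rad κ (z x) ^ 2 = ‖z x‖ ^ k := by
      unfold rad
      rw [← Real.rpow_natCast, ← Real.rpow_mul (norm_nonneg _), ← Real.rpow_natCast]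
      congr 1
      rw [hκdef]; push_cast; ring
    have h3 : rad κ (z x) ^ 2 = ‖c0‖ ^ 2 := by rw [h1, h2]
    exact (sq_eq_sq₀ (rad_nonneg _ _) (norm_nonneg _)).mp h3
  rw [nhds_prod_eq]
  have hprod : ∀ᶠ p : Y × Y in 𝓝 x ×ˢ 𝓝 x,
      (e p.1 - c = g p.1 ∧ z p.1 / z x ≠ 0 ∧ |(z p.1 / z x).arg| < Real.pi / (2 * κ)) ∧
      (e p.2 - c = g p.2 ∧ z p.2 / z x ≠ 0 ∧ |(z p.2 / z x).arg| < Real.pi / (2 * κ)) :=
    (heg.and hnear).prod_mk (heg.and hnear)
  filter_upwards [hprod] with p hp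
  obtain ⟨⟨h1, h2, h3⟩, ⟨h4, h5, h6⟩⟩ := hp
  have hz1 : z p.1 = z x * (z p.1 / z x) := by field_simp
  have hz2 : z p.2 = z x * (z p.2 / z x) := by field_simp
  rw [hz1, hz2, cdist_mul _ _ _ hzx, cdist_near_one hκ h2 h5 h3 h6, hrad]
  have : e p.1 - e p.2 = c0 * ((z p.1 / z x) ^ (κ : ℂ) - (z p.2 / z x) ^ (κ : ℂ)) := by
    have : e p.1 - e p.2 = (e p.1 - c) - (e p.2 - c) := by ring
    rw [this, h1, h4]
    simp only [hg]; ring
  rw [this, norm_mul]

end Pool.Agent.Lib.MP_af0b91_an
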