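import Pool.Agent.Lib.MP_af0b91_an.Expand

set_option autoImplicit false

namespace Pool.Agent.Lib.MP_af0b91_an

open Filter Topology Set UpperHalfPlane unitInterval

/-- The half plane is homeomorphic to the plane. -/
noncomputable def halfPlaneHomeo : ℍ ≃ₜ ℂ where
  toFun z := ⟨z.re, Real.log z.im⟩
  invFun w := ⟨⟨w.re, Real.exp w.im⟩, Real.exp_pos _⟩
  left_inv := by
    intro z
    apply UpperHalfPlane.ext_re_im
    · rfl
    · show Real.exp (Real.log z.im) = z.im
      exact Real.exp_log z.im_pos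
  right_inv := by
    intro w
    apply Complex.ext
    · rfl
    · show Real.log (Real.exp w.im) = w.im
      exact Real.log_exp _
  continuous_toFun := by
    have h1 : Continuous (fun z : ℍ => Real.log z.im) :=
      UpperHalfPlane.continuous_im.log (fun z => z.im_pos.ne')
    have h2 : Continuous (fun z : ℍ => (z.re : ℂ) + (Real.log z.im : ℂ) * Complex.I) :=
      (Complex.continuous_ofReal.comp UpperHalfPlane.continuous_re).add
        ((Complex.continuous_ofReal.comp h1).mul continuous_const)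
    refine h2.congr (fun z => ?_)
    apply Complex.ext <;> simp
  continuous_invFun := by
    refine Continuous.upperHalfPlaneMk ?_ _
    have h2 : Continuous (fun w : ℂ => (w.re : ℂ) + (Real.exp w.im : ℂ) * Complex.I) :=
      (Complex.continuous_ofReal.comp Complex.continuous_re).add
        ((Complex.continuous_ofReal.comp (Real.continuous_exp.comp Complex.continuous_im)).mul
          continuous_const)
    refine h2.congr (fun z => ?_)
    apply Complex.ext
    · simp
    · simp [Complex.exp_ofReal_re]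

lemma continuous_fdist {X : Type*} [TopologicalSpace X] [T2Space X] [PreconnectedSpace X]
    (A : ConeAtlas X) : Continuous (fun p : X × X => fdist A p.1 p.2) := by
  letI := flatMetric A
  exact continuous_dist

section

variable {S : Type*} [TopologicalSpace S] {π : ℍ → S}

/-- A continuous lift of a homeomorphism is a homeomorphism. -/
lemma lift_is_homeo (hc : IsHyperbolicCover π) (f : S ≃ₜ S) (F : C(ℍ, ℍ))
    (hF : ∀ x, π (F x) = f (π x)) : ∃ F' : ℍ ≃ₜ ℍ, ∀ x, F' x = F x := by
  have hπ := hc.covering.continuous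
  let a₀ : ℍ := UpperHalfPlane.I
  obtain ⟨F', ⟨hF'0, hF'⟩, -⟩ := hc.covering.existsUnique_continuousMap_lifts
    ((f.symm : C(S, S)).comp ⟨π, hπ⟩) (F a₀) a₀ (by
      show π a₀ = f.symm (π (F a₀))
      rw [hF, f.symm_apply_apply])
  have hF'' : ∀ x, π (F' x) = f.symm (π x) := fun x => congrFun hF' x
  have h1 : (fun x => F' (F x)) = fun x => x := by
    apply hc.covering.eq_of_comp_eq (F'.continuous.comp F.continuous) continuous_id _ a₀ hF'0
    funext x
    show π (F' (F x)) = π x
    rw [hF'', hF, f.symm_apply_apply]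
  have h2 : (fun x => F (F' x)) = fun x => x := by
    apply hc.covering.eq_of_comp_eq (F.continuous.comp F'.continuous) continuous_id _ (F a₀)
      (by show F (F' (F a₀)) = F a₀; rw [hF'0])
    funext x
    show π (F (F' x)) = π x
    rw [hF, hF'', f.apply_symm_apply]
  exact ⟨{ toFun := F, invFun := F', left_inv := fun x => congrFun h1 x,
           right_inv := fun x => congrFun h2 x, continuous_toFun := F.continuous,
           continuous_invFun := F'.continuous }, fun x => rfl⟩

lemma exists_lift (hc : IsHyperbolicCover π) (f : S ≃ₜ S) :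
    ∃ F : ℍ ≃ₜ ℍ, ∀ x, π (F x) = f (π x) := by
  have hπ := hc.covering.continuous
  let a₀ : ℍ := UpperHalfPlane.I
  obtain ⟨e₀, he₀⟩ := hc.surjective (f (π a₀))
  obtain ⟨F', ⟨hF'0, hF'⟩, -⟩ := hc.covering.existsUnique_continuousMap_lifts
    ((f : C(S, S)).comp ⟨π, hπ⟩) a₀ e₀ he₀
  obtain ⟨F, hF⟩ := lift_is_homeo hc f F' (fun x => congrFun hF' x)
  exact ⟨F, fun x => by rw [hF]; exact congrFun hF' x⟩

/-- Lifting a homotopy: a lift of `g` moved by deck transformations together with the lift of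
`φ`. -/
lemma exists_close_lift (hc : IsHyperbolicCover π) {g φ : S ≃ₜ S}
    (hg : ContinuousMap.Homotopic (g : C(S, S)) (φ : C(S, S))) {ψ : ℍ ≃ₜ ℍ}
    (hψ : ∀ x, π (ψ x) = φ (π x)) :
    ∃ G : ℍ ≃ₜ ℍ, (∀ x, π (G x) = g (π x)) ∧
      ∀ T : ℍ ≃ᵢ ℍ, (∀ w, π (T w) = π w) → ∃ T' : ℍ ≃ᵢ ℍ, (∀ w, π (T' w) = π w) ∧
        (∀ x, ψ (T x) = T' (ψ x)) ∧ ∀ x, G (T x) = T' (G x) := by
  have hπ := hc.covering.continuous
  let a₀ : ℍ := UpperHalfPlane.I
  obtain ⟨H⟩ := hg.symm
  let H1 : C(I × ℍ, S) := H.toContinuousMap.comp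
    ⟨fun p : I × ℍ => (p.1, π p.2), by fun_prop⟩
  have H1v : ∀ t x, H1 (t, x) = H (t, π x) := fun t x => rfl
  have H10 : ∀ a, H1 (0, a) = π ((ψ : C(ℍ, ℍ)) a) := by
    intro a
    rw [H1v, H.apply_zero]
    exact (hψ a).symm
  set L := hc.covering.liftHomotopy H1 (ψ : C(ℍ, ℍ)) H10 with hL
  have hLl : ∀ p, π (L p) = H1 p := fun p =>
    congrFun (hc.covering.liftHomotopy_lifts H1 (ψ : C(ℍ, ℍ)) H10) p
  have hL0 : ∀ a, L (0, a) = ψ a := hc.covering.liftHomotopy_zero H1 (ψ : C(ℍ, ℍ)) H10
  have hG' : ∀ x, π (L (1, x)) = g (π x) := by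
    intro x
    rw [hLl, H1v, H.apply_one]
    rfl
  obtain ⟨G, hG⟩ := lift_is_homeo hc g ⟨fun x => L (1, x), by fun_prop⟩ hG'
  refine ⟨G, fun x => by rw [hG]; exact hG' x, fun T hT => ?_⟩
  obtain ⟨T', hT', hT'0⟩ := hc.deck (ψ a₀) (ψ (T a₀)) (by rw [hψ, hψ, hT])
  have h1 : (fun x => ψ (T x)) = fun x => T' (ψ x) := by
    apply hc.covering.eq_of_comp_eq (ψ.continuous.comp T.continuous)
      (T'.continuous.comp ψ.continuous) _ a₀ hT'0.symm
    funext x
    show π (ψ (T x)) = π (T' (ψ x))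
    rw [hT', hψ, hψ, hT]
  have h2 : (fun p : I × ℍ => L (p.1, T p.2)) = fun p => T' (L p) := by
    have hTc := T.continuous
    have hTc' := T'.continuous
    apply hc.covering.eq_of_comp_eq (by fun_prop) (by fun_prop) _ (0, a₀)
    · show L (0, T a₀) = T' (L (0, a₀))
      rw [hL0, hL0]
      exact congrFun h1 a₀
    · funext p
      show π (L (p.1, T p.2)) = π (T' (L p))
      rw [hT', hLl, hLl, H1v, hT]
      rfl
  refine ⟨T', hT', fun x => congrFun h1 x, fun x => ?_⟩
  rw [hG, hG]
  exact congrFun h2 (1, x)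

end

end Pool.Agent.Lib.MP_af0b91_an
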