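import Mathlib

set_option autoImplicit false

namespace Pool.Agent.Lib.MP_af0b91_an

open UpperHalfPlane Filter Topology

/-- The linear map `x + i y ↦ lam x + i lam⁻¹ y`. -/
noncomputable def stretch (lam : ℝ) (w : ℂ) : ℂ := ⟨lam * w.re, lam⁻¹ * w.im⟩

/-- The linear map `x + i y ↦ s x + i t y`, used for signs `s, t ∈ {1, -1}`. -/
noncomputable def signs (s t : ℝ) (w : ℂ) : ℂ := ⟨s * w.re, t * w.im⟩

/-- A pair of transverse measured foliations of the surface `S` with finitely many common
singularities, each of which is a `k`-prong with `k ≥ 3`. Away from the finite set `sing` the pair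
is given by the atlas `charts` of natural charts `e = x + i y`: the leaves of the two foliations are
locally the lines `x = const` and `y = const`, the transverse measures are `|dx|` and `|dy|`, so that
the transition maps are locally `w ↦ ± w + c`. Near a singular point `p` there is a coordinate `z`
with `z p = 0` in which the natural charts are the branches of `z ^ (k / 2)`, up to a constant. -/
structure MeasuredFoliationPair (S : Type*) [TopologicalSpace S] where
  sing : Set S
  sing_finite : sing.Finite
  charts : Set (OpenPartialHomeomorph S ℂ)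
  source_disjoint : ∀ e ∈ charts, Disjoint e.source sing
  cover : ∀ p, p ∉ sing → ∃ e ∈ charts, p ∈ e.source
  compat : ∀ e ∈ charts, ∀ e' ∈ charts, ∀ p ∈ e.source ∩ e'.source,
    ∃ s c : ℂ, (s = 1 ∨ s = -1) ∧ ∀ᶠ q in 𝓝 p, e' q = s * e q + c
  prong : ∀ p ∈ sing, ∃ k : ℕ, 3 ≤ k ∧ ∃ z : OpenPartialHomeomorph S ℂ,
    p ∈ z.source ∧ z p = 0 ∧ z.source ∩ sing = {p} ∧
      ∀ e ∈ charts, ∀ q ∈ z.source ∩ e.source, ∃ c : ℂ, ∀ᶠ q' in 𝓝 q, (e q' - c) ^ 2 = z q' ^ k

/-- `φ` is a pseudo-Anosov map: for some pair of transverse measured foliations and some `lam > 1`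
it maps each of the two foliations to itself, multiplying one transverse measure by `lam` and the
other one by `lam⁻¹`; in natural charts it is `x + i y ↦ ± lam x ± i lam⁻¹ y + c`. The two signs
are independent, so that orientation-reversing maps are included. -/
def IsPseudoAnosov {S : Type*} [TopologicalSpace S] (φ : S ≃ₜ S) : Prop :=
  ∃ (F : MeasuredFoliationPair S) (lam : ℝ), 1 < lam ∧ (∀ p, φ p ∈ F.sing ↔ p ∈ F.sing) ∧
    ∀ e ∈ F.charts, ∀ e' ∈ F.charts, ∀ p ∈ e.source, φ p ∈ e'.source →
      ∃ (s t : ℝ) (c : ℂ), (s = 1 ∨ s = -1) ∧ (t = 1 ∨ t = -1) ∧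
        ∀ᶠ q in 𝓝 p, e' (φ q) = signs s t (stretch lam (e q)) + c

/-- `π` is a universal covering of `S` by the hyperbolic plane all of whose deck transformations are
isometries, that is, the universal covering of the surface `S` with a hyperbolic metric. -/
structure IsHyperbolicCover {S : Type*} [TopologicalSpace S] (π : ℍ → S) : Prop where
  covering : IsCoveringMap π
  surjective : Function.Surjective π
  deck : ∀ x y : ℍ, π x = π y → ∃ T : ℍ ≃ᵢ ℍ, (∀ w, π (T w) = π w) ∧ T x = y

/-- The lifted diameter of `K`: the supremum of the hyperbolic diameters of the connected components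
of the preimage of `K`. -/
noncomputable def liftedDiam {S : Type*} (π : ℍ → S) (K : Set S) : ENNReal :=
  ⨆ x ∈ π ⁻¹' K, Metric.ediam (connectedComponentIn (π ⁻¹' K) x)

/-- The dynamical diameter of `K` under the homeomorphism `g`. -/
noncomputable def dynDiam {S : Type*} [TopologicalSpace S] (π : ℍ → S) (g : S ≃ₜ S) (K : Set S) :
    ENNReal :=
  ⨆ j : ℤ, liftedDiam π ((g ^ j : S ≃ₜ S) '' K)

end Pool.Agent.Lib.MP_af0b91_an
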