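import Pool.Agent.Lib.MP_af0b91_an.AffLift

set_option autoImplicit false

namespace Pool.Agent.Lib.MP_af0b91_an

open Filter Topology Set

section

variable {S : Type*} [TopologicalSpace S] {F : MeasuredFoliationPair S}
variable {X : Type*} [TopologicalSpace X] {π : X → S} [T2Space X] [PreconnectedSpace X]

/-- Global expansion and Lipschitz estimates for a lift of an affine map. -/
theorem lift_main (hπ : Continuous π)
    (hcov : ∀ x : X, ∃ c : CChart X, IsUpChart F π c ∧ x ∈ c.z.source) {K0 : Set X}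
    (h : Cocpt (upAtlas F π hπ hcov) K0) (Φ : X ≃ₜ ℂ)
    (hd : ∀ x, ∃ ε > 0, ∀ y ∈ π ⁻¹' F.sing, fdist (upAtlas F π hπ hcov) y x < ε → y = x)
    {ψ : X ≃ₜ X} {μ : ℝ} (hμ : 0 < μ) (hψ : AffLift F π ψ μ) :
    (∀ x y, μ * fdist (upAtlas F π hπ hcov) x y ≤ fdist (upAtlas F π hπ hcov) (ψ x) (ψ y)
      + fdist (upAtlas F π hπ hcov) (ψ.symm x) (ψ.symm y)) ∧
    (∀ x y, fdist (upAtlas F π hπ hcov) (ψ x) (ψ y)
      ≤ max μ μ⁻¹ * fdist (upAtlas F π hπ hcov) x y) := by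
  have hψ' := hψ.symm hμ.ne'
  have hm := h.main Φ hd ψ hψ.1 (fun x hx => aff_btw hπ hcov hψ hx)
    (fun x hx => aff_btw hπ hcov hψ' hx)
  refine ⟨hm.1 μ ?_, hm.2 _ ?_⟩
  · intro x hx
    obtain ⟨e, he, hxe⟩ := F.cover _ hx
    have hev := (aff_dist hπ hcov hψ he hxe).and (aff_dist hπ hcov hψ' he hxe)
    obtain ⟨ε, hε, hP⟩ := exists_ball_of_eventually (upAtlas F π hπ hcov) (P := fun a b =>
      (fdist (upAtlas F π hπ hcov) a b = ‖e (π a) - e (π b)‖ ∧
        fdist (upAtlas F π hπ hcov) (ψ a) (ψ b) = ‖stretch μ (e (π a) - e (π b))‖) ∧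
      (fdist (upAtlas F π hπ hcov) a b = ‖e (π a) - e (π b)‖ ∧
        fdist (upAtlas F π hπ hcov) (ψ.symm a) (ψ.symm b)
          = ‖stretch μ⁻¹ (e (π a) - e (π b))‖)) hev
    refine ⟨ε, hε, fun a ha => ?_⟩
    obtain ⟨⟨h1, h2⟩, -, h3⟩ := hP x a (by rw [fdist_self]; exact hε) ha
    rw [h1, h2, h3]
    exact stretch_expand hμ _
  · intro x hx
    obtain ⟨e, he, hxe⟩ := F.cover _ hx
    have hev := aff_dist hπ hcov hψ he hxe
    obtain ⟨ε, hε, hP⟩ := exists_ball_of_eventually (upAtlas F π hπ hcov) (P := fun a b =>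
      fdist (upAtlas F π hπ hcov) a b = ‖e (π a) - e (π b)‖ ∧
        fdist (upAtlas F π hπ hcov) (ψ a) (ψ b) = ‖stretch μ (e (π a) - e (π b))‖) hev
    refine ⟨ε, hε, fun a ha => ?_⟩
    obtain ⟨h1, h2⟩ := hP x a (by rw [fdist_self]; exact hε) ha
    rw [h1, h2]
    exact stretch_lip hμ _

/-- Deck transformations preserve the chain distance. -/
lemma deck_invariant (hπ : Continuous π)
    (hcov : ∀ x : X, ∃ c : CChart X, IsUpChart F π c ∧ x ∈ c.z.source) (T : X ≃ₜ X)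
    (hT : ∀ x, π (T x) = π x) (x y : X) :
    fdist (upAtlas F π hπ hcov) (T x) (T y) = fdist (upAtlas F π hπ hcov) x y := by
  have hT' : ∀ x, π (T.symm x) = π x := fun x => by
    have := hT (T.symm x)
    rw [T.apply_symm_apply] at this
    exact this.symm
  refine fdist_invariant (A := upAtlas F π hπ hcov) (T := T.toEquiv) ?_ ?_ x y
  · intro c hc
    exact up_pullback T hT (show IsUpChart F π c from hc)
  · intro c hc
    exact up_pullback T.symm hT' (show IsUpChart F π c from hc)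

/-- The preimage of the singular set is discrete. -/
lemma sing_discrete [T1Space S] (hπ : IsLocalHomeomorph π)
    (hcov : ∀ x : X, ∃ c : CChart X, IsUpChart F π c ∧ x ∈ c.z.source) (x : X) :
    ∃ ε > 0, ∀ y ∈ π ⁻¹' F.sing, fdist (upAtlas F π hπ.continuous hcov) y x < ε → y = x := by
  obtain ⟨h, hxh, hπh⟩ := hπ x
  have h1 : {p : S | p ∉ F.sing \ {π x}} ∈ 𝓝 (π x) := by
    have hfin : (F.sing \ {π x}).Finite := F.sing_finite.subset sdiff_subset
    exact hfin.isClosed.isOpen_compl.mem_nhds (by simp)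
  have h2 : π ⁻¹' {p : S | p ∉ F.sing \ {π x}} ∩ h.source ∈ 𝓝 x :=
    inter_mem (hπ.continuous.continuousAt h1) (h.open_source.mem_nhds hxh)
  obtain ⟨ε, hε, hsub⟩ := exists_fdist_ball_subset (upAtlas F π hπ.continuous hcov) x h2
  refine ⟨ε, hε, fun y hy hyx => ?_⟩
  have h3 : y ∈ π ⁻¹' {p : S | p ∉ F.sing \ {π x}} ∩ h.source := hsub y (by rwa [fdist_comm])
  have h4 : π y = π x := by
    by_contra hne
    exact h3.1 ⟨hy, hne⟩
  exact h.injOn h3.2 hxh (by rw [← hπh, h4])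

end

end Pool.Agent.Lib.MP_af0b91_an
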