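import Pool.Agent.Lib.MP_af0b91_an.Busemann

set_option autoImplicit false

namespace Pool.Agent.Lib.MP_af0b91_an

open Filter Topology Set

/-- Betweenness. -/
def Btw {X : Type*} [MetricSpace X] (x p y : X) : Prop := dist x p + dist p y = dist x y

section

variable {X : Type*} [MetricSpace X]

lemma btw_trans1 {x u q w : X} (h1 : Btw x u q) (h2 : Btw x q w) : Btw x u w := by
  unfold Btw at *
  have := dist_triangle u q w
  have := dist_triangle x u w
  linarith

lemma btw_trans2 {x u q w : X} (h1 : Btw q u w) (h2 : Btw x q w) : Btw x u w := by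
  unfold Btw at *
  have := dist_triangle x q u
  have := dist_triangle x u w
  linarith

lemma btw_symm {x u w : X} (h : Btw x u w) : Btw w u x := by
  unfold Btw at *
  rw [dist_comm w u, dist_comm u x, dist_comm w x]; linarith

lemma btw_left (x w : X) : Btw x x w := by unfold Btw; rw [dist_self, zero_add]

lemma btw_right (x w : X) : Btw x w w := by unfold Btw; rw [dist_self, add_zero]

variable [ProperSpace X]

/-- A chosen geodesic. -/
noncomputable def NPC.geo (H : NPC X) (x y : X) : ℝ → X := Classical.choose (exists_geod H.chain x y)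

lemma NPC.geo_isGeod (H : NPC X) (x y : X) : IsGeod (H.geo x y) x y :=
  Classical.choose_spec (exists_geod H.chain x y)

lemma NPC.unique_loc (H : NPC X) {P γ : ℝ → X} (hP : IsLocGeod P)
    (hγ : IsGeod γ (P 0) (P 1)) {t : ℝ} (ht : t ∈ Icc (0 : ℝ) 1) : P t = γ t := by
  have h := H.convex hP hγ.isLocGeod ht
  rw [hγ.1, hγ.2.1, dist_self, dist_self] at h
  apply dist_le_zero.mp
  linarith

lemma zero_mem_I : (0 : ℝ) ∈ Icc (0 : ℝ) 1 := ⟨le_rfl, zero_le_one⟩
lemma one_mem_I : (1 : ℝ) ∈ Icc (0 : ℝ) 1 := ⟨zero_le_one, le_rfl⟩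

omit [ProperSpace X] in
lemma IsGeod.dist_left {γ : ℝ → X} {x y : X} (h : IsGeod γ x y) {t : ℝ} (ht : t ∈ Icc (0 : ℝ) 1) :
    dist x (γ t) = t * dist x y := by
  have := h.dist_eq zero_mem_I ht
  rw [h.1] at this
  rw [this, zero_sub, abs_neg, abs_of_nonneg ht.1]

omit [ProperSpace X] in
lemma IsGeod.dist_right {γ : ℝ → X} {x y : X} (h : IsGeod γ x y) {t : ℝ} (ht : t ∈ Icc (0 : ℝ) 1) :
    dist (γ t) y = (1 - t) * dist x y := by
  have := h.dist_eq ht one_mem_I
  rw [h.2.1] at this
  rw [this, abs_sub_comm, abs_of_nonneg (by linarith [ht.2])]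

omit [ProperSpace X] in
lemma IsGeod.btw {γ : ℝ → X} {x y : X} (h : IsGeod γ x y) {s u w : ℝ} (hs : s ∈ Icc (0 : ℝ) 1)
    (hw : w ∈ Icc (0 : ℝ) 1) (hsu : s ≤ u) (huw : u ≤ w) : Btw (γ s) (γ u) (γ w) := by
  have hu : u ∈ Icc (0 : ℝ) 1 := ⟨hs.1.trans hsu, huw.trans hw.2⟩
  unfold Btw
  rw [h.dist_eq hs hu, h.dist_eq hu hw, h.dist_eq hs hw, abs_sub_comm s u, abs_sub_comm u w,
    abs_sub_comm s w, abs_of_nonneg (by linarith), abs_of_nonneg (by linarith),
    abs_of_nonneg (by linarith)]
  ring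

omit [ProperSpace X] in
lemma IsGeod.injOn {γ : ℝ → X} {x y : X} (h : IsGeod γ x y) (hxy : x ≠ y) {s t : ℝ}
    (hs : s ∈ Icc (0 : ℝ) 1) (ht : t ∈ Icc (0 : ℝ) 1) (hst : γ s = γ t) : s = t := by
  have h1 := h.dist_eq hs ht
  rw [hst, dist_self] at h1
  have h2 : 0 < dist x y := dist_pos.mpr hxy
  have h3 : |s - t| = 0 := by
    rcases mul_eq_zero.mp h1.symm with h4 | h4
    · exact h4
    · exact absurd h4 h2.ne'
  linarith [abs_eq_zero.mp h3]

lemma NPC.btw_eq_geo (H : NPC X) {x p y : X} (h : Btw x p y) (hxy : x ≠ y) :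
    dist x p / dist x y ∈ Icc (0 : ℝ) 1 ∧ p = H.geo x y (dist x p / dist x y) := by
  have hL : 0 < dist x y := dist_pos.mpr hxy
  set L := dist x y with hLdef
  set t := dist x p / L with ht
  have hbtw : dist x p + dist p y = L := h
  have htm : t ∈ Icc (0 : ℝ) 1 := by
    refine ⟨by positivity, ?_⟩
    rw [ht, div_le_one hL]
    linarith [dist_nonneg (x := p) (y := y)]
  refine ⟨htm, ?_⟩
  have hxp : dist x p = t * L := by rw [ht]; field_simp
  have hpy : dist p y = (1 - t) * L := by linarith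
  have hγ := H.geo_isGeod x y
  rcases htm.1.eq_or_lt with h0 | h0
  · rw [← h0] at hxp
    have : x = p := dist_eq_zero.mp (by rw [hxp]; ring)
    rw [← h0, hγ.1, this]
  rcases htm.2.eq_or_lt with h1 | h1
  · rw [h1] at hpy
    have : p = y := dist_eq_zero.mp (by rw [hpy]; ring)
    rw [h1, hγ.2.1, this]
  set γ1 := H.geo x p
  set γ2 := H.geo p y
  have hγ1 : IsGeod γ1 x p := H.geo_isGeod x p
  have hγ2 : IsGeod γ2 p y := H.geo_isGeod p y
  set P : ℝ → X := fun u => if u ≤ t then γ1 (u / t) else γ2 ((u - t) / (1 - t)) with hP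
  have h1t : 0 < 1 - t := by linarith
  have hPc : Continuous P := by
    apply Continuous.if_le
    · exact hγ1.continuous.comp (by fun_prop)
    · exact hγ2.continuous.comp (by fun_prop)
    · exact continuous_id
    · exact continuous_const
    · intro u hu
      rw [hu, div_self h0.ne', sub_self, zero_div, hγ1.2.1, hγ2.1]
  have hm1 : ∀ u, 0 ≤ u → u ≤ t → u / t ∈ Icc (0 : ℝ) 1 := by
    intro u hu hut
    exact ⟨by positivity, by rw [div_le_one h0]; exact hut⟩
  have hm2 : ∀ u, t ≤ u → u ≤ 1 → (u - t) / (1 - t) ∈ Icc (0 : ℝ) 1 := by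
    intro u hu hu1
    exact ⟨div_nonneg (by linarith) h1t.le, by rw [div_le_one h1t]; linarith⟩
  have hdist : ∀ u v, 0 ≤ u → u ≤ v → v ≤ 1 → dist (P u) (P v) = L * (v - u) := by
    intro u v hu huv hv
    by_cases hvt : v ≤ t
    · have hut : u ≤ t := huv.trans hvt
      simp only [hP]
      rw [if_pos hut, if_pos hvt, hγ1.dist_eq (hm1 u hu hut) (hm1 v (hu.trans huv) hvt), hxp,
        abs_sub_comm, ← sub_div, abs_of_nonneg (div_nonneg (by linarith) h0.le)]
      field_simp
    · by_cases hut : u ≤ t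
      · have hvt' := (not_le.mp hvt).le
        simp only [hP]
        rw [if_pos hut, if_neg hvt]
        have e1 := hγ1.dist_left (hm1 u hu hut)
        have e2 := hγ1.dist_right (hm1 u hu hut)
        have e3 := hγ2.dist_left (hm2 v hvt' hv)
        have e4 := hγ2.dist_right (hm2 v hvt' hv)
        rw [hxp] at e1 e2
        rw [hpy] at e3 e4
        have f1 : dist x (γ1 (u / t)) = u * L := by rw [e1]; field_simp
        have f2 : dist (γ1 (u / t)) p = (t - u) * L := by rw [e2]; field_simp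
        have f3 : dist p (γ2 ((v - t) / (1 - t))) = (v - t) * L := by rw [e3]; field_simp
        have f4 : dist (γ2 ((v - t) / (1 - t))) y = (1 - v) * L := by
          rw [e4]; field_simp; ring
        have g1 := dist_triangle (γ1 (u / t)) p (γ2 ((v - t) / (1 - t)))
        have g2 := dist_triangle x (γ1 (u / t)) y
        have g3 := dist_triangle (γ1 (u / t)) (γ2 ((v - t) / (1 - t))) y
        apply le_antisymm <;> nlinarith
      · have hvt' := (not_le.mp hvt).le
        have hut' := (not_le.mp hut).le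
        simp only [hP]
        rw [if_neg hut, if_neg hvt, hγ2.dist_eq (hm2 u hut' (huv.trans hv)) (hm2 v hvt' hv), hpy,
          abs_sub_comm, ← sub_div, abs_of_nonneg (div_nonneg (by linarith) h1t.le)]
        field_simp
        ring
  have hPloc : IsLocGeod P := by
    refine ⟨hPc, 1, one_pos, L, ?_⟩
    intro s hs t' ht' _
    rcases le_total s t' with hst | hst
    · rw [hdist s t' hs.1 hst ht'.2, abs_sub_comm, abs_of_nonneg (by linarith)]
    · rw [dist_comm, hdist t' s ht'.1 hst hs.2, abs_of_nonneg (by linarith)]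
  have hP0 : P 0 = x := by
    simp only [hP]
    rw [if_pos h0.le, zero_div, hγ1.1]
  have hP1 : P 1 = y := by
    simp only [hP]
    rw [if_neg (by linarith), div_self h1t.ne', hγ2.2.1]
  have hPt : P t = p := by
    simp only [hP]
    rw [if_pos le_rfl, div_self h0.ne', hγ1.2.1]
  have := H.unique_loc hPloc (γ := H.geo x y) (by rw [hP0, hP1]; exact hγ) htm
  rw [← hPt, this]

lemma NPC.btw_unique (H : NPC X) {x p p' y : X} (h : Btw x p y) (h' : Btw x p' y)
    (hd : dist x p = dist x p') : p = p' := by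
  by_cases hxy : x = y
  · subst hxy
    unfold Btw at h h'
    rw [dist_self] at h h'
    have h1 : dist x p = 0 := by
      linarith [dist_nonneg (x := x) (y := p), dist_nonneg (x := p) (y := x)]
    have h2 : dist x p' = 0 := by rw [← hd]; exact h1
    rw [← dist_eq_zero.mp h1, ← dist_eq_zero.mp h2]
  · rw [(H.btw_eq_geo h hxy).2, (H.btw_eq_geo h' hxy).2, hd]

/-- Two overlapping geodesic segments concatenate to a geodesic. -/
theorem NPC.overlap (H : NPC X) {x p q y : X} (h1 : Btw x p q) (h2 : Btw p q y) (hpq : p ≠ q) :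
    Btw x p y ∧ Btw x q y := by
  by_cases hxp : x = p
  · subst hxp; exact ⟨btw_left _ _, h2⟩
  by_cases hqy : q = y
  · subst hqy; exact ⟨h1, btw_right _ _⟩
  set a := dist x p with ha
  set b := dist p q with hb
  set c := dist q y with hc
  have ha0 : 0 < a := dist_pos.mpr hxp
  have hb0 : 0 < b := dist_pos.mpr hpq
  have hc0 : 0 < c := dist_pos.mpr hqy
  have hxq : dist x q = a + b := h1.symm
  have hpy : dist p y = b + c := h2.symm
  have hxq' : x ≠ q := by
    intro h; rw [h, dist_self] at hxq; linarith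
  have hpy' : p ≠ y := by
    intro h; rw [h, dist_self] at hpy; linarith
  set σ := a + b + c with hσ
  have hσ0 : 0 < σ := by positivity
  set γ := H.geo x y
  have hγ : IsGeod γ x y := H.geo_isGeod x y
  set L := dist x y with hL
  -- comparison paths
  have hmem1 : ∀ u ∈ Icc (0 : ℝ) 1, u * ((a + b) / σ) ∈ Icc (0 : ℝ) 1 := by
    intro u hu
    have : (a + b) / σ ≤ 1 := by rw [div_le_one hσ0]; linarith
    have h0 : 0 ≤ (a + b) / σ := by positivity
    exact ⟨mul_nonneg hu.1 h0, by nlinarith [hu.2, hu.1]⟩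
  have hmem2 : ∀ u ∈ Icc (0 : ℝ) 1, a / σ + u * ((b + c) / σ) ∈ Icc (0 : ℝ) 1 := by
    intro u hu
    have h0 : 0 ≤ (b + c) / σ := by positivity
    have h1 : 0 ≤ a / σ := by positivity
    have h3 : a / σ + (b + c) / σ = 1 := by field_simp; rw [hσ]; ring
    refine ⟨add_nonneg h1 (mul_nonneg hu.1 h0), ?_⟩
    nlinarith [hu.2]
  have hQ1 : IsLocGeod (fun u => γ (u * ((a + b) / σ))) := by
    refine ⟨hγ.continuous.comp (by fun_prop), 1, one_pos, (a + b) / σ * L, ?_⟩
    intro s hs t ht _
    simp only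
    rw [hγ.dist_eq (hmem1 s hs) (hmem1 t ht), ← sub_mul, abs_mul,
      abs_of_pos (by positivity : 0 < (a + b) / σ)]
    ring
  have hQ2 : IsLocGeod (fun u => γ (a / σ + u * ((b + c) / σ))) := by
    refine ⟨hγ.continuous.comp (by fun_prop), 1, one_pos, (b + c) / σ * L, ?_⟩
    intro s hs t ht _
    simp only
    rw [hγ.dist_eq (hmem2 s hs) (hmem2 t ht), add_sub_add_left_eq_sub, ← sub_mul, abs_mul,
      abs_of_pos (by positivity : 0 < (b + c) / σ)]
    ring
  set p' := γ (a / σ) with hp'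
  set q' := γ ((a + b) / σ) with hq'
  have hpgeo := H.btw_eq_geo h1 hxq'
  have hqgeo := H.btw_eq_geo h2 hpy'
  rw [hxq, ← ha] at hpgeo
  rw [hpy, ← hb] at hqgeo
  have c1 := H.convex (H.geo_isGeod x q).isLocGeod hQ1 hpgeo.1
  have c2 := H.convex (H.geo_isGeod p y).isLocGeod hQ2 hqgeo.1
  rw [← hpgeo.2] at c1
  rw [← hqgeo.2] at c2
  have e1 : a / (a + b) * ((a + b) / σ) = a / σ := by field_simp
  have e2 : a / σ + b / (b + c) * ((b + c) / σ) = (a + b) / σ := by field_simp
  have e3 : a / σ + 1 * ((b + c) / σ) = 1 := by rw [one_mul]; field_simp; rw [hσ]; ring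
  simp only [e1, zero_mul, one_mul] at c1
  rw [(H.geo_isGeod x q).1, (H.geo_isGeod x q).2.1] at c1
  rw [hγ.1, dist_self] at c1
  simp only [e2, zero_mul, add_zero] at c2
  rw [e3, (H.geo_isGeod p y).1, (H.geo_isGeod p y).2.1, hγ.2.1, dist_self] at c2
  have hp0 : 0 ≤ dist p p' := dist_nonneg
  have hq0 : 0 ≤ dist q q' := dist_nonneg
  have hfp : dist p p' = 0 := by
    have h3 : a / (a + b) * (1 - b / (b + c)) < 1 := by
      have h4 : a / (a + b) < 1 := by rw [div_lt_one (by positivity)]; linarith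
      have h5 : 0 < a / (a + b) := by positivity
      have h6 : 0 ≤ 1 - b / (b + c) := by
        have : b / (b + c) ≤ 1 := by rw [div_le_one (by positivity)]; linarith
        linarith
      have h7 : 1 - b / (b + c) ≤ 1 := by
        have : 0 < b / (b + c) := by positivity
        linarith
      nlinarith
    have h8 : dist p p' ≤ a / (a + b) * (1 - b / (b + c)) * dist p p' := by
      have h9 : a / (a + b) * dist q q' ≤ a / (a + b) * ((1 - b / (b + c)) * dist p p') := by
        have : 0 ≤ a / (a + b) := by positivity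
        apply mul_le_mul_of_nonneg_left _ this
        linarith
      linarith
    by_contra hne
    have hpos : 0 < dist p p' := lt_of_le_of_ne hp0 (Ne.symm hne)
    nlinarith
  have hpp : p = p' := dist_eq_zero.mp hfp
  -- L = σ
  have hLσ : L = σ := by
    have h3 : dist x p' = a / σ * L := hγ.dist_left ⟨by positivity, by
      rw [div_le_one hσ0]; linarith⟩
    rw [← hpp, ← ha] at h3
    have h4 : a * σ = a * L := by
      calc a * σ = (a / σ * L) * σ := by rw [← h3]
        _ = a * L := by field_simp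
    exact (mul_left_cancel₀ ha0.ne' h4).symm
  constructor
  · unfold Btw; rw [hpy, ← hL, hLσ]; linarith
  · unfold Btw; rw [hxq, ← hL, hLσ]

/-- Local to global principle for geodesics. -/
theorem NPC.l2g (H : NPC X) {γ : ℝ → X} {a b : ℝ}
    (hinj : ∀ s ∈ Icc a b, ∀ t ∈ Icc a b, γ s = γ t → s = t)
    (hloc : ∀ t ∈ Icc a b, ∃ ε > 0, ∀ s ∈ Icc a b, ∀ w ∈ Icc a b, |s - t| < ε → |w - t| < ε →
      ∀ u, s ≤ u → u ≤ w → Btw (γ s) (γ u) (γ w)) :
    ∀ s ∈ Icc a b, ∀ w ∈ Icc a b, ∀ u, s ≤ u → u ≤ w → Btw (γ s) (γ u) (γ w) := by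
  choose! ε hε hloc using hloc
  obtain ⟨δ, hδ, hδ'⟩ : ∃ δ > 0, ∀ s ∈ Icc a b, ∃ t ∈ Icc a b, Metric.ball s δ ⊆ Metric.ball t (ε t) := by
    obtain ⟨δ, hδ, h⟩ := lebesgue_number_lemma_of_metric (s := Icc a b)
      (c := fun t : Icc a b => Metric.ball (t : ℝ) (ε t)) isCompact_Icc
      (fun t => Metric.isOpen_ball) (by
        intro t ht
        simp only [mem_iUnion]
        exact ⟨⟨t, ht⟩, Metric.mem_ball_self (hε t ht)⟩)
    refine ⟨δ, hδ, fun s hs => ?_⟩
    obtain ⟨t, ht⟩ := h s hs
    exact ⟨t, t.2, ht⟩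
  have hwin : ∀ s ∈ Icc a b, ∀ w ∈ Icc a b, w - s < δ → ∀ u, s ≤ u → u ≤ w →
      Btw (γ s) (γ u) (γ w) := by
    intro s hs w hw hws u hsu huw
    obtain ⟨t, ht, hsub⟩ := hδ' s hs
    have h1 : s ∈ Metric.ball t (ε t) := hsub (Metric.mem_ball_self hδ)
    have h2 : w ∈ Metric.ball t (ε t) := hsub (by
      rw [Metric.mem_ball, Real.dist_eq, abs_of_nonneg (by linarith)]
      exact hws)
    rw [Metric.mem_ball, Real.dist_eq] at h1 h2
    exact hloc t ht s hs w hw h1 h2 u hsu huw
  have hind : ∀ n : ℕ, ∀ s ∈ Icc a b, ∀ w ∈ Icc a b, w - s ≤ δ / 2 + n * (δ / 4) → ∀ u, s ≤ u →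
      u ≤ w → Btw (γ s) (γ u) (γ w) := by
    intro n
    induction n with
    | zero =>
      intro s hs w hw hws u hsu huw
      exact hwin s hs w hw (by push_cast at hws; linarith) u hsu huw
    | succ n ih =>
      intro s hs w hw hws u hsu huw
      by_cases hsmall : w - s ≤ δ / 2 + n * (δ / 4)
      · exact ih s hs w hw hsmall u hsu huw
      · have hn0 : (0 : ℝ) ≤ n * (δ / 4) := by positivity
        have hbig : δ / 2 < w - s := by linarith [not_le.mp hsmall]
        push_cast at hws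
        have hpI : w - δ / 2 ∈ Icc a b := ⟨by linarith [hs.1], by linarith [hw.2]⟩
        have hqI : w - δ / 4 ∈ Icc a b := ⟨by linarith [hs.1], by linarith [hw.2]⟩
        have b1 := ih s hs (w - δ / 4) hqI (by linarith) (w - δ / 2) (by linarith) (by linarith)
        have b2 := hwin (w - δ / 2) hpI w hw (by linarith) (w - δ / 4) (by linarith) (by linarith)
        have hne : γ (w - δ / 2) ≠ γ (w - δ / 4) := by
          intro h
          have := hinj _ hpI _ hqI h
          linarith
        obtain ⟨b3, b4⟩ := H.overlap b1 b2 hne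
        rcases le_total u (w - δ / 4) with hu | hu
        · exact btw_trans1 (ih s hs (w - δ / 4) hqI (by linarith) u hsu hu) b4
        · exact btw_trans2 (hwin (w - δ / 4) hqI w hw (by linarith) u hu huw) b4
  intro s hs w hw u hsu huw
  obtain ⟨n, hn⟩ := exists_nat_ge ((w - s) / (δ / 4))
  apply hind n s hs w hw _ u hsu huw
  have : w - s ≤ n * (δ / 4) := by
    rwa [div_le_iff₀ (by positivity)] at hn
  linarith

end

end Pool.Agent.Lib.MP_af0b91_an
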