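import Pool.Agent.Lib.MP_af0b91_an.Defs
import Pool.Agent.Lib.MP_af0b91_an.Build
import Pool.Agent.Lib.MP_af0b91_an.ConeLocal

set_option autoImplicit false

namespace Pool.Agent.Lib.MP_af0b91_an

open Filter Topology Set UpperHalfPlane

section

variable {S : Type*} [TopologicalSpace S] (F : MeasuredFoliationPair S)

/-- Chosen prong data. -/
noncomputable def prongK (p : S) (hp : p ∈ F.sing) : ℕ := Classical.choose (F.prong p hp)

lemma three_le_prongK (p : S) (hp : p ∈ F.sing) : 3 ≤ prongK F p hp :=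
  (Classical.choose_spec (F.prong p hp)).1

noncomputable def prongZ (p : S) (hp : p ∈ F.sing) : OpenPartialHomeomorph S ℂ :=
  Classical.choose (Classical.choose_spec (F.prong p hp)).2

lemma prongZ_spec (p : S) (hp : p ∈ F.sing) :
    p ∈ (prongZ F p hp).source ∧ prongZ F p hp p = 0 ∧ (prongZ F p hp).source ∩ F.sing = {p} ∧
      ∀ e ∈ F.charts, ∀ q ∈ (prongZ F p hp).source ∩ e.source, ∃ c : ℂ,
        ∀ᶠ q' in 𝓝 q, (e q' - c) ^ 2 = prongZ F p hp q' ^ (prongK F p hp) :=
  Classical.choose_spec (Classical.choose_spec (F.prong p hp)).2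

variable {X : Type*} [TopologicalSpace X] (π : X → S)

/-- Regular cone charts upstairs. -/
def IsRegChart (c : CChart X) : Prop :=
  c.κ = 1 ∧ ∃ e ∈ F.charts, ∃ c0 : ℂ, ∀ x ∈ c.z.source, π x ∈ e.source ∧ c.z x = e (π x) - c0

/-- Prong cone charts upstairs. -/
def IsProngChart (c : CChart X) (p : S) (hp : p ∈ F.sing) : Prop :=
  c.κ = (prongK F p hp : ℝ) / 2 ∧
    ∀ x ∈ c.z.source, π x ∈ (prongZ F p hp).source ∧ c.z x = prongZ F p hp (π x)

/-- All cone charts upstairs. -/
def IsUpChart (c : CChart X) : Prop :=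
  IsRegChart F π c ∨ ∃ (p : S) (hp : p ∈ F.sing), IsProngChart F π c p hp

variable {F π}

lemma not_sing_of_reg {e : OpenPartialHomeomorph S ℂ} (he : e ∈ F.charts) {q : S}
    (hq : q ∈ e.source) : q ∉ F.sing := fun h =>
  (Set.disjoint_left.mp (F.source_disjoint e he)) hq h

lemma reg_reg {e e' : OpenPartialHomeomorph S ℂ} (he : e ∈ F.charts) (he' : e' ∈ F.charts)
    {q : S} (hq : q ∈ e.source) (hq' : q ∈ e'.source) :
    ∀ᶠ p : S × S in 𝓝 (q, q), ‖e' p.1 - e' p.2‖ = ‖e p.1 - e p.2‖ := by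
  obtain ⟨s, c, hs, hev⟩ := F.compat e he e' he' q ⟨hq, hq'⟩
  rw [nhds_prod_eq]
  filter_upwards [hev.prod_mk hev] with p hp
  rw [hp.1, hp.2]
  have : s * e p.1 + c - (s * e p.2 + c) = s * (e p.1 - e p.2) := by ring
  rw [this, norm_mul]
  rcases hs with h | h <;> rw [h] <;> simp

lemma up_eventually (hπ : Continuous π) {x : X} {P : S × S → Prop}
    (h : ∀ᶠ p : S × S in 𝓝 (π x, π x), P p) :
    ∀ᶠ p : X × X in 𝓝 (x, x), P (π p.1, π p.2) := by
  have hc : Continuous (fun p : X × X => (π p.1, π p.2)) := by fun_prop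
  exact (hc.tendsto (x, x)).eventually h

/-- Near a regular point every chart upstairs computes the flat distance. -/
lemma up_reg (hπ : Continuous π) {c : CChart X} (hc : IsUpChart F π c) {x : X}
    (hx : x ∈ c.z.source) {e : OpenPartialHomeomorph S ℂ} (he : e ∈ F.charts)
    (hxe : π x ∈ e.source) :
    ∀ᶠ p : X × X in 𝓝 (x, x), c.cd p.1 p.2 = ‖e (π p.1) - e (π p.2)‖ := by
  have hsrc : ∀ᶠ p : X × X in 𝓝 (x, x), p.1 ∈ c.z.source ∧ p.2 ∈ c.z.source := by
    rw [nhds_prod_eq]
    have hA : ∀ᶠ y in 𝓝 x, y ∈ c.z.source := c.z.open_source.mem_nhds hx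
    exact hA.prod_mk hA
  rcases hc with ⟨hκ, e', he', c0, hz⟩ | ⟨p0, hp0, hκ, hz⟩
  · have h1 := up_eventually (π := π) hπ (reg_reg he he' hxe (hz x hx).1)
    filter_upwards [hsrc, h1] with p hp hp1
    unfold CChart.cd
    rw [hκ, cdist_one, (hz _ hp.1).2, (hz _ hp.2).2, ← hp1]
    congr 1; ring
  · obtain ⟨h0, hz0, hsingle, hpr⟩ := prongZ_spec F p0 hp0
    have hxs := (hz x hx).1
    obtain ⟨c1, hc1⟩ := hpr e he (π x) ⟨hxs, hxe⟩
    have hne : prongZ F p0 hp0 (π x) ≠ 0 := by
      intro h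
      have h2 : π x = p0 := (prongZ F p0 hp0).injOn hxs h0 (by rw [h, hz0])
      exact not_sing_of_reg he hxe (h2 ▸ hp0)
    have hk : 2 ≤ prongK F p0 hp0 := by have := three_le_prongK F p0 hp0; omega
    have h2 := prong_local (Y := X) (prongK F p0 hp0) hk x (fun y => prongZ F p0 hp0 (π y))
      (fun y => e (π y))
      (ContinuousAt.comp ((prongZ F p0 hp0).continuousAt hxs) hπ.continuousAt)
      (ContinuousAt.comp (e.continuousAt hxe) hπ.continuousAt) hne c1
      (hπ.continuousAt.eventually hc1)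
    filter_upwards [hsrc, h2] with p hp hp1
    unfold CChart.cd
    rw [hκ, (hz _ hp.1).2, (hz _ hp.2).2]
    exact hp1

variable (F π)

/-- The cone atlas upstairs. -/
noncomputable def upAtlas (hπ : Continuous π)
    (hcov : ∀ x : X, ∃ c : CChart X, IsUpChart F π c ∧ x ∈ c.z.source) : ConeAtlas X where
  charts := {c | IsUpChart F π c}
  cover := hcov
  compat := by
    intro c hc c' hc' x hx hx'
    by_cases hs : π x ∈ F.sing
    · -- both are prong charts at the same point
      have key : ∀ d : CChart X, IsUpChart F π d → x ∈ d.z.source →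
          ∃ (hp : π x ∈ F.sing), IsProngChart F π d (π x) hp := by
        intro d hd hxd
        rcases hd with ⟨hκ, e', he', c0, hz⟩ | ⟨p0, hp0, hd⟩
        · exact absurd hs (not_sing_of_reg he' (hz x hxd).1)
        · have h1 := (prongZ_spec F p0 hp0).2.2.1
          have h2 : π x ∈ (prongZ F p0 hp0).source ∩ F.sing := ⟨(hd.2 x hxd).1, hs⟩
          rw [h1] at h2
          have h3 : π x = p0 := h2
          subst h3
          exact ⟨hp0, hd⟩
      obtain ⟨hp, hκ, hz⟩ := key c hc hx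
      obtain ⟨hp', hκ', hz'⟩ := key c' hc' hx'
      rw [nhds_prod_eq]
      have hA1 : ∀ᶠ y in 𝓝 x, y ∈ c.z.source := c.z.open_source.mem_nhds hx
      have hA2 : ∀ᶠ y in 𝓝 x, y ∈ c'.z.source := c'.z.open_source.mem_nhds hx'
      have hA := hA1.and hA2
      filter_upwards [hA.prod_mk hA] with p hp1
      unfold CChart.cd
      rw [hκ, hκ', (hz _ hp1.1.1).2, (hz _ hp1.2.1).2, (hz' _ hp1.1.2).2, (hz' _ hp1.2.2).2]
    · obtain ⟨e, he, hxe⟩ := F.cover (π x) hs
      filter_upwards [up_reg hπ hc hx he hxe, up_reg hπ hc' hx' he hxe] with p hp hp'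
      rw [hp, hp']

variable {F π}

/-- Restriction of an open partial homeomorphism to `ℂ` to a ball of the target. -/
lemma exists_ball_restr (g : OpenPartialHomeomorph X ℂ) {x : X} (hx : x ∈ g.source)
    (hgx : g x = 0) (κ : ℝ) (hκ : 1 ≤ κ) :
    ∃ c : CChart X, c.κ = κ ∧ x ∈ c.z.source ∧ c.z.source ⊆ g.source ∧ ∀ y, c.z y = g y := by
  have h0 : (0 : ℂ) ∈ g.target := hgx ▸ g.map_source hx
  obtain ⟨ρ, hρ, hsub⟩ := Metric.isOpen_iff.mp g.open_target 0 h0
  refine ⟨⟨κ, hκ, g.trans (OpenPartialHomeomorph.ofSet (Metric.ball 0 ρ) Metric.isOpen_ball), ρ, ?_⟩,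
    rfl, ?_, ?_, ?_⟩
  · rw [OpenPartialHomeomorph.trans_target]
    simp only [OpenPartialHomeomorph.ofSet_symm, OpenPartialHomeomorph.ofSet_apply, preimage_id,
      OpenPartialHomeomorph.ofSet_target]
    exact inter_eq_left.mpr hsub
  · rw [OpenPartialHomeomorph.trans_source]
    refine ⟨hx, ?_⟩
    simp only [mem_preimage, OpenPartialHomeomorph.ofSet_source]
    rw [hgx]
    exact Metric.mem_ball_self hρ
  · rw [OpenPartialHomeomorph.trans_source]
    exact inter_subset_left
  · intro y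
    simp

lemma up_cover (hπ : IsLocalHomeomorph π) (x : X) :
    ∃ c : CChart X, IsUpChart F π c ∧ x ∈ c.z.source := by
  obtain ⟨h, hxh, hπh⟩ := hπ x
  by_cases hs : π x ∈ F.sing
  · obtain ⟨h0, hz0, hsingle, hpr⟩ := prongZ_spec F (π x) hs
    set g := h.trans (prongZ F (π x) hs) with hg
    have hxg : x ∈ g.source := by
      rw [hg, OpenPartialHomeomorph.trans_source]
      refine ⟨hxh, ?_⟩
      rw [mem_preimage, ← hπh]
      exact h0
    have hgx : g x = 0 := by
      rw [hg, OpenPartialHomeomorph.coe_trans, Function.comp_apply, ← hπh, hz0]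
    have hk : (1 : ℝ) ≤ (prongK F (π x) hs : ℝ) / 2 := by
      have : (3 : ℝ) ≤ prongK F (π x) hs := by exact_mod_cast three_le_prongK F (π x) hs
      linarith
    obtain ⟨c, hκ, hxc, hsub, hcz⟩ := exists_ball_restr g hxg hgx _ hk
    refine ⟨c, Or.inr ⟨π x, hs, hκ, fun y hy => ?_⟩, hxc⟩
    have hy' := hsub hy
    rw [hg, OpenPartialHomeomorph.trans_source] at hy'
    refine ⟨?_, ?_⟩
    · have := hy'.2
      rwa [mem_preimage, ← hπh] at this
    · rw [hcz, hg, OpenPartialHomeomorph.coe_trans, Function.comp_apply, ← hπh]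
  · obtain ⟨e, he, hxe⟩ := F.cover (π x) hs
    set g := (h.trans e).trans (Homeomorph.subRight (e (π x))).toOpenPartialHomeomorph with hg
    have hxg : x ∈ g.source := by
      rw [hg, OpenPartialHomeomorph.trans_source, OpenPartialHomeomorph.trans_source]
      refine ⟨⟨hxh, ?_⟩, ?_⟩
      · rw [mem_preimage, ← hπh]
        exact hxe
      · simp
    have hgval : ∀ y, g y = e (π y) - e (π x) := by
      intro y
      rw [hg, OpenPartialHomeomorph.coe_trans, Function.comp_apply,
        OpenPartialHomeomorph.coe_trans, Function.comp_apply, ← hπh]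
      simp
    obtain ⟨c, hκ, hxc, hsub, hcz⟩ := exists_ball_restr g hxg (by rw [hgval, sub_self]) 1 le_rfl
    refine ⟨c, Or.inl ⟨hκ, e, he, e (π x), fun y hy => ?_⟩, hxc⟩
    have hy' := hsub hy
    rw [hg, OpenPartialHomeomorph.trans_source, OpenPartialHomeomorph.trans_source] at hy'
    refine ⟨?_, ?_⟩
    · have := hy'.1.2
      rwa [mem_preimage, ← hπh] at this
    · rw [hcz, hgval]

/-- Pulling back charts by deck transformations. -/
lemma up_pullback (T : X ≃ₜ X) (hT : ∀ x, π (T x) = π x) {c : CChart X} (hc : IsUpChart F π c) :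
    ∃ c' : CChart X, IsUpChart F π c' ∧ ∀ a b, T a ∈ c.z.source → T b ∈ c.z.source →
      a ∈ c'.z.source ∧ b ∈ c'.z.source ∧ c'.cd a b = c.cd (T a) (T b) := by
  set g := T.toOpenPartialHomeomorph.trans c.z with hg
  have hgs : ∀ y, y ∈ g.source ↔ T y ∈ c.z.source := by
    intro y
    rw [hg, OpenPartialHomeomorph.trans_source]
    simp
  have hgv : ∀ y, g y = c.z (T y) := by
    intro y
    rw [hg, OpenPartialHomeomorph.coe_trans]
    rfl
  have htarget : g.target = Metric.ball 0 c.ρ := by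
    rw [hg, OpenPartialHomeomorph.trans_target, ← c.target_eq]
    simp
  refine ⟨⟨c.κ, c.one_le, g, c.ρ, htarget⟩, ?_, ?_⟩
  · rcases hc with ⟨hκ, e', he', c0, hz⟩ | ⟨p0, hp0, hκ, hz⟩
    · refine Or.inl ⟨hκ, e', he', c0, fun x hx => ?_⟩
      have hx' := (hgs x).mp hx
      have := hz _ hx'
      rw [hT] at this
      refine ⟨this.1, ?_⟩
      show g x = _
      rw [hgv, this.2]
    · refine Or.inr ⟨p0, hp0, hκ, fun x hx => ?_⟩
      have hx' := (hgs x).mp hx
      have := hz _ hx'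
      rw [hT] at this
      refine ⟨this.1, ?_⟩
      show g x = _
      rw [hgv, this.2]
  · intro a b ha hb
    refine ⟨(hgs a).mpr ha, (hgs b).mpr hb, ?_⟩
    show cdist c.κ (g a) (g b) = cdist c.κ (c.z (T a)) (c.z (T b))
    rw [hgv, hgv]

end

end Pool.Agent.Lib.MP_af0b91_an
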